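import Pool.Agent.Lib.U2N.Rows

/-!
# U2N, row ASM: assembly (helper67)
-/

set_option autoImplicit false

open scoped ComplexConjugate
open Complex Pool.Agent.HCM Pool.Agent.U21

namespace Pool.Agent.U2N

noncomputable section

namespace Asmn

section closure

variable {κ : Type} {K : κ → Type} [∀ k, Field (K k)] [∀ k, NumberField (K k)] {n : κ → ℕ}
  {J : κ → Type} {Φ : Ty K n J} {a : ∀ k, Fin (n k) → K k} {s : κ → Bool}

/-- The span of the generated classes. -/
def GS (Φ : Ty K n J) (a : ∀ k, Fin (n k) → K k) (s : κ → Bool) (c : ℕ) (P : Type) :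
    Submodule ℚ ((P → Lt K n J) → ℂ) := Submodule.span ℚ {f | Gen Φ a s c P f}

/-- A linear operation which maps generators to generators maps spans to spans. -/
theorem op_mem {c c' : ℕ} {P P' : Type}
    (L : ((P → Lt K n J) → ℂ) →ₗ[ℚ] ((P' → Lt K n J) → ℂ))
    (hL : ∀ u, Gen Φ a s c P u → Gen Φ a s c' P' (L u)) {u : (P → Lt K n J) → ℂ}
    (hu : u ∈ GS Φ a s c P) : L u ∈ GS Φ a s c' P' := by
  unfold GS at hu ⊢
  have h1 : (Submodule.span ℚ {f | Gen Φ a s c P f}).map L ≤
      Submodule.span ℚ {f | Gen Φ a s c' P' f} := by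
    rw [Submodule.map_span]
    refine Submodule.span_mono ?_
    rintro _ ⟨f, hf, rfl⟩
    exact hL f hf
  exact h1 (Submodule.mem_map_of_mem hu)

theorem mul_mem {c : ℕ} {P : Type} {δ : (Fin 2 → Lt K n J) → ℂ} (hδ : IsH11 Φ a s δ)
    {u : (P → Lt K n J) → ℂ} (hu : u ∈ GS Φ a s c P) :
    (fun t : Fin 2 ⊕ P → Lt K n J => δ (fun i => t (Sum.inl i)) * u fun j => t (Sum.inr j)) ∈
      GS Φ a s (c + 1) (Fin 2 ⊕ P) := by
  let L : ((P → Lt K n J) → ℂ) →ₗ[ℚ] ((Fin 2 ⊕ P → Lt K n J) → ℂ) :=
    { toFun := fun u t => δ (fun i => t (Sum.inl i)) * u fun j => t (Sum.inr j)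
      map_add' := fun u v => by
        funext t
        simp only [Pi.add_apply, mul_add]
      map_smul' := fun q u => by
        funext t
        simp only [Pi.smul_apply, RingHom.id_apply, mul_smul_comm] }
  exact op_mem L (fun u hu => Gen.mul c P δ u hδ hu) hu

theorem perm_mem {c : ℕ} {P P' : Type} (e : P ≃ P') {u : (P → Lt K n J) → ℂ}
    (hu : u ∈ GS Φ a s c P) : (fun t : P' → Lt K n J => u fun i => t (e i)) ∈ GS Φ a s c P' := by
  let L : ((P → Lt K n J) → ℂ) →ₗ[ℚ] ((P' → Lt K n J) → ℂ) :=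
    { toFun := fun u t => u fun i => t (e i)
      map_add' := fun u v => rfl
      map_smul' := fun q u => rfl }
  exact op_mem L (fun u hu => Gen.perm c P P' e u hu) hu

theorem weak_mem {c : ℕ} {P : Type} {u : (P → Lt K n J) → ℂ}
    (hu : u ∈ GS Φ a s (c - 1 + 1) P) : u ∈ GS Φ a s c P := by
  rcases Nat.eq_zero_or_pos c with h | h
  · subst h
    exact op_mem LinearMap.id (fun u hu => Gen.weak 0 P u hu) hu
  · rwa [Nat.sub_add_cancel h] at hu

theorem det_mem {c : ℕ} {P : Type} {k : κ} (hs : s k = false)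
    {u : (Fin (n k / 2 + 1) ⊕ P → Lt K n J) → ℂ}
    (hu : u ∈ GS Φ a s c (Fin (n k / 2 + 1) ⊕ P)) :
    dN a k u ∈ GS Φ a s c (Fin (n k / 2 + 1) ⊕ P) := by
  let L : ((Fin (n k / 2 + 1) ⊕ P → Lt K n J) → ℂ) →ₗ[ℚ]
      ((Fin (n k / 2 + 1) ⊕ P → Lt K n J) → ℂ) :=
    { toFun := dN a k
      map_add' := fun u v => by
        funext t
        simp only [dN, Pi.add_apply]
        rw [← Finset.sum_add_distrib]
        refine Finset.sum_congr rfl fun τ _ => ?_
        rw [← Finset.sum_add_distrib]
        refine Finset.sum_congr rfl fun σ _ => ?_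
        split_ifs
        · rw [mul_add]
        · rw [add_zero]
      map_smul' := fun q u => by
        funext t
        simp only [dN, Pi.smul_apply, RingHom.id_apply]
        rw [Finset.smul_sum]
        refine Finset.sum_congr rfl fun τ _ => ?_
        rw [Finset.smul_sum]
        refine Finset.sum_congr rfl fun σ _ => ?_
        split_ifs
        · rw [mul_smul_comm]
        · rw [smul_zero] }
  exact op_mem L (fun u hu => Gen.det c P k u hs hu) hu

end closure

theorem exists_equiv {P : Type} (i j : P) (hij : i ≠ j) :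
    ∃ e : P ≃ Fin 2 ⊕ {x : P // x ≠ i ∧ x ≠ j}, e i = Sum.inl 0 ∧ e j = Sum.inl 1 := by
  classical
  refine ⟨{ toFun := fun x => if h : x = i then Sum.inl 0 else
              if h' : x = j then Sum.inl 1 else Sum.inr ⟨x, h, h'⟩
            invFun := fun y => Sum.elim (fun m => if m = 0 then i else j) (fun x => x.1) y
            left_inv := ?_
            right_inv := ?_ }, ?_, ?_⟩
  · intro x
    by_cases h : x = i
    · subst h
      simp
    · by_cases h' : x = j
      · subst h'
        simp [h]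
      · simp [h, h']
  · rintro (m | x)
    · by_cases hm : m = 0
      · subst hm
        simp
      · have h1 : m = 1 := by omega
        subst h1
        simp [Ne.symm hij]
    · simp [x.2.1, x.2.2]
  · simp
  · simp [Ne.symm hij]

theorem exists_equiv_emb {P : Type} {m : ℕ} (f : Fin m ↪ P) [Finite P] :
    ∃ (P' : Type) (_ : Fintype P') (e : P ≃ Fin m ⊕ P'), ∀ i, e (f i) = Sum.inl i := by
  classical
  have := Fintype.ofFinite P
  let e : P ≃ Fin m ⊕ ((Set.range f)ᶜ : Set P) :=
    (Equiv.Set.sumCompl (Set.range f)).symm.trans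
      (Equiv.sumCongr (Equiv.ofInjective f f.injective).symm (Equiv.refl _))
  refine ⟨((Set.range f)ᶜ : Set P), Fintype.ofFinite _, e, fun i => ?_⟩
  have h0 : f i ∈ Set.range f := ⟨i, rfl⟩
  have h1 : (Equiv.Set.sumCompl (Set.range f)).symm (f i) = Sum.inl ⟨f i, h0⟩ :=
    Equiv.Set.sumCompl_symm_apply_of_mem h0
  simp only [e, Equiv.trans_apply, h1, Equiv.sumCongr_apply, Sum.map_inl]
  congr 1
  rw [Equiv.symm_apply_eq]
  rfl

section main

variable {κ : Type} [Finite κ] {K : κ → Type} [∀ k, Field (K k)] [∀ k, NumberField (K k)]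
  [∀ k, NumberField.IsCMField (K k)] {n : κ → ℕ} {J : κ → Type} [∀ k, Finite (J k)]
  [Fintype (Lt K n J)] {Φ : Ty K n J} {a : ∀ k, Fin (n k) → K k} {s : κ → Bool}
  {D : LN (Lt K n J)}

theorem key (hF : FAC) (hD : DET) (hS : SPL) (hU : SUP) (hT : TRN) (hX : REX) (hO : OMS)
    (hdat : IsDat Φ a s) (hls : IsLN a s D) (r : ℕ) :
    ∀ (P : Type) [Fintype P] (c : ℕ) (R : Submodule ℚ ((P → Lt K n J) → ℂ)), IsSub Φ a s c R →
      (∀ u ∈ R, ∀ t, u t ≠ 0 → nA t ≤ r) → ∀ u ∈ R, u ∈ GS Φ a s c P := by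
  classical
  induction r using Nat.strong_induction_on with
  | _ r ih =>
    intro P _ c R hR hr u hu
    obtain ⟨R₁, R₀, hR₁, hR₀, hr₁, hk₀, hdec⟩ := hO κ K n J Φ a s D hdat hls P c r R hR hr
    obtain ⟨v, hv, w, hw, rfl⟩ := hdec u hu
    refine Submodule.add_mem _ ?_ ?_
    · exact hS κ K n J Φ a s hdat P c v (hR₀.rat hv)
        (hU κ K n J Φ a s D hdat hls P c R₀ hR₀ hk₀ v hv)
    -- the two kinds of terms of `Ω w`
    have hA : ∀ i j : P, i ≠ j → D.pr i j w ∈ GS Φ a s c P := by
      intro i j hij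
      obtain ⟨P', _, e, hei, hej⟩ : ∃ (P' : Type) (_ : Fintype P') (e : P ≃ Fin 2 ⊕ P'),
          e i = Sum.inl 0 ∧ e j = Sum.inl 1 := by
        obtain ⟨e, hei, hej⟩ := exists_equiv i j hij
        exact ⟨_, inferInstance, e, hei, hej⟩
      obtain ⟨C, hC, hCu, hCp, -⟩ := hX κ K n J Φ a s D P (Fin 2 ⊕ P') e
      obtain ⟨N, δ, Cm, hδ, hCm, hsum⟩ := hF κ K n J Φ a s D hdat hls P'
      have h1 : D.pr i j w =
          fun t => (fun t' : Fin 2 ⊕ P' → Lt K n J => ∑ m, δ m (fun x => t' (Sum.inl x)) *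
            Cm m (C w) fun x => t' (Sum.inr x)) fun x => t (e.symm x) := by
        funext t
        have h2 := hsum (C w) fun x => t (e.symm x)
        have h3 := hCp i j w fun x => t (e.symm x)
        rw [hei, hej] at h3
        simp only [Equiv.symm_apply_apply] at h3
        rw [h3] at h2
        exact h2
      rw [h1]
      refine perm_mem e.symm (u := fun t' : Fin 2 ⊕ P' → Lt K n J =>
        ∑ m, δ m (fun x => t' (Sum.inl x)) * Cm m (C w) fun x => t' (Sum.inr x)) ?_
      have h5 : (fun t' : Fin 2 ⊕ P' → Lt K n J =>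
          ∑ m, δ m (fun x => t' (Sum.inl x)) * Cm m (C w) fun x => t' (Sum.inr x)) =
          ∑ m, fun t' : Fin 2 ⊕ P' → Lt K n J =>
            δ m (fun x => t' (Sum.inl x)) * Cm m (C w) fun x => t' (Sum.inr x) := by
        funext t'
        rw [Finset.sum_apply]
      rw [h5]
      refine Submodule.sum_mem _ fun m _ => weak_mem (mul_mem (hδ m) ?_)
      -- the contraction
      have h6 := hT κ K n J Φ a s P (Fin 2 ⊕ P') 0 0 c C hC R₁ hR₁
      have h7 := hT κ K n J Φ a s (Fin 2 ⊕ P') P' 1 2 (c - 0) (Cm m) (hCm m) _ h6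
      rw [Nat.sub_zero] at h7
      by_cases hr2 : 2 ≤ r
      · refine ih (r - 2) (by omega) P' (c - 1) _ h7 ?_ _
          ⟨C w, ⟨w, hw, rfl⟩, rfl⟩
        rintro _ ⟨_, ⟨w', hw', rfl⟩, rfl⟩ t' ht'
        obtain ⟨t₁, ht₁, -, -, hn₁⟩ := (hCm m).sup _ t' ht'
        obtain ⟨t₂, ht₂, -, -, hn₂⟩ := hC.sup _ t₁ ht₁
        have h8 := hr₁ w' hw' t₂ ht₂
        omega
      · have h9 : Cm m (C w) = 0 := by
          funext t'
          by_contra ht'
          obtain ⟨t₁, ht₁, -, -, hn₁⟩ := (hCm m).sup _ t' ht'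
          obtain ⟨t₂, ht₂, -, -, hn₂⟩ := hC.sup _ t₁ ht₁
          have h8 := hr₁ w hw t₂ ht₂
          omega
        rw [h9]
        exact Submodule.zero_mem _
    have hB : ∀ (k : κ) (f : Fin (n k / 2 + 1) ↪ P), s k = false →
        (fun t => if (t (f 0)).1.1 = k then D.al (n k / 2 + 1) f w t else 0) ∈ GS Φ a s c P := by
      intro k f hs
      obtain ⟨P', _, e, he⟩ := exists_equiv_emb f
      obtain ⟨C, hC, hCu, -, hCa⟩ := hX κ K n J Φ a s D P (Fin (n k / 2 + 1) ⊕ P') e
      obtain ⟨C', hC', hCu'⟩ := hD κ K n J Φ a s D hdat hls P' k hs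
      have h1 : (fun t => if (t (f 0)).1.1 = k then D.al (n k / 2 + 1) f w t else 0) =
          fun t => (dN a k (C' (C w))) fun x => t (e.symm x) := by
        funext t
        rw [← hCu' (C w) fun x => t (e.symm x)]
        have h3 := hCa (n k / 2) f f.injective w fun x => t (e.symm x)
        have h4 : (fun i => e (f i)) = (Sum.inl : Fin (n k / 2 + 1) → Fin (n k / 2 + 1) ⊕ P') :=
          funext he
        rw [h4] at h3
        simp only [Equiv.symm_apply_apply] at h3
        have h5 : e.symm (Sum.inl 0) = f 0 := by rw [← he 0, Equiv.symm_apply_apply]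
        rw [h3]
        simp only [h5]
      rw [h1]
      refine perm_mem e.symm (u := dN a k (C' (C w))) (det_mem hs ?_)
      have h6 := hT κ K n J Φ a s P (Fin (n k / 2 + 1) ⊕ P') 0 0 c C hC R₁ hR₁
      have h7 := hT κ K n J Φ a s (Fin (n k / 2 + 1) ⊕ P') (Fin (n k / 2 + 1) ⊕ P') 0 1 (c - 0)
        C' hC' _ h6
      rw [Nat.sub_zero, Nat.sub_zero] at h7
      by_cases hr2 : 1 ≤ r
      · refine ih (r - 1) (by omega) _ c _ h7 ?_ _ ⟨C w, ⟨w, hw, rfl⟩, rfl⟩
        rintro _ ⟨_, ⟨w', hw', rfl⟩, rfl⟩ t' ht'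
        obtain ⟨t₁, ht₁, -, -, hn₁⟩ := hC'.sup _ t' ht'
        obtain ⟨t₂, ht₂, -, -, hn₂⟩ := hC.sup _ t₁ ht₁
        have h8 := hr₁ w' hw' t₂ ht₂
        omega
      · have h9 : C' (C w) = 0 := by
          funext t'
          by_contra ht'
          obtain ⟨t₁, ht₁, -, -, hn₁⟩ := hC'.sup _ t' ht'
          obtain ⟨t₂, ht₂, -, -, hn₂⟩ := hC.sup _ t₁ ht₁
          have h8 := hr₁ w hw t₂ ht₂
          omega
        rw [h9]
        exact Submodule.zero_mem _
    have := Fintype.ofFinite κ
    have hB' : ∀ (m : ℕ) (f : Fin (m + 1) ↪ P), D.al (m + 1) f w ∈ GS Φ a s c P := by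
      intro m f
      have h1 : D.al (m + 1) f w = ∑ k, if s k = false ∧ n k / 2 = m then
          (fun t => if (t (f 0)).1.1 = k then D.al (m + 1) f w t else 0) else 0 := by
        funext t
        rw [Finset.sum_apply]
        by_cases han : D.al (m + 1) f w t = 0
        · rw [han]
          symm
          refine Finset.sum_eq_zero fun k _ => ?_
          split_ifs with h2
          · simp only [han, ite_self]
          · rfl
        · have h2 : ∀ i i', D.S (t (f i)) (t (f i')) ∧ ¬ D.sp (t (f i)) ∧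
              D.jj (t (f i)) = m + 1 := by
            by_contra h3
            exact han (if_neg h3)
          have h3 : s (t (f 0)).1.1 = false := by
            have h4 := (h2 0 0).2.1
            rw [hls.ls.hsp] at h4
            exact Bool.eq_false_iff.2 h4
          have h4 : n (t (f 0)).1.1 / 2 = m := by
            have h5 := (h2 0 0).2.2
            rw [hls.hjj] at h5
            omega
          rw [Finset.sum_eq_single (t (f 0)).1.1]
          · rw [if_pos ⟨h3, h4⟩]
            simp
          · intro k _ hk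
            by_cases h6 : s k = false ∧ n k / 2 = m
            · rw [if_pos h6]
              simp only
              rw [if_neg (Ne.symm hk)]
            · rw [if_neg h6]
              rfl
          · intro h
            exact absurd (Finset.mem_univ _) h
      rw [h1]
      refine Submodule.sum_mem _ fun k _ => ?_
      by_cases h6 : s k = false ∧ n k / 2 = m
      · rw [if_pos h6]
        obtain ⟨h7, rfl⟩ := h6
        exact hB k f h7
      · rw [if_neg h6]
        exact Submodule.zero_mem _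
    have h1 : D.om w = (∑ i, ∑ j, if i ≠ j then D.pr i j w else 0) +
        ∑ m ∈ Finset.range (Fintype.card P), ∑ f : Fin (m + 1) ↪ P, D.al (m + 1) f w := by
      funext t
      unfold LN.om
      rw [Pi.add_apply, Finset.sum_apply, Finset.sum_apply]
      congr 1
      · refine Finset.sum_congr rfl fun i _ => ?_
        rw [Finset.sum_apply]
        refine Finset.sum_congr rfl fun j _ => ?_
        by_cases h : i ≠ j
        · rw [if_pos h, if_pos h]
        · rw [if_neg h, if_neg h, Pi.zero_apply]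
      · refine Finset.sum_congr rfl fun m _ => ?_
        rw [Finset.sum_apply]
    rw [h1]
    refine Submodule.add_mem _ (Submodule.sum_mem _ fun i _ => Submodule.sum_mem _ fun j _ => ?_)
      (Submodule.sum_mem _ fun m _ => Submodule.sum_mem _ fun f _ => hB' m f)
    by_cases hij : i ≠ j
    · rw [if_pos hij]
      exact hA i j hij
    · rw [if_neg hij]
      exact Submodule.zero_mem _

end main

end Asmn

/-- Row ASM. -/
theorem asm (hL : LSX) (hF : FAC) (hD : DET) (hS : SPL) (hU : SUP) (hT : TRN) (hX : REX)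
    (hO : OMS) : GHN := by
  intro κ _ K _ _ _ n J _ Φ a s hdat P _ c R hR u hu
  have : Fintype (Lt K n J) := Fintype.ofFinite _
  obtain ⟨D, hls⟩ := hL κ K n J Φ a s hdat
  refine Asmn.key hF hD hS hU hT hX hO hdat hls (Fintype.card P) P c R hR ?_ u hu
  intro u _ t _
  unfold nA
  have h1 := Set.ncard_le_ncard (Set.subset_univ {i | ¬ isB (t i)}) Set.finite_univ
  rwa [Set.ncard_univ, Nat.card_eq_fintype_card] at h1

end

end Pool.Agent.U2N
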