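import Pool.Agent.Lib.U2N.Rows
import Pool.Agent.Lib.U21.OMG

/-!
# U2N, row CMA: the root vectors commute with the antisymmetrisers (helper48)
-/

set_option autoImplicit false

open scoped ComplexConjugate
open Complex Pool.Agent.HCM Pool.Agent.U21 Finset

namespace Pool.Agent.U2N

namespace Cmax

open Omgx

variable {Y P : Type}

/-- The permutation of the places induced by a permutation of the `f i`. -/
noncomputable def vp {j : ℕ} (f : Fin j → P) (hf : Function.Injective f)
    (π : Equiv.Perm (Fin j)) : Equiv.Perm P := π.viaEmbedding ⟨f, hf⟩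

theorem extend_eq {j : ℕ} (f : Fin j → P) (hf : Function.Injective f)
    (π : Equiv.Perm (Fin j)) (t : P → Y) :
    Function.extend f (fun i => t (f (π i))) t = fun l => t (vp f hf π l) := by
  funext l
  by_cases hl : ∃ i, f i = l
  · obtain ⟨i, rfl⟩ := hl
    rw [hf.extend_apply]
    exact congrArg t (Equiv.Perm.viaEmbedding_apply π ⟨f, hf⟩ i).symm
  · rw [Function.extend_apply' _ _ _ hl]
    refine congrArg t (Equiv.Perm.viaEmbedding_apply_of_notMem π ⟨f, hf⟩ l ?_).symm
    rintro ⟨i, hi⟩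
    exact hl ⟨i, hi⟩

theorem up_comp (t : P → Y) (s : Equiv.Perm P) (l : P) (z : Y) :
    (fun m => up t (s l) z (s m)) = up (fun m => t (s m)) l z := by
  funext m
  by_cases h : m = l
  · rw [h, up_same, up_same]
  · rw [up_ne _ _ h, up_ne _ _ (fun h' => h (s.injective h'))]

open Classical in
theorem eL_comp [Fintype P] (z z' : Y) (u : (P → Y) → ℂ) (t : P → Y) (s : Equiv.Perm P) :
    eL z z' u (fun m => t (s m)) =
      ∑ l, if t l = z then u (fun m => up t l z' (s m)) else 0 := by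
  unfold eL
  rw [← Equiv.sum_comp s fun l => if t l = z then u (fun m => up t l z' (s m)) else 0]
  refine sum_congr rfl fun l _ => ?_
  rw [up_comp]

theorem cond_up (D : LN Y) {j : ℕ} (f : Fin j → P) {z z' : Y} (hS : D.S z z') {t : P → Y} {l : P}
    (hl : t l = z) :
    (∀ i i', D.S (up t l z' (f i)) (up t l z' (f i')) ∧ ¬ D.sp (up t l z' (f i)) ∧
      D.jj (up t l z' (f i)) = j) ↔
    ∀ i i', D.S (t (f i)) (t (f i')) ∧ ¬ D.sp (t (f i)) ∧ D.jj (t (f i)) = j := by
  have h1 : ∀ m, D.S (t m) (up t l z' m) ∨ up t l z' m = t m := by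
    intro m
    by_cases h : m = l
    · left
      rw [h, up_same, hl]
      exact hS
    · right
      exact up_ne _ _ h
  have h2 : ∀ m m', D.S (up t l z' m) (up t l z' m') ↔ D.S (t m) (t m') := by
    intro m m'
    rcases h1 m with h | h
    · rcases h1 m' with h' | h'
      · exact ⟨fun g => D.trans _ _ _ h (D.trans _ _ _ g (D.symm _ _ h')),
          fun g => D.trans _ _ _ (D.symm _ _ h) (D.trans _ _ _ g h')⟩
      · rw [h']
        exact ⟨fun g => D.trans _ _ _ h g, fun g => D.trans _ _ _ (D.symm _ _ h) g⟩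
    · rw [h]
      rcases h1 m' with h' | h'
      · exact ⟨fun g => D.trans _ _ _ g (D.symm _ _ h'), fun g => D.trans _ _ _ g h'⟩
      · rw [h']
  have h3 : ∀ m, D.sp (up t l z' m) ↔ D.sp (t m) := by
    intro m
    rcases h1 m with h | h
    · exact (D.sp_S _ _ h).symm
    · rw [h]
  have h4 : ∀ m, D.jj (up t l z' m) = D.jj (t m) := by
    intro m
    rcases h1 m with h | h
    · exact (D.jj_S _ _ h).symm
    · rw [h]
  simp only [h2, h3, h4]

theorem al_eL [Fintype P] (D : LN Y) {j : ℕ} (f : Fin j → P) (hf : Function.Injective f) {z z' : Y}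
    (hS : D.S z z') (u : (P → Y) → ℂ) : eL z z' (D.al j f u) = D.al j f (eL z z' u) := by
  classical
  funext t
  have e1 : ∀ (v : (P → Y) → ℂ) (t : P → Y), D.al j f v t =
      if ∀ i i', D.S (t (f i)) (t (f i')) ∧ ¬ D.sp (t (f i)) ∧ D.jj (t (f i)) = j then
        (j.factorial : ℂ)⁻¹ * ∑ π : Equiv.Perm (Fin j), ((Equiv.Perm.sign π : ℤ) : ℂ) *
          v (fun l => t (vp f hf π l)) else 0 := by
    intro v t
    unfold LN.al
    simp only [extend_eq f hf]
  rw [e1]
  have e2 : eL z z' (D.al j f u) t = ∑ l, if t l = z then D.al j f u (up t l z') else 0 := by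
    unfold eL
    rfl
  rw [e2]
  simp only [eL_comp, e1]
  by_cases hc : ∀ i i', D.S (t (f i)) (t (f i')) ∧ ¬ D.sp (t (f i)) ∧ D.jj (t (f i)) = j
  · rw [if_pos hc]
    have e3 : ∀ l, (if t l = z then if ∀ i i', D.S (up t l z' (f i)) (up t l z' (f i')) ∧
        ¬ D.sp (up t l z' (f i)) ∧ D.jj (up t l z' (f i)) = j then
        (j.factorial : ℂ)⁻¹ * ∑ π : Equiv.Perm (Fin j), ((Equiv.Perm.sign π : ℤ) : ℂ) *
          u (fun m => up t l z' (vp f hf π m)) else 0 else 0) =
        (j.factorial : ℂ)⁻¹ * ∑ π : Equiv.Perm (Fin j), ((Equiv.Perm.sign π : ℤ) : ℂ) *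
          if t l = z then u (fun m => up t l z' (vp f hf π m)) else 0 := by
      intro l
      by_cases hl : t l = z
      · rw [if_pos hl, if_pos ((cond_up D f hS hl).2 hc)]
        simp only [if_pos hl]
      · simp only [if_neg hl, mul_zero, sum_const_zero]
    rw [sum_congr rfl fun l _ => e3 l, ← mul_sum, sum_comm]
    congr 1
    refine sum_congr rfl fun π _ => ?_
    rw [← mul_sum]
  · rw [if_neg hc]
    refine sum_eq_zero fun l _ => ?_
    by_cases hl : t l = z
    · rw [if_pos hl, if_neg fun h => hc ((cond_up D f hS hl).1 h)]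
    · rw [if_neg hl]

theorem al_sub (D : LN Y) {j : ℕ} (f : Fin j → P) (u v : (P → Y) → ℂ) :
    D.al j f (u - v) = D.al j f u - D.al j f v := by
  classical
  funext t
  rw [Pi.sub_apply]
  unfold LN.al
  by_cases hc : ∀ i i', D.S (t (f i)) (t (f i')) ∧ ¬ D.sp (t (f i)) ∧ D.jj (t (f i)) = j
  · rw [if_pos hc, if_pos hc, if_pos hc, ← mul_sub, ← sum_sub_distrib]
    congr 1
    refine sum_congr rfl fun π _ => ?_
    rw [Pi.sub_apply, mul_sub]
  · rw [if_neg hc, if_neg hc, if_neg hc, sub_zero]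

theorem al_smul (D : LN Y) {j : ℕ} (f : Fin j → P) (c : ℂ) (u : (P → Y) → ℂ) :
    D.al j f (c • u) = c • D.al j f u := by
  classical
  funext t
  rw [Pi.smul_apply]
  unfold LN.al
  by_cases hc : ∀ i i', D.S (t (f i)) (t (f i')) ∧ ¬ D.sp (t (f i)) ∧ D.jj (t (f i)) = j
  · rw [if_pos hc, if_pos hc, smul_eq_mul, mul_left_comm]
    congr 1
    rw [mul_sum]
    refine sum_congr rfl fun π _ => ?_
    rw [Pi.smul_apply, smul_eq_mul]
    ring
  · rw [if_neg hc, if_neg hc, smul_zero]

end Cmax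

open Cmax in
/-- **Row CMA.** -/
theorem cma : CMA := by
  intro Y D P _ m f hf y y' hS _ u
  unfold LS.rt
  rw [al_sub, al_smul, al_eL D f hf hS, al_eL D f hf (D.symm _ _ (D.S_bar _ _ hS))]

end Pool.Agent.U2N
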