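import Pool.Agent.Lib.U2N.DETD
import Pool.Agent.Lib.U21.DET

/-!
# Row DET: `dN a k (CC a k u) = al u` (helper26)
-/

set_option autoImplicit false
set_option linter.unusedSectionVars false

open scoped ComplexConjugate
open Complex Pool.Agent.HCM Pool.Agent.U21

namespace Pool.Agent.U2N

open Pool.Agent.U21.Detx (lA_inj lE_inj cj_inj)

namespace Detx

noncomputable section

section comb

variable {N : ℕ}

/-- The sum over the permutations which agree with `σ` outside `p`. -/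
theorem sum_agree (p : Fin N → Prop) [DecidablePred p] (σ : Equiv.Perm (Fin N))
    (F : Equiv.Perm (Fin N) → ℂ) :
    (∑ σ' : Equiv.Perm (Fin N), if ∀ i, ¬ p i → σ' i = σ i then F σ' else 0) =
      ∑ ρ : Equiv.Perm (Subtype p), F (σ * Equiv.Perm.ofSubtype ρ) := by
  rw [← Finset.sum_filter]
  symm
  refine Finset.sum_nbij (fun ρ => σ * Equiv.Perm.ofSubtype ρ) ?_ ?_ ?_ ?_
  · intro ρ _
    rw [Finset.mem_filter]
    refine ⟨Finset.mem_univ _, fun i hi => ?_⟩
    rw [Equiv.Perm.mul_apply, Equiv.Perm.ofSubtype_apply_of_not_mem ρ hi]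
  · intro ρ _ ρ' _ h
    exact Equiv.Perm.ofSubtype_injective (mul_left_cancel h)
  · intro σ' hσ'
    have h1 := (Finset.mem_filter.1 (Finset.mem_coe.1 hσ')).2
    let τ₀ : {f : Equiv.Perm (Fin N) // ∀ a, ¬ p a → f a = a} := ⟨σ⁻¹ * σ', fun i hi => by
      rw [Equiv.Perm.mul_apply, h1 i hi]
      exact σ.symm_apply_apply i⟩
    refine ⟨(Equiv.Perm.subtypeEquivSubtypePerm p).symm τ₀, Finset.mem_coe.2 (Finset.mem_univ _), ?_⟩
    have h2 := congrArg Subtype.val ((Equiv.Perm.subtypeEquivSubtypePerm p).apply_symm_apply τ₀)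
    change σ * ((Equiv.Perm.subtypeEquivSubtypePerm p)
      ((Equiv.Perm.subtypeEquivSubtypePerm p).symm τ₀)).1 = σ'
    rw [h2]
    change σ * (σ⁻¹ * σ') = σ'
    rw [mul_inv_cancel_left]
  · intro ρ _
    rfl

variable {j : ℕ} (hj : j ≤ N)

/-- The first `j` indices. -/
def fe : Fin j ≃ {i : Fin N // (i : ℕ) < j} where
  toFun i := ⟨Fin.castLE hj i, i.2⟩
  invFun i := ⟨i.1, i.2⟩
  left_inv _ := rfl
  right_inv _ := rfl

/-- The permutation of the first `j` indices. -/
def ex (ρ : Equiv.Perm (Fin j)) : Equiv.Perm (Fin N) :=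
  Equiv.Perm.ofSubtype ((fe hj).permCongr ρ)

theorem ex_lt (ρ : Equiv.Perm (Fin j)) (i : Fin j) :
    ex hj ρ (Fin.castLE hj i) = Fin.castLE hj (ρ i) := by
  unfold ex
  rw [Equiv.Perm.ofSubtype_apply_of_mem ((fe hj).permCongr ρ) (a := Fin.castLE hj i) i.2]
  rfl

theorem ex_ge (ρ : Equiv.Perm (Fin j)) (i : Fin N) (h : ¬ (i : ℕ) < j) : ex hj ρ i = i :=
  Equiv.Perm.ofSubtype_apply_of_not_mem ((fe hj).permCongr ρ) h

theorem sign_ex (ρ : Equiv.Perm (Fin j)) :
    Equiv.Perm.sign (ex hj ρ) = Equiv.Perm.sign ρ := by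
  unfold ex
  rw [Equiv.Perm.sign_ofSubtype, Equiv.Perm.sign_permCongr]

theorem sum_ge (σ : Equiv.Perm (Fin N)) (F : Equiv.Perm (Fin N) → ℂ) :
    (∑ σ' : Equiv.Perm (Fin N), if ∀ i : Fin N, ¬ (i : ℕ) < j → σ' i = σ i then F σ' else 0) =
      ∑ ρ : Equiv.Perm (Fin j), F (σ * ex hj ρ) := by
  rw [sum_agree (fun i : Fin N => (i : ℕ) < j), ← Equiv.sum_comp (fe hj).permCongr]
  rfl

/-- The number of permutations with given values at the first `j` indices. -/
theorem sum_lt (x : Fin j → Fin N) (hx : Function.Injective x) (c : ℂ) :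
    (∑ σ : Equiv.Perm (Fin N), if ∀ i : Fin j, σ (Fin.castLE hj i) = x i then c else 0) =
      ((N - j).factorial : ℕ) * c := by
  let e₁ : {i : Fin N // (i : ℕ) < j} ≃ {y : Fin N // y ∈ Set.range x} :=
    (fe hj).symm.trans (Equiv.ofInjective x hx)
  let σ₀ : Equiv.Perm (Fin N) := e₁.extendSubtype
  have h0 : ∀ i : Fin j, σ₀ (Fin.castLE hj i) = x i := by
    intro i
    change e₁.extendSubtype (Fin.castLE hj i) = x i
    rw [Equiv.extendSubtype_apply_of_mem e₁ (Fin.castLE hj i) i.2]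
    rfl
  have h1 : ∀ σ : Equiv.Perm (Fin N), (∀ i : Fin j, σ (Fin.castLE hj i) = x i) ↔
      ∀ i : Fin N, ¬ ¬ (i : ℕ) < j → σ i = σ₀ i := by
    intro σ
    constructor
    · intro h i hi
      have h2 : Fin.castLE hj ⟨i, not_not.1 hi⟩ = i := rfl
      rw [← h2, h, h0]
    · intro h i
      rw [h _ (not_not.2 i.2), h0]
  have h2 : (∑ σ : Equiv.Perm (Fin N), if ∀ i : Fin j, σ (Fin.castLE hj i) = x i then c else 0) =
      ∑ σ : Equiv.Perm (Fin N), if ∀ i : Fin N, ¬ ¬ (i : ℕ) < j → σ i = σ₀ i then c else 0 := by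
    refine Finset.sum_congr rfl fun σ _ => ?_
    by_cases h3 : ∀ i : Fin j, σ (Fin.castLE hj i) = x i
    · rw [if_pos h3, if_pos ((h1 σ).1 h3)]
    · rw [if_neg h3, if_neg fun h4 => h3 ((h1 σ).2 h4)]
  rw [h2, sum_agree (fun i : Fin N => ¬ (i : ℕ) < j) σ₀ fun _ => c, Finset.sum_const,
    Finset.card_univ, Fintype.card_perm, nsmul_eq_mul]
  congr 3
  rw [Fintype.card_subtype_compl, Fintype.card_fin, ← Fintype.card_congr (fe hj),
    Fintype.card_fin]

end comb

variable {κ : Type} {K : κ → Type} [∀ k, Field (K k)] {n : κ → ℕ} {J : κ → Type} {P : Type}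

theorem nx_inj {k : κ} {τ τ' : K k →+* ℂ} {x x' : Fin (n k) → Fin (n k)} :
    (nx k τ x : Fin (n k / 2 + 1) → Lt K n J) = nx k τ' x' ↔
      τ' = τ ∧ ∀ i : Fin (n k), ¬ (i : ℕ) < n k / 2 + 1 → x' i = x i := by
  constructor
  · intro h
    constructor
    · have h1 := congrFun h ⟨n k / 2, by omega⟩
      unfold nx at h1
      have h2 : ¬ n k / 2 + 1 + n k / 2 < n k := by omega
      rw [dif_neg h2, dif_neg h2] at h1
      by_cases h3 : n k / 2 + 1 + n k / 2 = n k
      · rw [if_pos h3, if_pos h3] at h1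
        exact (lE_inj.1 h1).symm
      · rw [if_neg h3, if_neg h3] at h1
        exact (cj_inj (lE_inj.1 h1)).symm
    · intro i hi
      have hi' : (i : ℕ) - (n k / 2 + 1) < n k / 2 + 1 := by
        have := i.2
        omega
      have h1 := congrFun h ⟨(i : ℕ) - (n k / 2 + 1), hi'⟩
      unfold nx at h1
      have h2 : n k / 2 + 1 + ((i : ℕ) - (n k / 2 + 1)) < n k := by
        have := i.2
        omega
      rw [dif_pos h2, dif_pos h2] at h1
      have h3 : (⟨n k / 2 + 1 + ((i : ℕ) - (n k / 2 + 1)), h2⟩ : Fin (n k)) = i :=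
        Fin.ext (by simp only; omega)
      have h4 := (lA_inj.1 h1).1
      rw [h3] at h4
      exact h4.symm
  · rintro ⟨rfl, h⟩
    funext i
    unfold nx
    split_ifs with h1 h2
    · rw [h _ (by simp only; omega)]
    · rfl
    · rfl

variable [∀ k, NumberField (K k)]

theorem sgn_sq {m : ℕ} (σ : Equiv.Perm (Fin m)) :
    ((Equiv.Perm.sign σ : ℤ) : ℂ) * ((Equiv.Perm.sign σ : ℤ) : ℂ) = 1 := by
  rw [← Int.cast_mul, ← Units.val_mul, Int.units_mul_self]
  simp

/-- The value of `CC u` at the new letters. -/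
theorem CC_nw {a : ∀ k, Fin (n k) → K k} (ha : ∀ k g, a k g ≠ 0) {k : κ}
    (hj : n k / 2 + 1 ≤ n k) (u : (Fin (n k / 2 + 1) ⊕ P → Lt K n J) → ℂ) (τ : K k →+* ℂ)
    (σ : Equiv.Perm (Fin (n k))) (r : P → Lt K n J) :
    cf a k τ σ * CC a k u (Sum.elim (nw k τ σ) r) =
      ((cst (n k) : ℕ) : ℂ)⁻¹ * ∑ ρ : Equiv.Perm (Fin (n k / 2 + 1)),
        ((Equiv.Perm.sign ρ : ℤ) : ℂ) *
          u (Sum.elim (fun i => lA k (σ (Fin.castLE hj (ρ i))) τ) r) := by
  classical
  have h1 : CC a k u (Sum.elim (nw k τ σ) r) =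
      ∑ σ' : Equiv.Perm (Fin (n k)), if ∀ i : Fin (n k), ¬ (i : ℕ) < n k / 2 + 1 → σ' i = σ i then
        ((cst (n k) : ℕ) : ℂ)⁻¹ * (((Equiv.Perm.sign σ' : ℤ) : ℂ) *
          (pa a k τ σ' * u (Sum.elim (vx k τ σ') r))) else 0 := by
    unfold CC
    rw [Finset.sum_eq_single τ]
    · refine Finset.sum_congr rfl fun σ' _ => ?_
      have h2 : ((fun i => (Sum.elim (nw k τ σ) r : Fin (n k / 2 + 1) ⊕ P → Lt K n J)
          (Sum.inl i)) = nx k τ σ') ↔
          ∀ i : Fin (n k), ¬ (i : ℕ) < n k / 2 + 1 → σ' i = σ i := by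
        change (nx k τ σ : Fin (n k / 2 + 1) → Lt K n J) = nx k τ σ' ↔ _
        rw [nx_inj]
        exact ⟨fun h => h.2, fun h => ⟨rfl, h⟩⟩
      by_cases h3 : ∀ i : Fin (n k), ¬ (i : ℕ) < n k / 2 + 1 → σ' i = σ i
      · rw [if_pos h3, if_pos (h2.2 h3)]
        rfl
      · rw [if_neg h3, if_neg fun h4 => h3 (h2.1 h4)]
    · intro τ' _ hτ
      refine Finset.sum_eq_zero fun σ' _ => if_neg ?_
      intro h2
      have h3 : (nx k τ σ : Fin (n k / 2 + 1) → Lt K n J) = nx k τ' σ' := h2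
      exact hτ (nx_inj.1 h3).1
    · intro h2
      exact absurd (Finset.mem_univ _) h2
  rw [h1, sum_ge hj, Finset.mul_sum, Finset.mul_sum]
  refine Finset.sum_congr rfl fun ρ _ => ?_
  have h2 : (vx k τ (⇑(σ * ex hj ρ)) : Fin (n k / 2 + 1) → Lt K n J) =
      fun i => lA k (σ (Fin.castLE hj (ρ i))) τ := by
    funext i
    unfold vx
    have h3 : (i : ℕ) < n k := lt_of_lt_of_le i.2 hj
    rw [dif_pos h3]
    have h4 : (σ * ex hj ρ) ⟨i, h3⟩ = σ (Fin.castLE hj (ρ i)) := by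
      rw [Equiv.Perm.mul_apply]
      exact congrArg σ (ex_lt hj ρ i)
    rw [h4]
  have h3 : pa a k τ (⇑(σ * ex hj ρ)) = pa a k τ σ := by
    unfold pa
    refine Finset.prod_congr rfl fun i _ => ?_
    by_cases h4 : (i : ℕ) < n k / 2 + 1
    · rw [if_pos h4, if_pos h4]
    · rw [if_neg h4, if_neg h4, Equiv.Perm.mul_apply, ex_ge hj ρ i h4]
  have h4 : (∏ i : Fin (n k), if (i : ℕ) < n k / 2 + 1 then 1 else τ (a k (σ i))) *
      pa a k τ σ = 1 := by
    unfold pa
    rw [← Finset.prod_mul_distrib]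
    refine Finset.prod_eq_one fun i _ => ?_
    by_cases h5 : (i : ℕ) < n k / 2 + 1
    · rw [if_pos h5, if_pos h5, one_mul]
    · rw [if_neg h5, if_neg h5, mul_inv_cancel₀]
      rw [Ne, map_eq_zero]
      exact ha k _
  have h5 := sgn_sq σ
  rw [h2, h3, Equiv.Perm.sign_mul, sign_ex, Units.val_mul, Int.cast_mul]
  unfold cf
  generalize ((Equiv.Perm.sign σ : ℤ) : ℂ) = A at *
  generalize ((Equiv.Perm.sign ρ : ℤ) : ℂ) = B at *
  generalize (∏ i : Fin (n k), if (i : ℕ) < n k / 2 + 1 then 1 else τ (a k (σ i))) = C at *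
  generalize pa a k τ σ = E at *
  generalize u (Sum.elim (fun i => lA k (σ (Fin.castLE hj (ρ i))) τ) r) = W at *
  linear_combination (((cst (n k) : ℕ) : ℂ)⁻¹ * B * W * C * E) * h5 +
    (((cst (n k) : ℕ) : ℂ)⁻¹ * B * W) * h4

/-- `dN (C u)` at the words with different letters. -/
theorem dN_CC {a : ∀ k, Fin (n k) → K k} (ha : ∀ k g, a k g ≠ 0) {k : κ}
    (hj : n k / 2 + 1 ≤ n k) (u : (Fin (n k / 2 + 1) ⊕ P → Lt K n J) → ℂ)
    (t : Fin (n k / 2 + 1) ⊕ P → Lt K n J) (τ : K k →+* ℂ) (x : Fin (n k / 2 + 1) → Fin (n k))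
    (hx : Function.Injective x) (ht : ∀ i, t (Sum.inl i) = lA k (x i) τ) :
    dN a k (CC a k u) t = ((n k / 2 + 1).factorial : ℂ)⁻¹ *
      ∑ ρ : Equiv.Perm (Fin (n k / 2 + 1)), ((Equiv.Perm.sign ρ : ℤ) : ℂ) *
        u (Sum.elim (fun i => t (Sum.inl (ρ i))) fun p => t (Sum.inr p)) := by
  classical
  set c : ℂ := ((cst (n k) : ℕ) : ℂ)⁻¹ * ∑ ρ : Equiv.Perm (Fin (n k / 2 + 1)),
    ((Equiv.Perm.sign ρ : ℤ) : ℂ) *
      u (Sum.elim (fun i => t (Sum.inl (ρ i))) fun p => t (Sum.inr p)) with hc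
  have h1 : dN a k (CC a k u) t = ∑ σ : Equiv.Perm (Fin (n k)),
      if ∀ i : Fin (n k / 2 + 1), σ (Fin.castLE hj i) = x i then c else 0 := by
    unfold dN
    rw [Finset.sum_eq_single τ]
    · refine Finset.sum_congr rfl fun σ _ => ?_
      have h2 : (∀ (i : Fin (n k / 2 + 1)) (h : (i : ℕ) < n k),
          t (Sum.inl i) = lA k (σ ⟨i, h⟩) τ) ↔ ∀ i : Fin (n k / 2 + 1),
            σ (Fin.castLE hj i) = x i := by
        constructor
        · intro h i
          have h3 := h i (lt_of_lt_of_le i.2 hj)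
          rw [ht] at h3
          exact (lA_inj.1 h3).1.symm
        · intro h i hi
          rw [ht, ← h i]
          rfl
      by_cases h3 : ∀ i : Fin (n k / 2 + 1), σ (Fin.castLE hj i) = x i
      · rw [if_pos h3, if_pos (h2.2 h3), CC_nw ha hj, hc]
        congr 1
        refine Finset.sum_congr rfl fun ρ _ => ?_
        have h4 : (fun i => lA k (σ (Fin.castLE hj (ρ i))) τ : Fin (n k / 2 + 1) → Lt K n J) =
            fun i => t (Sum.inl (ρ i)) := by
          funext i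
          rw [h3, ht]
        rw [h4]
      · rw [if_neg h3, if_neg fun h4 => h3 (h2.1 h4)]
    · intro τ' _ hτ
      refine Finset.sum_eq_zero fun σ _ => if_neg ?_
      intro h2
      have h3 := h2 ⟨0, by omega⟩ (by simp only; omega)
      rw [ht] at h3
      exact hτ (lA_inj.1 h3).2.symm
    · intro h2
      exact absurd (Finset.mem_univ _) h2
  rw [h1, sum_lt hj x hx, hc, ← mul_assoc]
  congr 1
  unfold cst
  push_cast
  have h2 : ((n k / 2 + 1).factorial : ℂ) ≠ 0 := by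
    exact_mod_cast (n k / 2 + 1).factorial_ne_zero
  have h3 : ((n k - (n k / 2 + 1)).factorial : ℂ) ≠ 0 := by
    exact_mod_cast (n k - (n k / 2 + 1)).factorial_ne_zero
  field_simp

end

end Detx

open Detx in
/-- The identity of row DET. -/
theorem deta (κ : Type) [Finite κ] (K : κ → Type) [∀ k, Field (K k)] [∀ k, NumberField (K k)]
    [∀ k, NumberField.IsCMField (K k)] (n : κ → ℕ) (J : κ → Type)
    (Φ : Ty K n J) (a : ∀ k, Fin (n k) → K k) (s : κ → Bool) (D : LN (Lt K n J))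
    (hD : IsDat Φ a s) (hL : IsLN a s D) (P : Type) (k : κ) (hs : s k = false)
    (u : (Fin (n k / 2 + 1) ⊕ P → Lt K n J) → ℂ) (t : Fin (n k / 2 + 1) ⊕ P → Lt K n J) :
    (open Classical in if (t (Sum.inl 0)).1.1 = k then
      D.al (n k / 2 + 1) Sum.inl u t else 0) = dN a k (CC a k u) t := by
  classical
  have hpos := hD.pos k hs
  have hj : n k / 2 + 1 ≤ n k := by omega
  have hS : D.S = Sm s := hL.ls.hS
  have hsp := hL.ls.hsp
  have hext : ∀ π : Equiv.Perm (Fin (n k / 2 + 1)),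
      Function.extend (Sum.inl : Fin (n k / 2 + 1) → Fin (n k / 2 + 1) ⊕ P)
        (fun i => t (Sum.inl (π i))) t =
        Sum.elim (fun i => t (Sum.inl (π i))) fun p => t (Sum.inr p) := by
    intro π
    funext q
    rcases q with i | p
    · rw [Sum.inl_injective.extend_apply]
      rfl
    · rw [Function.extend_apply']
      · rfl
      · rintro ⟨i, hi⟩
        exact Sum.inl_ne_inr hi
  have hlet : ∀ {τ : K k →+* ℂ} {x : Fin (n k / 2 + 1) → Fin (n k)},
      (∀ i, t (Sum.inl i) = lA k (x i) τ) → (t (Sum.inl 0)).1.1 = k ∧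
        ∀ i i', D.S (t (Sum.inl i)) (t (Sum.inl i')) ∧ ¬ D.sp (t (Sum.inl i)) ∧
          D.jj (t (Sum.inl i)) = n k / 2 + 1 := by
    intro τ x ht
    refine ⟨by rw [ht]; rfl, fun i i' => ⟨?_, ?_, ?_⟩⟩
    · rw [hS, ht, ht]
      exact ⟨k, x i, x i', τ, rfl, Or.inl rfl⟩
    · rw [hsp, ht]
      change ¬ s k = true
      rw [hs]
      simp
    · rw [hL.hjj, ht]
      rfl
  by_cases hA : ∃ (τ : K k →+* ℂ) (x : Fin (n k / 2 + 1) → Fin (n k)),
      ∀ i, t (Sum.inl i) = lA k (x i) τ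
  · obtain ⟨τ, x, ht⟩ := hA
    obtain ⟨h1, h2⟩ := hlet ht
    rw [if_pos h1, LN.al, if_pos h2]
    by_cases hx : Function.Injective x
    · rw [dN_CC hD.ne hj u t τ x hx ht]
      congr 1
      exact Finset.sum_congr rfl fun π _ => by rw [hext]
    · have h3 : dN a k (CC a k u) t = 0 := by
        unfold dN
        refine Finset.sum_eq_zero fun τ' _ => Finset.sum_eq_zero fun σ _ => if_neg ?_
        intro h4
        apply hx
        intro i i' hii
        have h5 := h4 i (lt_of_lt_of_le i.2 hj)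
        have h6 := h4 i' (lt_of_lt_of_le i'.2 hj)
        rw [ht] at h5 h6
        have h7 : σ ⟨i, lt_of_lt_of_le i.2 hj⟩ = σ ⟨i', lt_of_lt_of_le i'.2 hj⟩ := by
          rw [← (lA_inj.1 h5).1, ← (lA_inj.1 h6).1, hii]
        have h8 := congrArg Fin.val (σ.injective h7)
        exact Fin.ext h8
      rw [h3]
      unfold Function.Injective at hx
      push Not at hx
      obtain ⟨i₀, i₁, h4, h5⟩ := hx
      have h6 : ∀ π : Equiv.Perm (Fin (n k / 2 + 1)),
          (fun i => t (Sum.inl ((Equiv.swap i₀ i₁ * π) i))) = fun i => t (Sum.inl (π i)) := by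
        intro π
        funext i
        rw [Equiv.Perm.mul_apply, ht, ht]
        congr 1
        by_cases h7 : π i = i₀
        · rw [h7, Equiv.swap_apply_left, h4]
        · by_cases h8 : π i = i₁
          · rw [h8, Equiv.swap_apply_right, h4]
          · rw [Equiv.swap_apply_of_ne_of_ne h7 h8]
      have h7 : (∑ π : Equiv.Perm (Fin (n k / 2 + 1)), ((Equiv.Perm.sign π : ℤ) : ℂ) *
          u (Function.extend Sum.inl (fun i => t (Sum.inl (π i))) t)) =
          - ∑ π : Equiv.Perm (Fin (n k / 2 + 1)), ((Equiv.Perm.sign π : ℤ) : ℂ) *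
          u (Function.extend Sum.inl (fun i => t (Sum.inl (π i))) t) := by
        conv_lhs => rw [← Equiv.sum_comp (Equiv.mulLeft (Equiv.swap i₀ i₁))]
        rw [← Finset.sum_neg_distrib]
        refine Finset.sum_congr rfl fun π _ => ?_
        rw [Equiv.coe_mulLeft, h6 π, Equiv.Perm.sign_mul, Equiv.Perm.sign_swap h5]
        push_cast
        ring
      have h8 : (∑ π : Equiv.Perm (Fin (n k / 2 + 1)), ((Equiv.Perm.sign π : ℤ) : ℂ) *
          u (Function.extend Sum.inl (fun i => t (Sum.inl (π i))) t)) = 0 := by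
        linear_combination h7 / 2
      rw [h8, mul_zero]
  · have h3 : dN a k (CC a k u) t = 0 := by
      unfold dN
      refine Finset.sum_eq_zero fun τ' _ => Finset.sum_eq_zero fun σ _ => if_neg ?_
      intro h4
      exact hA ⟨τ', fun i => σ ⟨i, lt_of_lt_of_le i.2 hj⟩, fun i =>
        h4 i (lt_of_lt_of_le i.2 hj)⟩
    rw [h3]
    by_cases h1 : (t (Sum.inl 0)).1.1 = k
    · rw [if_pos h1, LN.al, if_neg]
      intro h2
      apply hA
      have h4 : ∀ i, ∃ (k' : κ) (g g' : Fin (n k')) (τ : K k' →+* ℂ),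
          t (Sum.inl 0) = lA k' g τ ∧ t (Sum.inl i) = lA k' g' τ := by
        intro i
        have h5 := (h2 0 i).1
        rw [hS] at h5
        obtain ⟨k', g, g', τ, h6, h7 | ⟨h7, -⟩⟩ := h5
        · exact ⟨k', g, g', τ, h6, h7⟩
        · have h8 : (t (Sum.inl 0)).1.1 = k' := by rw [h6]; rfl
          rw [h1] at h8
          subst h8
          rw [hs] at h7
          exact absurd h7 (by simp)
      obtain ⟨k', g, -, τ, h5, -⟩ := h4 0
      have h6 : k = k' := by
        rw [← h1, h5]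
        rfl
      subst h6
      have h7 : ∀ i, ∃ g' : Fin (n k), t (Sum.inl i) = lA k g' τ := by
        intro i
        obtain ⟨k', g₁, g', τ', h8, h9⟩ := h4 i
        have h10 : k = k' := by
          rw [← h1, h8]
          rfl
        subst h10
        rw [h5] at h8
        rw [(lA_inj.1 h8).2]
        exact ⟨g', h9⟩
      choose x hx using h7
      exact ⟨τ, x, hx⟩
    · rw [if_neg h1]

end Pool.Agent.U2N
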