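import Pool.Agent.Lib.U2N.DETm
import Pool.Agent.Lib.U2N.DETa

/-!
# Row DET (helper16, helper26, helper60)
-/

set_option autoImplicit false

open Pool.Agent.HCM Pool.Agent.U21

namespace Pool.Agent.U2N

/-- **Row DET.** -/
theorem det : DET :=
  det_of fun κ _ K _ _ _ n J Φ a s D hdat hD P _ k hs u t =>
    deta κ K n J Φ a s D hdat hD P k hs u t

end Pool.Agent.U2N
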