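import Pool.Agent.Lib.U2N.Rows

/-!
# Row DET: the contraction (helper16)

`CL a k` is the linear map `C` of row DET; `DETa` (helper26) is `dN a k (CL a k u) = al u`.
-/

set_option autoImplicit false
set_option linter.unusedSectionVars false

open scoped ComplexConjugate
open Complex Pool.Agent.HCM Pool.Agent.U21

namespace Pool.Agent.U2N

namespace Detx

noncomputable section

variable {κ : Type} {K : κ → Type} [∀ k, Field (K k)] {n : κ → ℕ} {J : κ → Type} {P : Type}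

/-- The letters `(x i, τ)`, `i < n k / 2 + 1`, of `A k`. -/
def vx (k : κ) (τ : K k →+* ℂ) (x : Fin (n k) → Fin (n k)) (i : Fin (n k / 2 + 1)) : Lt K n J :=
  if h : (i : ℕ) < n k then lA k (x ⟨i, h⟩) τ else lE k τ

/-- The letters `nw` for any map `x`. -/
def nx (k : κ) (τ : K k →+* ℂ) (x : Fin (n k) → Fin (n k)) (i : Fin (n k / 2 + 1)) : Lt K n J :=
  if h : n k / 2 + 1 + i < n k then lA k (x ⟨n k / 2 + 1 + i, h⟩) (cj τ)
  else if n k / 2 + 1 + i = n k then lE k τ else lE k (cj τ)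

theorem nw_eq (k : κ) (τ : K k →+* ℂ) (σ : Equiv.Perm (Fin (n k))) :
    (nw k τ σ : Fin (n k / 2 + 1) → Lt K n J) = nx k τ σ := rfl

/-- The product of the `τ (a k (x i))⁻¹`, `i ≥ n k / 2 + 1`. -/
def pa (a : ∀ k, Fin (n k) → K k) (k : κ) (τ : K k →+* ℂ) (x : Fin (n k) → Fin (n k)) : ℂ :=
  ∏ i : Fin (n k), if (i : ℕ) < n k / 2 + 1 then 1 else (τ (a k (x i)))⁻¹

/-- The number `j! (n - j)!`. -/
def cst (m : ℕ) : ℕ := (m / 2 + 1).factorial * (m - (m / 2 + 1)).factorial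

variable [∀ k, NumberField (K k)]

open Classical in
/-- The contraction. -/
def CC (a : ∀ k, Fin (n k) → K k) (k : κ) (u : (Fin (n k / 2 + 1) ⊕ P → Lt K n J) → ℂ)
    (t : Fin (n k / 2 + 1) ⊕ P → Lt K n J) : ℂ :=
  ∑ τ : K k →+* ℂ, ∑ σ : Equiv.Perm (Fin (n k)),
    if (fun i => t (Sum.inl i)) = nx k τ σ then
      ((cst (n k) : ℕ) : ℂ)⁻¹ * (((Equiv.Perm.sign σ : ℤ) : ℂ) *
        (pa a k τ σ * u (Sum.elim (vx k τ σ) fun p => t (Sum.inr p)))) else 0

/-- The contraction as a linear map. -/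
def CL (a : ∀ k, Fin (n k) → K k) (k : κ) :
    ((Fin (n k / 2 + 1) ⊕ P → Lt K n J) → ℂ) →ₗ[ℂ] ((Fin (n k / 2 + 1) ⊕ P → Lt K n J) → ℂ) where
  toFun := CC a k
  map_add' u v := by
    funext t
    simp only [CC, Pi.add_apply, ← Finset.sum_add_distrib]
    refine Finset.sum_congr rfl fun τ _ => Finset.sum_congr rfl fun σ _ => ?_
    split_ifs
    · ring
    · rw [add_zero]
  map_smul' c u := by
    funext t
    simp only [CC, Pi.smul_apply, smul_eq_mul, RingHom.id_apply, Finset.mul_sum]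
    refine Finset.sum_congr rfl fun τ _ => Finset.sum_congr rfl fun σ _ => ?_
    split_ifs
    · ring
    · rw [mul_zero]

theorem CL_apply (a : ∀ k, Fin (n k) → K k) (k : κ)
    (u : (Fin (n k / 2 + 1) ⊕ P → Lt K n J) → ℂ) : CL a k u = CC a k u := rfl

end

end Detx

end Pool.Agent.U2N
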