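import Pool.Agent.Lib.U2N.DETD
import Pool.Agent.Lib.U21.DET

/-!
# Row DET: the contraction is a morphism (helper16)
-/

set_option autoImplicit false
set_option linter.unusedSectionVars false
set_option linter.unusedSimpArgs false

open scoped ComplexConjugate
open Complex Pool.Agent.HCM Pool.Agent.U21
open Pool.Agent.U21.Detx (up_same up_ne up_self E1 eL_eq lA_inj lE_inj lA_ne_lE cj_cj' cj_inj
  single_self single_ne)

namespace Pool.Agent.U2N

namespace Detx

noncomputable section

/-! ### Sums over low and high places -/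

theorem lo_sum {M : Type} [AddCommMonoid M] {m j : ℕ} (hj : j ≤ m) (g : Fin m → M) :
    ∑ i : Fin j, g (Fin.castLE hj i) = ∑ i : Fin m, if (i : ℕ) < j then g i else 0 := by
  obtain ⟨r, rfl⟩ := Nat.exists_eq_add_of_le hj
  rw [Fin.sum_univ_add]
  have h1 : ∀ i : Fin r, (if ((Fin.natAdd j i : Fin (j + r)) : ℕ) < j then
      g (Fin.natAdd j i) else 0) = 0 := fun i => by
    rw [if_neg]
    simp
  rw [Finset.sum_congr rfl fun i _ => h1 i, Finset.sum_const_zero, add_zero]
  refine Finset.sum_congr rfl fun i _ => ?_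
  rw [if_pos]
  · rfl
  · simp

theorem hi_sum {M : Type} [AddCommMonoid M] {m j : ℕ} (hj : j ≤ m) (h2 : m < 2 * j)
    (g : Fin m → M) (b c : M) :
    (∑ i : Fin j, if h : j + i < m then g ⟨j + i, h⟩ else if j + i = m then b else c) =
      (∑ i : Fin m, if (i : ℕ) < j then 0 else g i) + (b + (2 * j - m - 1) • c) := by
  obtain ⟨r, rfl⟩ := Nat.exists_eq_add_of_le hj
  obtain ⟨s, rfl⟩ : ∃ s, j = r + (s + 1) := ⟨j - r - 1, by omega⟩
  rw [Fin.sum_univ_add (fun i : Fin (r + (s + 1) + r) =>
    if (i : ℕ) < r + (s + 1) then (0 : M) else g i)]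
  have h1 : ∀ i : Fin (r + (s + 1)), (if ((Fin.castAdd r i : Fin (r + (s + 1) + r)) : ℕ) <
      r + (s + 1) then (0 : M) else g (Fin.castAdd r i)) = 0 := fun i => by
    rw [if_pos]
    simp
  have h3 : ∀ i : Fin r, (if ((Fin.natAdd (r + (s + 1)) i : Fin (r + (s + 1) + r)) : ℕ) <
      r + (s + 1) then (0 : M) else g (Fin.natAdd (r + (s + 1)) i)) =
      g (Fin.natAdd (r + (s + 1)) i) := fun i => by
    rw [if_neg]
    simp
  rw [Finset.sum_congr rfl fun i _ => h1 i, Finset.sum_const_zero, zero_add,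
    Finset.sum_congr rfl fun i _ => h3 i, Fin.sum_univ_add]
  congr 1
  · refine Finset.sum_congr rfl fun i _ => ?_
    have h4 : r + (s + 1) + ((Fin.castAdd (s + 1) i : Fin (r + (s + 1))) : ℕ) <
        r + (s + 1) + r := by
      simp
    rw [dif_pos h4]
    rfl
  · rw [Fin.sum_univ_succ]
    have h4 : ¬ (r + (s + 1) + ((Fin.natAdd r (0 : Fin (s + 1)) : Fin (r + (s + 1))) : ℕ) <
        r + (s + 1) + r) := by
      simp
    have h5 : r + (s + 1) + ((Fin.natAdd r (0 : Fin (s + 1)) : Fin (r + (s + 1))) : ℕ) =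
        r + (s + 1) + r := by
      simp
    rw [dif_neg h4, if_pos h5]
    congr 1
    have h6 : ∀ i : Fin s, (if h : r + (s + 1) +
        ((Fin.natAdd r i.succ : Fin (r + (s + 1))) : ℕ) < r + (s + 1) + r then
        g ⟨r + (s + 1) + ((Fin.natAdd r i.succ : Fin (r + (s + 1))) : ℕ), h⟩ else
        if r + (s + 1) + ((Fin.natAdd r i.succ : Fin (r + (s + 1))) : ℕ) =
          r + (s + 1) + r then b else c) = c := fun i => by
      rw [dif_neg, if_neg]
      · simp
      · simp
    rw [Finset.sum_congr rfl fun i _ => h6 i, Finset.sum_const, Finset.card_univ,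
      Fintype.card_fin]
    congr 1
    omega

theorem hi_sum0 {M : Type} [AddCommMonoid M] {m j : ℕ} (hj : j ≤ m) (h2 : m < 2 * j)
    (g : Fin m → M) : (∑ i : Fin j, if h : j + i < m then g ⟨j + i, h⟩ else 0) =
      ∑ i : Fin m, if (i : ℕ) < j then 0 else g i := by
  have h1 := hi_sum hj h2 g 0 0
  simpa using h1

/-! ### The involution -/

theorem star {m : ℕ} {p q : Fin m} (hpq : p ≠ q) (Ψ : (Fin m → Fin m) → ℂ) :
    ∑ σ : Equiv.Perm (Fin m), ((Equiv.Perm.sign σ : ℤ) : ℂ) *
      ∑ i, (if σ i = p then Ψ (Function.update σ i q) else 0) = 0 := by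
  have h1 : ∀ σ : Equiv.Perm (Fin m), (∑ i, if σ i = p then Ψ (Function.update σ i q) else 0) =
      Ψ (Function.update σ (σ.symm p) q) := fun σ => by
    rw [Finset.sum_eq_single (σ.symm p)]
    · rw [if_pos (σ.apply_symm_apply p)]
    · intro i _ hi
      rw [if_neg]
      rintro rfl
      exact hi (σ.symm_apply_apply i).symm
    · intro h
      exact absurd (Finset.mem_univ _) h
  simp only [h1]
  set S := ∑ σ : Equiv.Perm (Fin m), ((Equiv.Perm.sign σ : ℤ) : ℂ) *
    Ψ (Function.update σ (σ.symm p) q) with hS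
  have h2 : S = - S := by
    nth_rewrite 1 [hS]
    rw [← Equiv.sum_comp (Equiv.mulLeft (Equiv.swap p q)), hS, ← Finset.sum_neg_distrib]
    refine Finset.sum_congr rfl fun σ _ => ?_
    have h3 : Function.update (Equiv.mulLeft (Equiv.swap p q) σ : Equiv.Perm (Fin m))
        ((Equiv.mulLeft (Equiv.swap p q) σ : Equiv.Perm (Fin m)).symm p) q =
        Function.update σ (σ.symm p) q := by
      have h4 : (Equiv.mulLeft (Equiv.swap p q) σ : Equiv.Perm (Fin m)).symm p = σ.symm q := by
        rw [Equiv.symm_apply_eq]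
        change p = Equiv.swap p q (σ (σ.symm q))
        rw [Equiv.apply_symm_apply, Equiv.swap_apply_right]
      rw [h4]
      funext i
      have h5 : (Equiv.mulLeft (Equiv.swap p q) σ : Equiv.Perm (Fin m)) i =
        Equiv.swap p q (σ i) := rfl
      by_cases hi : i = σ.symm q
      · subst hi
        rw [Function.update_self, Function.update_of_ne, Equiv.apply_symm_apply]
        intro h6
        exact hpq (σ.symm.injective h6).symm
      · rw [Function.update_of_ne hi, h5]
        by_cases hi' : i = σ.symm p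
        · subst hi'
          rw [Equiv.apply_symm_apply, Equiv.swap_apply_left, Function.update_self]
        · rw [Function.update_of_ne hi', Equiv.swap_apply_of_ne_of_ne]
          · intro h6
            exact hi' (by rw [← h6, Equiv.symm_apply_apply])
          · intro h6
            exact hi (by rw [← h6, Equiv.symm_apply_apply])
    rw [h3]
    have h4 : ((Equiv.Perm.sign (Equiv.mulLeft (Equiv.swap p q) σ : Equiv.Perm (Fin m)) : ℤ) : ℂ) =
        - ((Equiv.Perm.sign σ : ℤ) : ℂ) := by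
      change ((Equiv.Perm.sign (Equiv.swap p q * σ) : ℤ) : ℂ) = _
      rw [Equiv.Perm.sign_mul, Equiv.Perm.sign_swap hpq]
      simp
    rw [h4, neg_mul]
  have h3 : (2 : ℂ) * S = 0 := by linear_combination h2
  exact (mul_eq_zero.1 h3).resolve_left two_ne_zero

/-! ### Words -/

section up

variable {A B Y : Type}

theorem up_inl (v : A → Y) (w : B → Y) (i : A) (y : Y) :
    up (Sum.elim v w) (Sum.inl i) y = Sum.elim (up v i y) w := by
  funext m
  rcases m with m | m
  · by_cases h : m = i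
    · subst h
      rw [up_same, Sum.elim_inl, up_same]
    · rw [up_ne _ _ (fun h' => h (Sum.inl.inj h')), Sum.elim_inl, Sum.elim_inl, up_ne _ _ h]
  · rw [up_ne _ _ (by simp), Sum.elim_inr, Sum.elim_inr]

theorem up_inr (v : A → Y) (w : B → Y) (i : B) (y : Y) :
    up (Sum.elim v w) (Sum.inr i) y = Sum.elim v (up w i y) := by
  funext m
  rcases m with m | m
  · rw [up_ne _ _ (by simp), Sum.elim_inl, Sum.elim_inl]
  · by_cases h : m = i
    · subst h
      rw [up_same, Sum.elim_inr, up_same]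
    · rw [up_ne _ _ (fun h' => h (Sum.inr.inj h')), Sum.elim_inr, Sum.elim_inr, up_ne _ _ h]

theorem up_inl_l (t : A ⊕ B → Y) (i : A) (y : Y) :
    (fun m => up t (Sum.inl i) y (Sum.inl m)) = up (fun m => t (Sum.inl m)) i y := by
  funext m
  by_cases h : m = i
  · subst h
    rw [up_same, up_same]
  · rw [up_ne _ _ (fun h' => h (Sum.inl.inj h')), up_ne _ _ h]

theorem up_inl_r (t : A ⊕ B → Y) (i : A) (y : Y) :
    (fun m => up t (Sum.inl i) y (Sum.inr m)) = fun m => t (Sum.inr m) := by
  funext m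
  rw [up_ne _ _ (by simp)]

theorem up_inr_l (t : A ⊕ B → Y) (i : B) (y : Y) :
    (fun m => up t (Sum.inr i) y (Sum.inl m)) = fun m => t (Sum.inl m) := by
  funext m
  rw [up_ne _ _ (by simp)]

theorem up_inr_r (t : A ⊕ B → Y) (i : B) (y : Y) :
    (fun m => up t (Sum.inr i) y (Sum.inr m)) = up (fun m => t (Sum.inr m)) i y := by
  funext m
  by_cases h : m = i
  · subst h
    rw [up_same, up_same]
  · rw [up_ne _ _ (fun h' => h (Sum.inr.inj h')), up_ne _ _ h]

theorem up_up_same (t : A → Y) (i : A) (y y' : Y) : up (up t i y) i y' = up t i y' := by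
  funext m
  by_cases h : m = i
  · subst h
    rw [up_same, up_same]
  · rw [up_ne _ _ h, up_ne _ _ h, up_ne _ _ h]

theorem up_iff (w v : A → Y) (i : A) (y y' : Y) (hv : v i = y) :
    (w i = y' ∧ up w i y = v) ↔ w = up v i y' := by
  constructor
  · rintro ⟨h1, h2⟩
    rw [← h2, up_up_same, ← h1, up_self]
  · rintro rfl
    rw [up_same, up_up_same, ← hv, up_self]
    exact ⟨rfl, rfl⟩

end up

variable {κ : Type} {K : κ → Type} [∀ k, Field (K k)] {n : κ → ℕ} {J : κ → Type} {P : Type}

theorem vx_lt (k : κ) (τ : K k →+* ℂ) (x : Fin (n k) → Fin (n k)) (hj : n k / 2 + 1 ≤ n k)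
    (i : Fin (n k / 2 + 1)) : (vx k τ x i : Lt K n J) = lA k (x (Fin.castLE hj i)) τ :=
  dif_pos (lt_of_lt_of_le i.2 hj)

theorem vx_lo (k : κ) (τ : K k →+* ℂ) (x : Fin (n k) → Fin (n k)) (hj : n k / 2 + 1 ≤ n k)
    (i : Fin (n k / 2 + 1)) (q : Fin (n k)) :
    (vx k τ (Function.update x (Fin.castLE hj i) q) : Fin (n k / 2 + 1) → Lt K n J) =
      up (vx k τ x) i (lA k q τ) := by
  funext m
  rw [vx_lt k τ _ hj]
  by_cases h : m = i
  · subst h
    rw [Function.update_self, up_same]
  · rw [Function.update_of_ne, up_ne _ _ h, vx_lt k τ _ hj]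
    intro h'
    exact h (Fin.castLE_injective hj h')

theorem vx_hi (k : κ) (τ : K k →+* ℂ) (x : Fin (n k) → Fin (n k)) (hj : n k / 2 + 1 ≤ n k)
    {z : Fin (n k)} (hz : ¬ (z : ℕ) < n k / 2 + 1) (q : Fin (n k)) :
    (vx k τ (Function.update x z q) : Fin (n k / 2 + 1) → Lt K n J) = vx k τ x := by
  funext m
  rw [vx_lt k τ _ hj, vx_lt k τ _ hj, Function.update_of_ne]
  rintro rfl
  exact hz m.2

theorem nx_hi (k : κ) (τ : K k →+* ℂ) (x : Fin (n k) → Fin (n k))
    (i : Fin (n k / 2 + 1)) (h : n k / 2 + 1 + i < n k) (q : Fin (n k)) :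
    (nx k τ (Function.update x ⟨n k / 2 + 1 + i, h⟩ q) : Fin (n k / 2 + 1) → Lt K n J) =
      up (nx k τ x) i (lA k q (cj τ)) := by
  funext m
  by_cases hm : m = i
  · subst hm
    rw [up_same]
    unfold nx
    rw [dif_pos h, Function.update_self]
  · rw [up_ne _ _ hm]
    unfold nx
    by_cases h1 : n k / 2 + 1 + (m : ℕ) < n k
    · rw [dif_pos h1, dif_pos h1, Function.update_of_ne]
      intro h2
      have h3 := congrArg Fin.val h2
      apply hm
      ext
      simpa using h3
    · rw [dif_neg h1, dif_neg h1]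

theorem nx_lo (k : κ) (τ : K k →+* ℂ) (x : Fin (n k) → Fin (n k)) {z : Fin (n k)}
    (hz : (z : ℕ) < n k / 2 + 1) (q : Fin (n k)) :
    (nx k τ (Function.update x z q) : Fin (n k / 2 + 1) → Lt K n J) = nx k τ x := by
  funext m
  unfold nx
  by_cases h1 : n k / 2 + 1 + (m : ℕ) < n k
  · rw [dif_pos h1, dif_pos h1, Function.update_of_ne]
    intro h2
    have h3 := congrArg Fin.val h2
    simp only at h3
    omega
  · rw [dif_neg h1, dif_neg h1]

theorem nx_pos (k : κ) (τ : K k →+* ℂ) (x : Fin (n k) → Fin (n k))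
    (i : Fin (n k / 2 + 1)) (h : n k / 2 + 1 + i < n k) :
    (nx k τ x i : Lt K n J) = lA k (x ⟨n k / 2 + 1 + i, h⟩) (cj τ) := dif_pos h

theorem nx_neg (k : κ) (τ : K k →+* ℂ) (x : Fin (n k) → Fin (n k))
    (i : Fin (n k / 2 + 1)) (h : ¬ n k / 2 + 1 + i < n k) :
    (nx k τ x i : Lt K n J) = if n k / 2 + 1 + i = n k then lE k τ else lE k (cj τ) := dif_neg h

theorem nx_blk (k : κ) (τ : K k →+* ℂ) (x : Fin (n k) → Fin (n k)) (i : Fin (n k / 2 + 1)) :
    (nx k τ x i : Lt K n J).1.1 = k := by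
  unfold nx
  split_ifs <;> rfl

theorem vx_blk (k : κ) (τ : K k →+* ℂ) (x : Fin (n k) → Fin (n k)) (i : Fin (n k / 2 + 1)) :
    (vx k τ x i : Lt K n J).1.1 = k := by
  unfold vx
  split_ifs <;> rfl

/-- `nx k τ x i` is a letter of `A k` only if `i` is a place of `V'`. -/
theorem nx_lA {k : κ} {τ σ : K k →+* ℂ} {x : Fin (n k) → Fin (n k)} {i : Fin (n k / 2 + 1)}
    {p : Fin (n k)} (h : (nx k τ x i : Lt K n J) = lA k p (cj σ)) :
    ∃ h' : n k / 2 + 1 + i < n k, x ⟨n k / 2 + 1 + i, h'⟩ = p ∧ τ = σ := by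
  by_cases h' : n k / 2 + 1 + (i : ℕ) < n k
  · rw [nx_pos k τ x i h'] at h
    obtain ⟨h1, h2⟩ := lA_inj.1 h
    exact ⟨h', h1, cj_inj h2⟩
  · rw [nx_neg k τ x i h'] at h
    split_ifs at h
    · exact absurd h.symm lA_ne_lE
    · exact absurd h.symm lA_ne_lE

theorem pa_lo (a : ∀ k, Fin (n k) → K k) (k : κ) (τ : K k →+* ℂ) (x : Fin (n k) → Fin (n k))
    {z : Fin (n k)} (hz : (z : ℕ) < n k / 2 + 1) (q : Fin (n k)) :
    pa a k τ (Function.update x z q) = pa a k τ x := by
  unfold pa
  refine Finset.prod_congr rfl fun i _ => ?_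
  split_ifs with h
  · rfl
  · rw [Function.update_of_ne]
    rintro rfl
    exact h hz

theorem pa_hi (a : ∀ k, Fin (n k) → K k) (ha : ∀ k g, a k g ≠ 0) (k : κ) (τ : K k →+* ℂ)
    (x : Fin (n k) → Fin (n k)) {z : Fin (n k)} (hz : ¬ (z : ℕ) < n k / 2 + 1)
    (q : Fin (n k)) :
    pa a k τ (Function.update x z q) = τ (a k (x z)) / τ (a k q) * pa a k τ x := by
  unfold pa
  rw [← Finset.mul_prod_erase Finset.univ (fun i : Fin (n k) => if (i : ℕ) < n k / 2 + 1 then (1 : ℂ) else
      (τ (a k (Function.update x z q i)))⁻¹) (Finset.mem_univ z),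
    ← Finset.mul_prod_erase Finset.univ (fun i : Fin (n k) => if (i : ℕ) < n k / 2 + 1 then (1 : ℂ) else
      (τ (a k (x i)))⁻¹) (Finset.mem_univ z), if_neg hz, if_neg hz, Function.update_self]
  have h1 : ∏ i ∈ Finset.univ.erase z, (if (i : ℕ) < n k / 2 + 1 then (1 : ℂ) else
      (τ (a k (Function.update x z q i)))⁻¹) =
      ∏ i ∈ Finset.univ.erase z, if (i : ℕ) < n k / 2 + 1 then (1 : ℂ) else
      (τ (a k (x i)))⁻¹ := by
    refine Finset.prod_congr rfl fun i hi => ?_
    rw [Function.update_of_ne (Finset.ne_of_mem_erase hi)]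
  rw [h1]
  have h2 : τ (a k (x z)) ≠ 0 := (map_ne_zero τ).2 (ha k _)
  have h3 : τ (a k q) ≠ 0 := (map_ne_zero τ).2 (ha k _)
  field_simp

/-! ### Equivariance -/

section lie

variable [∀ k, NumberField (K k)]

theorem E1_inr (a : ∀ k, Fin (n k) → K k) (k : κ) (m : P) (y y' : Lt K n J)
    (u : (Fin (n k / 2 + 1) ⊕ P → Lt K n J) → ℂ) :
    CC a k (E1 (Sum.inr m) y y' u) = E1 (Sum.inr m) y y' (CC a k u) := by
  classical
  funext t
  by_cases h : t (Sum.inr m) = y
  · have h1 : E1 (Sum.inr m) y y' (CC a k u) t = CC a k u (up t (Sum.inr m) y') := if_pos h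
    rw [h1]
    unfold CC
    rw [up_inr_l, up_inr_r]
    refine Finset.sum_congr rfl fun τ _ => Finset.sum_congr rfl fun σ _ => ?_
    have h2 : E1 (Sum.inr m) y y' u (Sum.elim (vx k τ σ) fun p => t (Sum.inr p)) =
        u (Sum.elim (vx k τ σ) (up (fun m => t (Sum.inr m)) m y')) := by
      rw [← up_inr]
      exact if_pos h
    rw [h2]
  · have h1 : E1 (Sum.inr m) y y' (CC a k u) t = 0 := if_neg h
    rw [h1]
    unfold CC
    refine Finset.sum_eq_zero fun τ _ => Finset.sum_eq_zero fun σ _ => ?_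
    have h2 : E1 (Sum.inr m) y y' u (Sum.elim (vx k τ σ) fun p => t (Sum.inr p)) = 0 :=
      if_neg h
    rw [h2]
    simp

/-- The part of `eL` at the first places. -/
def eI {j : ℕ} {Y : Type} (y y' : Y) (u : (Fin j ⊕ P → Y) → ℂ) : (Fin j ⊕ P → Y) → ℂ :=
  ∑ i : Fin j, E1 (Sum.inl i) y y' u

/-- The part of `eL` at the last places. -/
def eP {j : ℕ} {Y : Type} [Fintype P] (y y' : Y) (u : (Fin j ⊕ P → Y) → ℂ) :
    (Fin j ⊕ P → Y) → ℂ :=
  ∑ i : P, E1 (Sum.inr i) y y' u

theorem eL_sum {j : ℕ} {Y : Type} [Fintype P] (y y' : Y) (u : (Fin j ⊕ P → Y) → ℂ) :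
    eL y y' u = eI y y' u + eP y y' u := by
  rw [eL_eq, Fintype.sum_sum_type]
  rfl

theorem CC_eP [Fintype P] (a : ∀ k, Fin (n k) → K k) (k : κ) (y y' : Lt K n J)
    (u : (Fin (n k / 2 + 1) ⊕ P → Lt K n J) → ℂ) :
    CC a k (eP y y' u) = eP y y' (CC a k u) := by
  have h1 := map_sum (CL (J := J) (P := P) a k) (fun i : P => E1 (Sum.inr i) y y' u) Finset.univ
  unfold eP
  refine h1.trans (Finset.sum_congr rfl fun i _ => ?_)
  exact E1_inr a k i y y' u

theorem CC_out (a : ∀ k, Fin (n k) → K k) (k : κ) {y y' : Lt K n J} (hy : y.1.1 ≠ k)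
    (hy' : y'.1.1 ≠ k) (u : (Fin (n k / 2 + 1) ⊕ P → Lt K n J) → ℂ) :
    CC a k (eI y y' u) = 0 ∧ eI y y' (CC a k u) = 0 := by
  classical
  constructor
  · funext t
    unfold CC
    refine Finset.sum_eq_zero fun τ _ => Finset.sum_eq_zero fun σ _ => ?_
    have h2 : eI y y' u (Sum.elim (vx k τ σ) fun p => t (Sum.inr p)) = 0 := by
      unfold eI
      rw [Finset.sum_apply]
      refine Finset.sum_eq_zero fun i _ => if_neg ?_
      intro h3
      apply hy
      rw [← h3]
      exact vx_blk k τ σ i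
    rw [h2]
    simp
  · unfold eI
    refine Finset.sum_eq_zero fun i _ => ?_
    funext t
    unfold E1
    split_ifs with h
    · unfold CC
      refine Finset.sum_eq_zero fun τ _ => Finset.sum_eq_zero fun σ _ => ?_
      rw [if_neg]
      intro h3
      have h4 := congrFun h3 i
      simp only [up_same] at h4
      apply hy'
      rw [h4]
      exact nx_blk k τ σ i
    · rfl

theorem mainL (a : ∀ k, Fin (n k) → K k) (ha : ∀ k g, a k g ≠ 0) {k : κ}
    (hj : n k / 2 + 1 ≤ n k) {p q : Fin (n k)} (hpq : p ≠ q) (s : K k →+* ℂ)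
    (u : (Fin (n k / 2 + 1) ⊕ P → Lt K n J) → ℂ) :
    CC a k (eI (lA k p s) (lA k q s) u) =
      -(s (a k p) / s (a k q)) • eI (lA k q (cj s)) (lA k p (cj s)) (CC a k u) := by
  classical
  funext t
  set w : Fin (n k / 2 + 1) → Lt K n J := fun i => t (Sum.inl i) with hw
  set R : (Fin (n k / 2 + 1) → Lt K n J) → ℂ :=
    fun v => u (Sum.elim v fun p => t (Sum.inr p)) with hR
  set c : ℂ := ((cst (n k) : ℕ) : ℂ)⁻¹ with hc
  let Ψ : (Fin (n k) → Fin (n k)) → ℂ := fun x =>
    if w = nx k s x then pa a k s x * R (vx k s x) else 0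
  have hL : CC a k (eI (lA k p s) (lA k q s) u) t =
      ∑ σ : Equiv.Perm (Fin (n k)), c * (((Equiv.Perm.sign σ : ℤ) : ℂ) *
        ∑ i : Fin (n k), if (i : ℕ) < n k / 2 + 1 then
          (if σ i = p then Ψ (Function.update σ i q) else 0) else 0) := by
    unfold CC
    rw [Finset.sum_eq_single s]
    · refine Finset.sum_congr rfl fun σ _ => ?_
      rw [← lo_sum hj]
      have h1 : eI (lA k p s) (lA k q s) u (Sum.elim (vx k s σ) fun p => t (Sum.inr p)) =
          ∑ i : Fin (n k / 2 + 1), if σ (Fin.castLE hj i) = p then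
            R (vx k s (Function.update σ (Fin.castLE hj i) q)) else 0 := by
        unfold eI
        rw [Finset.sum_apply]
        refine Finset.sum_congr rfl fun i _ => ?_
        unfold E1
        rw [up_inl, vx_lo k s σ hj i q, Sum.elim_inl, vx_lt k s σ hj]
        by_cases h2 : σ (Fin.castLE hj i) = p
        · rw [if_pos h2, if_pos (by rw [h2])]
        · rw [if_neg h2, if_neg]
          intro h3
          exact h2 (lA_inj.1 h3).1
      rw [h1]
      have h2 : ∀ i : Fin (n k / 2 + 1), (if σ (Fin.castLE hj i) = p then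
          Ψ (Function.update σ (Fin.castLE hj i) q) else 0) =
          if w = nx k s σ then pa a k s σ * (if σ (Fin.castLE hj i) = p then
            R (vx k s (Function.update σ (Fin.castLE hj i) q)) else 0) else 0 := fun i => by
        have hi : ((Fin.castLE hj i : Fin (n k)) : ℕ) < n k / 2 + 1 := i.2
        simp only [Ψ]
        rw [nx_lo k s σ hi q, pa_lo a k s σ hi q]
        split_ifs <;> simp
      rw [Finset.sum_congr rfl fun i _ => h2 i]
      split_ifs with h3
      · rw [← Finset.mul_sum]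
      · simp
    · intro τ _ hτ
      refine Finset.sum_eq_zero fun σ _ => ?_
      have h2 : eI (lA k p s) (lA k q s) u (Sum.elim (vx k τ σ) fun p => t (Sum.inr p)) = 0 := by
        unfold eI
        rw [Finset.sum_apply]
        refine Finset.sum_eq_zero fun i _ => if_neg ?_
        rw [Sum.elim_inl, vx_lt k τ σ hj]
        intro h3
        exact hτ (lA_inj.1 h3).2
      rw [h2]
      simp
    · intro h
      exact absurd (Finset.mem_univ _) h
  have hT : ∀ (σ : Equiv.Perm (Fin (n k))) (i : Fin (n k / 2 + 1)),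
      (if w i = lA k q (cj s) ∧ up w i (lA k p (cj s)) = nx k s σ then
        s (a k p) / s (a k q) * (pa a k s σ * R (vx k s σ)) else 0) =
      if h : n k / 2 + 1 + (i : ℕ) < n k then
        (if σ ⟨n k / 2 + 1 + i, h⟩ = p then
          Ψ (Function.update σ ⟨n k / 2 + 1 + i, h⟩ q) else 0) else 0 := by
    intro σ i
    by_cases h : n k / 2 + 1 + (i : ℕ) < n k
    · rw [dif_pos h]
      by_cases h1 : σ ⟨n k / 2 + 1 + i, h⟩ = p
      · rw [if_pos h1]
        simp only [Ψ]
        have hz : ¬ ((⟨n k / 2 + 1 + i, h⟩ : Fin (n k)) : ℕ) < n k / 2 + 1 := by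
          simp only
          omega
        rw [nx_hi k s σ i h q, pa_hi a ha k s σ hz q, vx_hi k s σ hj hz q, h1]
        have h2 : (nx k s σ i : Lt K n J) = lA k p (cj s) := by
          rw [nx_pos k s σ i h, h1]
        have h3 := up_iff w (nx k s σ) i (lA k p (cj s)) (lA k q (cj s)) h2
        by_cases h4 : w = up (nx k s σ) i (lA k q (cj s))
        · rw [if_pos h4, if_pos (h3.2 h4), mul_assoc]
        · rw [if_neg h4, if_neg fun h5 => h4 (h3.1 h5)]
      · rw [if_neg h1, if_neg]
        rintro ⟨-, h2⟩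
        have h3 := congrFun h2 i
        rw [up_same] at h3
        obtain ⟨_, h4, _⟩ := nx_lA h3.symm
        exact h1 h4
    · rw [dif_neg h, if_neg]
      rintro ⟨-, h2⟩
      have h3 := congrFun h2 i
      rw [up_same] at h3
      exact h (Exists.elim (nx_lA h3.symm) fun h' _ => h')
  have hRt : (-(s (a k p) / s (a k q)) • eI (lA k q (cj s)) (lA k p (cj s)) (CC a k u)) t =
      ∑ σ : Equiv.Perm (Fin (n k)), c * (((Equiv.Perm.sign σ : ℤ) : ℂ) *
        (- ∑ i : Fin (n k), if (i : ℕ) < n k / 2 + 1 then 0 else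
          (if σ i = p then Ψ (Function.update σ i q) else 0))) := by
    have h0 : ∀ i : Fin (n k / 2 + 1), E1 (Sum.inl i) (lA k q (cj s)) (lA k p (cj s))
        (CC a k u) t = ∑ σ : Equiv.Perm (Fin (n k)),
          if w i = lA k q (cj s) ∧ up w i (lA k p (cj s)) = nx k s σ then
            c * (((Equiv.Perm.sign σ : ℤ) : ℂ) * (pa a k s σ * R (vx k s σ))) else 0 := by
      intro i
      unfold E1
      by_cases h1 : t (Sum.inl i) = lA k q (cj s)
      · rw [if_pos h1]
        unfold CC
        rw [up_inl_l, up_inl_r, Finset.sum_eq_single s]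
        · refine Finset.sum_congr rfl fun σ _ => ?_
          by_cases h2 : up w i (lA k p (cj s)) = nx k s σ
          · rw [if_pos h2, if_pos ⟨h1, h2⟩]
          · rw [if_neg h2, if_neg fun h3 => h2 h3.2]
        · intro τ _ hτ
          refine Finset.sum_eq_zero fun σ _ => if_neg ?_
          intro h2
          have h3 := congrFun h2 i
          rw [up_same] at h3
          obtain ⟨-, -, h4⟩ := nx_lA h3.symm
          exact hτ h4
        · intro h
          exact absurd (Finset.mem_univ _) h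
      · rw [if_neg h1]
        symm
        refine Finset.sum_eq_zero fun σ _ => if_neg ?_
        rintro ⟨h2, -⟩
        exact h1 h2
    rw [Pi.smul_apply, smul_eq_mul]
    unfold eI
    rw [Finset.sum_apply, Finset.sum_congr rfl fun i _ => h0 i, Finset.sum_comm, Finset.mul_sum]
    refine Finset.sum_congr rfl fun σ _ => ?_
    rw [← hi_sum0 hj (by omega)]
    rw [← Finset.sum_congr rfl fun i _ => hT σ i, ← Finset.sum_neg_distrib, Finset.mul_sum,
      Finset.mul_sum, Finset.mul_sum]
    refine Finset.sum_congr rfl fun i _ => ?_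
    split_ifs
    · ring
    · simp
  rw [hL, hRt, ← sub_eq_zero, ← Finset.sum_sub_distrib]
  have h1 := star hpq Ψ
  have h2 : ∀ σ : Equiv.Perm (Fin (n k)), c * (((Equiv.Perm.sign σ : ℤ) : ℂ) *
      ∑ i : Fin (n k), if (i : ℕ) < n k / 2 + 1 then
        (if σ i = p then Ψ (Function.update σ i q) else 0) else 0) -
      c * (((Equiv.Perm.sign σ : ℤ) : ℂ) *
        (- ∑ i : Fin (n k), if (i : ℕ) < n k / 2 + 1 then 0 else
          (if σ i = p then Ψ (Function.update σ i q) else 0))) =
      c * (((Equiv.Perm.sign σ : ℤ) : ℂ) *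
        ∑ i, (if σ i = p then Ψ (Function.update σ i q) else 0)) := fun σ => by
    have h3 : ∑ i, (if σ i = p then Ψ (Function.update σ i q) else 0) =
        (∑ i : Fin (n k), if (i : ℕ) < n k / 2 + 1 then
          (if σ i = p then Ψ (Function.update σ i q) else 0) else 0) +
        ∑ i : Fin (n k), if (i : ℕ) < n k / 2 + 1 then 0 else
          (if σ i = p then Ψ (Function.update σ i q) else 0) := by
      rw [← Finset.sum_add_distrib]
      refine Finset.sum_congr rfl fun i _ => ?_
      split_ifs <;> simp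
    rw [h3]
    ring
  rw [Finset.sum_congr rfl fun σ _ => h2 σ, ← Finset.mul_sum, h1, mul_zero]

theorem lie [Fintype P] {a : ∀ k, Fin (n k) → K k} {s : κ → Bool} {Φ : Ty K n J}
    (hdat : IsDat Φ a s) {k : κ} (hs : s k = false)
    (y y' : Lt K n J) (hS : Sm s y y') (hne : y ≠ y')
    (u : (Fin (n k / 2 + 1) ⊕ P → Lt K n J) → ℂ) :
    CC a k (root a y y' u) = root a y y' (CC a k u) := by
  classical
  have hj : n k / 2 + 1 ≤ n k := by
    have := hdat.pos k hs
    omega
  obtain ⟨k', p, q, σ, h1, h2⟩ := hS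
  have h3 : CC a k (root a y y' u) = CC a k (eI y y' u) + eP y y' (CC a k u) -
      (wt a y / wt a y') • (CC a k (eI (bar y') (bar y) u) +
        eP (bar y') (bar y) (CC a k u)) := by
    unfold root
    have h4 := map_sub (CL (J := J) (P := P) a k) (eL y y' u)
      ((wt a y / wt a y') • eL (bar y') (bar y) u)
    rw [map_smul] at h4
    refine h4.trans ?_
    rw [eL_sum, eL_sum, map_add, map_add]
    simp only [CL_apply, CC_eP]
  rw [h3]
  unfold root
  rw [eL_sum, eL_sum]
  by_cases hk : k' = k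
  · subst hk
    rcases h2 with h2 | ⟨h2, -⟩
    · subst h1 h2
      have hpq : p ≠ q := fun h => hne (by rw [h])
      have e1 : bar (lA k' p σ : Lt K n J) = lA k' p (cj σ) := rfl
      have e2 : bar (lA k' q σ : Lt K n J) = lA k' q (cj σ) := rfl
      have e3 : wt a (lA k' p σ : Lt K n J) = σ (a k' p) := rfl
      have e4 : wt a (lA k' q σ : Lt K n J) = σ (a k' q) := rfl
      rw [e1, e2, e3, e4, mainL a hdat.ne hj hpq σ u,
        mainL a hdat.ne hj (Ne.symm hpq) (cj σ) u, cj_cj']
      have h5 : ∀ g, cj σ (a k' g) = σ (a k' g) := fun g => by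
        have := hdat.sgn k' g σ
        rw [hs] at this
        simpa using this
      rw [h5, h5]
      have hap : σ (a k' p) ≠ 0 := (map_ne_zero σ).2 (hdat.ne k' p)
      have haq : σ (a k' q) ≠ 0 := (map_ne_zero σ).2 (hdat.ne k' q)
      have h6 : (σ (a k' p) / σ (a k' q)) * (σ (a k' q) / σ (a k' p)) = 1 := by
        field_simp
      funext t
      simp only [Pi.sub_apply, Pi.add_apply, Pi.smul_apply, smul_eq_mul, Pi.neg_apply, neg_mul]
      have h7 : (σ (a k' p) / σ (a k' q)) * ((σ (a k' q) / σ (a k' p)) *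
          eI (lA k' p σ) (lA k' q σ) (CC a k' u) t) =
          eI (lA k' p σ) (lA k' q σ) (CC a k' u) t := by
        rw [← mul_assoc, h6, one_mul]
      linear_combination h7
    · rw [hs] at h2
      exact absurd h2 (by simp)
  · have hk1 : y.1.1 ≠ k := by
      rw [h1]
      exact hk
    have hk2 : y'.1.1 ≠ k := by
      rcases h2 with h2 | ⟨-, h2⟩ <;> rw [h2] <;> exact hk
    have h4 := CC_out (P := P) a k hk1 hk2 u
    have h5 := CC_out (P := P) (y := bar y') (y' := bar y) a k hk2 hk1 u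
    rw [h4.1, h4.2, h5.1, h5.2]

end lie

end

end Detx

end Pool.Agent.U2N
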