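import Pool.Agent.Lib.U2N.DETb

/-!
# Row DET: types (helper16)
-/

set_option autoImplicit false
set_option linter.unusedSectionVars false
set_option linter.unusedSimpArgs false

open scoped ComplexConjugate
open Complex Pool.Agent.HCM Pool.Agent.U21
open Pool.Agent.U21.Detx (up_same up_ne up_self E1 eL_eq lA_inj lE_inj lA_ne_lE cj_cj' cj_inj
  single_self single_ne)

namespace Pool.Agent.U2N

namespace Detx

noncomputable section

theorem ncard_sum {Q : Type} [Fintype Q] (p : Q → Prop) [DecidablePred p] :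
    {q | p q}.ncard = ∑ q, if p q then 1 else 0 := by
  have h1 : {q | p q} = ((Finset.univ.filter p : Finset Q) : Set Q) := by
    ext m
    simp
  rw [h1, Set.ncard_coe_finset, Finset.card_filter]

variable {κ : Type} {K : κ → Type} [∀ k, Field (K k)] {n : κ → ℕ} {J : κ → Type} {P : Type}

theorem nT_add_nF [Fintype P] (Φ : Ty K n J) (t : P → Lt K n J) :
    nT Φ t + nF Φ t = Fintype.card P := by
  classical
  unfold nT nF
  rw [ncard_sum fun i => (t i).2 ∈ Φ (t i).1, ncard_sum fun i => (t i).2 ∉ Φ (t i).1,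
    ← Finset.sum_add_distrib]
  have h1 : ∀ i, ((if (t i).2 ∈ Φ (t i).1 then 1 else 0) +
      if (t i).2 ∉ Φ (t i).1 then 1 else 0) = 1 := fun i => by
    by_cases h : (t i).2 ∈ Φ (t i).1
    · rw [if_pos h, if_neg (not_not.2 h)]
    · rw [if_neg h, if_pos h]
  rw [Finset.sum_congr rfl fun i _ => h1 i]
  simp

theorem types [Fintype P] {a : ∀ k, Fin (n k) → K k} {s : κ → Bool} {Φ : Ty K n J}
    (hdat : IsDat Φ a s) {k : κ} (hs : s k = false) {t : Fin (n k / 2 + 1) ⊕ P → Lt K n J}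
    {σ : Equiv.Perm (Fin (n k))} {τ : K k →+* ℂ} (ht : (fun i => t (Sum.inl i)) = nx k τ σ) :
    nT Φ (Sum.elim (vx k τ σ) fun p => t (Sum.inr p)) = nT Φ t ∧
      nF Φ (Sum.elim (vx k τ σ) fun p => t (Sum.inr p)) = nF Φ t ∧
      nA t + 1 ≤ nA (Sum.elim (vx k τ σ) fun p => t (Sum.inr p)) := by
  classical
  have hj : n k / 2 + 1 ≤ n k := by
    have := hdat.pos k hs
    omega
  have hj2 : n k < 2 * (n k / 2 + 1) := by omega
  have hti : ∀ i, t (Sum.inl i) = nx k τ σ i := fun i => congrFun ht i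
  have hone : (∑ i : Fin (n k), if (i : ℕ) < n k / 2 + 1 then 0 else 1) =
      n k - (n k / 2 + 1) := by
    have h1 := lo_sum hj fun _ => (1 : ℕ)
    have h2 : ∑ i : Fin (n k), (1 : ℕ) = (∑ i : Fin (n k),
        if (i : ℕ) < n k / 2 + 1 then 1 else 0) +
        ∑ i : Fin (n k), if (i : ℕ) < n k / 2 + 1 then 0 else 1 := by
      rw [← Finset.sum_add_distrib]
      refine Finset.sum_congr rfl fun i _ => ?_
      split_ifs <;> rfl
    simp only [Finset.sum_const, Finset.card_univ, Fintype.card_fin, smul_eq_mul, mul_one]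
      at h1 h2
    omega
  have hT : nT Φ (Sum.elim (vx k τ σ) fun p => t (Sum.inr p)) = nT Φ t := by
    unfold nT
    rw [ncard_sum fun i => ((Sum.elim (vx k τ σ) fun p => t (Sum.inr p)) i : Lt K n J).2 ∈
        Φ ((Sum.elim (vx k τ σ) fun p => t (Sum.inr p)) i : Lt K n J).1,
      ncard_sum fun i => (t i).2 ∈ Φ (t i).1, Fintype.sum_sum_type, Fintype.sum_sum_type]
    congr 1
    let g : Fin (n k) → ℕ := fun z => if τ ∈ Φ ⟨k, Sum.inl z⟩ then 1 else 0
    let g' : Fin (n k) → ℕ := fun z => if τ ∈ Φ ⟨k, Sum.inl z⟩ then 0 else 1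
    have hA : (∑ i : Fin (n k / 2 + 1),
        if ((Sum.elim (vx k τ σ) fun p => t (Sum.inr p)) (Sum.inl i) : Lt K n J).2 ∈
          Φ ((Sum.elim (vx k τ σ) fun p => t (Sum.inr p)) (Sum.inl i) : Lt K n J).1
          then 1 else 0) = ∑ i : Fin (n k), if (i : ℕ) < n k / 2 + 1 then g (σ i) else 0 := by
      rw [← lo_sum hj fun i => g (σ i)]
      refine Finset.sum_congr rfl fun i _ => ?_
      rw [Sum.elim_inl, vx_lt k τ σ hj]
      rfl
    have hB : (∑ i : Fin (n k / 2 + 1), if (t (Sum.inl i)).2 ∈ Φ (t (Sum.inl i)).1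
        then 1 else 0) = (∑ i : Fin (n k), if (i : ℕ) < n k / 2 + 1 then 0 else g' (σ i)) +
        ((if τ ∈ Φ ⟨k, Sum.inr none⟩ then 1 else 0) + (2 * (n k / 2 + 1) - n k - 1) •
          (if τ ∈ Φ ⟨k, Sum.inr none⟩ then 0 else 1)) := by
      rw [← hi_sum hj hj2 (fun i => g' (σ i)) (if τ ∈ Φ ⟨k, Sum.inr none⟩ then 1 else 0)
        (if τ ∈ Φ ⟨k, Sum.inr none⟩ then 0 else 1)]
      refine Finset.sum_congr rfl fun i _ => ?_
      rw [hti i]
      by_cases h1 : n k / 2 + 1 + (i : ℕ) < n k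
      · rw [dif_pos h1, nx_pos k τ σ i h1]
        have h2 : ((lA k (σ ⟨n k / 2 + 1 + i, h1⟩) (cj τ) : Lt K n J).2 ∈
            Φ (lA k (σ ⟨n k / 2 + 1 + i, h1⟩) (cj τ) : Lt K n J).1) ↔
            ¬ τ ∈ Φ ⟨k, Sum.inl (σ ⟨n k / 2 + 1 + i, h1⟩)⟩ :=
          hdat.cm ⟨k, Sum.inl (σ ⟨n k / 2 + 1 + i, h1⟩)⟩ τ
        simp only [g']
        by_cases h3 : τ ∈ Φ ⟨k, Sum.inl (σ ⟨n k / 2 + 1 + i, h1⟩)⟩
        · rw [if_neg fun h4 => h2.1 h4 h3, if_pos h3]
        · rw [if_pos (h2.2 h3), if_neg h3]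
      · rw [dif_neg h1, nx_neg k τ σ i h1]
        by_cases h2 : n k / 2 + 1 + (i : ℕ) = n k
        · rw [if_pos h2, if_pos h2]
          rfl
        · rw [if_neg h2, if_neg h2]
          have h3 : ((lE k (cj τ) : Lt K n J).2 ∈ Φ (lE k (cj τ) : Lt K n J).1) ↔
            ¬ τ ∈ Φ ⟨k, Sum.inr none⟩ := hdat.cm ⟨k, Sum.inr none⟩ τ
          by_cases h4 : τ ∈ Φ ⟨k, Sum.inr none⟩
          · rw [if_neg fun h5 => h3.1 h5 h4, if_pos h4]
          · rw [if_pos (h3.2 h4), if_neg h4]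
    have hS : sig Φ k τ = (∑ i : Fin (n k), if (i : ℕ) < n k / 2 + 1 then g (σ i) else 0) +
        ∑ i : Fin (n k), if (i : ℕ) < n k / 2 + 1 then 0 else g (σ i) := by
      unfold sig
      rw [ncard_sum fun z => τ ∈ Φ ⟨k, Sum.inl z⟩, ← Finset.sum_add_distrib,
        ← Equiv.sum_comp σ]
      refine Finset.sum_congr rfl fun i _ => ?_
      simp only [g]
      by_cases h : (i : ℕ) < n k / 2 + 1
      · rw [if_pos h, if_pos h, add_zero]
      · rw [if_neg h, if_neg h, zero_add]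
    have hH : (∑ i : Fin (n k), if (i : ℕ) < n k / 2 + 1 then 0 else g (σ i)) +
        (∑ i : Fin (n k), if (i : ℕ) < n k / 2 + 1 then 0 else g' (σ i)) =
        n k - (n k / 2 + 1) := by
      rw [← hone, ← Finset.sum_add_distrib]
      refine Finset.sum_congr rfl fun i _ => ?_
      simp only [g, g']
      split_ifs <;> rfl
    rw [hA, hB]
    rcases hdat.blk k hs τ with h1 | ⟨h1, h2⟩ | ⟨h1, h2⟩
    · have h3 : 2 * (n k / 2 + 1) - n k - 1 = 1 := by omega
      rw [h3, one_smul]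
      have h4 : ((if τ ∈ Φ ⟨k, Sum.inr none⟩ then 1 else 0) +
        (if τ ∈ Φ ⟨k, Sum.inr none⟩ then 0 else 1)) = 1 := by
        split_ifs <;> rfl
      rw [h4]
      omega
    · have h3 : 2 * (n k / 2 + 1) - n k - 1 = 0 := by omega
      rw [h3, zero_smul, if_pos h2]
      omega
    · have h3 : 2 * (n k / 2 + 1) - n k - 1 = 0 := by omega
      rw [h3, zero_smul, if_neg h2]
      omega
  refine ⟨hT, ?_, ?_⟩
  · have h1 := nT_add_nF Φ (Sum.elim (vx k τ σ) fun p => t (Sum.inr p))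
    have h2 := nT_add_nF Φ t
    omega
  · unfold nA
    rw [ncard_sum fun i => ¬ isB ((Sum.elim (vx k τ σ) fun p => t (Sum.inr p)) i : Lt K n J),
      ncard_sum fun i => ¬ isB (t i), Fintype.sum_sum_type, Fintype.sum_sum_type]
    have b1 : ∀ (g : Fin (n k)) (τ : K k →+* ℂ), ¬ isB (lA k g τ : Lt K n J) := fun g τ => by
      simp [isB, lA]
    have hA : (∑ i : Fin (n k / 2 + 1),
        if ¬ isB ((Sum.elim (vx k τ σ) fun p => t (Sum.inr p)) (Sum.inl i) : Lt K n J)
          then 1 else 0) = n k / 2 + 1 := by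
      have h1 : ∀ i : Fin (n k / 2 + 1),
          (if ¬ isB ((Sum.elim (vx k τ σ) fun p => t (Sum.inr p)) (Sum.inl i) : Lt K n J)
          then 1 else 0) = 1 := fun i => by
        rw [Sum.elim_inl, vx_lt k τ σ hj, if_pos (b1 _ _)]
      rw [Finset.sum_congr rfl fun i _ => h1 i]
      simp
    have hB : (∑ i : Fin (n k / 2 + 1), if ¬ isB (t (Sum.inl i)) then 1 else 0) =
        n k - (n k / 2 + 1) := by
      rw [← hone]
      have h1 := hi_sum hj hj2 (fun _ => (1 : ℕ)) 0 0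
      rw [smul_zero, add_zero, add_zero] at h1
      rw [← h1]
      refine Finset.sum_congr rfl fun i _ => ?_
      rw [hti i]
      by_cases h2 : n k / 2 + 1 + (i : ℕ) < n k
      · rw [dif_pos h2, nx_pos k τ σ i h2, if_pos (b1 _ _)]
      · rw [dif_neg h2, nx_neg k τ σ i h2, ite_self, if_neg]
        rw [not_not]
        split_ifs <;> rfl
    rw [hA, hB]
    have h3 : (∑ p : P, if ¬ isB ((Sum.elim (vx k τ σ) fun p => t (Sum.inr p)) (Sum.inr p) :
        Lt K n J) then 1 else 0) = ∑ p : P, if ¬ isB (t (Sum.inr p)) then 1 else 0 := rfl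
    rw [h3]
    omega

variable [∀ k, NumberField (K k)]

theorem supp [Fintype P] {a : ∀ k, Fin (n k) → K k} {s : κ → Bool} {Φ : Ty K n J}
    (hdat : IsDat Φ a s) {k : κ} (hs : s k = false)
    (u : (Fin (n k / 2 + 1) ⊕ P → Lt K n J) → ℂ) (t' : Fin (n k / 2 + 1) ⊕ P → Lt K n J)
    (ht : CC a k u t' ≠ 0) : ∃ t, u t ≠ 0 ∧ nT Φ t = nT Φ t' + 0 ∧ nF Φ t = nF Φ t' + 0 ∧
      nA t' + 1 ≤ nA t := by
  classical
  unfold CC at ht
  obtain ⟨τ, -, h1⟩ := Finset.exists_ne_zero_of_sum_ne_zero ht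
  obtain ⟨σ, -, h2⟩ := Finset.exists_ne_zero_of_sum_ne_zero h1
  by_cases h3 : (fun i => t' (Sum.inl i)) = nx k τ σ
  · rw [if_pos h3] at h2
    obtain ⟨c1, c2, c3⟩ := types hdat hs h3
    exact ⟨_, right_ne_zero_of_mul (right_ne_zero_of_mul (right_ne_zero_of_mul h2)), c1, c2, c3⟩
  · rw [if_neg h3] at h2
    exact absurd rfl h2

theorem graded [Fintype P] {a : ∀ k, Fin (n k) → K k} {s : κ → Bool} {Φ : Ty K n J}
    (hdat : IsDat Φ a s) {k : κ} (hs : s k = false)
    (u : (Fin (n k / 2 + 1) ⊕ P → Lt K n J) → ℂ) (p : ℕ) :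
    CC a k (part Φ (p + 0) u) = part Φ p (CC a k u) := by
  classical
  funext t
  unfold part CC
  split_ifs with h
  · refine Finset.sum_congr rfl fun τ _ => Finset.sum_congr rfl fun σ _ => ?_
    by_cases h3 : (fun i => t (Sum.inl i)) = nx k τ σ
    · rw [if_pos h3, if_pos h3]
      beta_reduce
      rw [if_pos]
      rw [(types hdat hs h3).1, h, add_zero]
    · rw [if_neg h3, if_neg h3]
  · refine Finset.sum_eq_zero fun τ _ => Finset.sum_eq_zero fun σ _ => ?_
    by_cases h3 : (fun i => t (Sum.inl i)) = nx k τ σ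
    · rw [if_pos h3]
      beta_reduce
      rw [if_neg]
      · simp
      · rw [(types hdat hs h3).1, add_zero]
        exact h
    · rw [if_neg h3]

end

end Detx

end Pool.Agent.U2N
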