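import Pool.Agent.Lib.U2N.DETr
import Pool.Agent.Lib.U2N.DETt

/-!
# Row DET: assembly (helper16)
-/

set_option autoImplicit false

open Pool.Agent.HCM Pool.Agent.U21

namespace Pool.Agent.U2N

namespace Detx

/-- The identity of row DET for the contraction `CC`. -/
def DETA : Prop :=
  ∀ (κ : Type) [Finite κ] (K : κ → Type) [∀ k, Field (K k)] [∀ k, NumberField (K k)]
    [∀ k, NumberField.IsCMField (K k)] (n : κ → ℕ) (J : κ → Type)
    (Φ : Ty K n J) (a : ∀ k, Fin (n k) → K k) (s : κ → Bool) (D : LN (Lt K n J)),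
    IsDat Φ a s → IsLN a s D → ∀ (P : Type) [Fintype P] (k : κ), s k = false →
      ∀ (u : (Fin (n k / 2 + 1) ⊕ P → Lt K n J) → ℂ) (t : Fin (n k / 2 + 1) ⊕ P → Lt K n J),
        (open Classical in if (t (Sum.inl 0)).1.1 = k then
          D.al (n k / 2 + 1) Sum.inl u t else 0) = dN a k (CC a k u) t

theorem mor {κ : Type} [Finite κ] {K : κ → Type} [∀ k, Field (K k)] [∀ k, NumberField (K k)]
    [∀ k, NumberField.IsCMField (K k)] {n : κ → ℕ} {J : κ → Type} {Φ : Ty K n J}
    {a : ∀ k, Fin (n k) → K k} {s : κ → Bool} (hdat : IsDat Φ a s) {P : Type} [Fintype P]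
    {k : κ} (hs : s k = false) : IsMor Φ a s 0 1 (CL (J := J) (P := P) a k) :=
  ⟨fun u hu => rat a (hdat.pos k hs) u hu, fun y y' hS hne u => lie hdat hs y y' hS hne u,
    fun u t' ht => supp hdat hs u t' ht, fun u p => graded hdat hs u p⟩

end Detx

open Detx in
/-- Row DET from the identity. -/
theorem det_of (h : DETA) : DET := by
  intro κ _ K _ _ _ n J Φ a s D hdat hD P _ k hs
  exact ⟨CL a k, mor hdat hs, fun u t => h κ K n J Φ a s D hdat hD P k hs u t⟩

end Pool.Agent.U2N
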