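import Pool.Agent.Lib.U2N.Rows
import Pool.Agent.Lib.U21.RTO

/-!
# U2N: row RTA (helper60)

The antisymmetrisers `al` are rational: the multiplications with the indicators of the conditions
on the letters preserve the rational tensors, and so do the permutations of the places.
-/

set_option autoImplicit false

open scoped ComplexConjugate
open Complex Pool.Agent.HCM Pool.Agent.U21 Pool.Agent.U21.Rtox

namespace Pool.Agent.U2N.Rtax

noncomputable section

variable {κ : Type} {K : κ → Type} [∀ k, Field (K k)] {n : κ → ℕ} {J : κ → Type}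
  {P : Type} [Fintype P]

open Classical in
/-- the multiplication with the indicator of `C` -/
def ind (C : (P → Lt K n J) → Prop) (u : (P → Lt K n J) → ℂ) (t : P → Lt K n J) : ℂ :=
  if C t then u t else 0

/-- the multiplication with the indicator of `C` preserves the rational tensors -/
def Good (C : (P → Lt K n J) → Prop) : Prop := ∀ u ∈ TQ K n J P, ind C u ∈ TQ K n J P

theorem good_of_pure (C : (P → Lt K n J) → Prop)
    (h : ∀ x : P → Lp K n J, ind C (fun t => ∏ l, lp (x l) (t l)) ∈ TQ K n J P) : Good C := by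
  classical
  intro u hu
  refine Submodule.span_induction (p := fun u _ => ind C u ∈ TQ K n J P) ?_ ?_ ?_ ?_ hu
  · rintro _ ⟨x, rfl⟩
    exact h x
  · have h0 : ind C (0 : (P → Lt K n J) → ℂ) = 0 := by
      funext t
      simp only [ind, Pi.zero_apply, ite_self]
    rw [h0]
    exact Submodule.zero_mem _
  · intro u v _ _ h1 h2
    have h0 : ind C (u + v) = ind C u + ind C v := by
      funext t
      simp only [ind, Pi.add_apply]
      split_ifs
      · rfl
      · rw [add_zero]
    rw [h0]
    exact Submodule.add_mem _ h1 h2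
  · intro q u _ h1
    have h0 : ind C (q • u) = q • ind C u := by
      funext t
      simp only [ind, Pi.smul_apply]
      split_ifs
      · rfl
      · rw [smul_zero]
    rw [h0]
    exact Submodule.smul_mem _ q h1

theorem good_and {C C' : (P → Lt K n J) → Prop} (h : Good C) (h' : Good C') :
    Good fun t => C t ∧ C' t := by
  classical
  intro u hu
  have h0 : ind (fun t => C t ∧ C' t) u = ind C (ind C' u) := by
    funext t
    simp only [ind]
    by_cases h1 : C t
    · by_cases h2 : C' t
      · rw [if_pos ⟨h1, h2⟩, if_pos h1, if_pos h2]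
      · rw [if_neg (fun h3 => h2 h3.2), if_pos h1, if_neg h2]
    · rw [if_neg (fun h3 => h1 h3.1), if_neg h1]
  rw [h0]
  exact h _ (h' u hu)

theorem good_all {A : Type} (s : Finset A) (C : A → (P → Lt K n J) → Prop)
    (h : ∀ q ∈ s, Good (C q)) : Good fun t => ∀ q ∈ s, C q t := by
  classical
  induction s using Finset.induction_on with
  | empty =>
    intro u hu
    have h0 : ind (fun t => ∀ q ∈ (∅ : Finset A), C q t) u = u := by
      funext t
      simp only [ind]
      rw [if_pos fun q hq => absurd hq (Finset.notMem_empty q)]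
    rw [h0]
    exact hu
  | insert b s hb ih =>
    have h1 := good_and (h b (Finset.mem_insert_self b s))
      (ih fun q hq => h q (Finset.mem_insert_of_mem hq))
    have h2 : (fun t : P → Lt K n J => ∀ q ∈ insert b s, C q t) =
        fun t => C b t ∧ ∀ q ∈ s, C q t := by
      funext t
      exact propext (Finset.forall_mem_insert b s fun q => C q t)
    rw [h2]
    exact h1

theorem good_one (i : P) (A : (Σ k, Ln n J k) → Prop) :
    Good fun t : P → Lt K n J => A (t i).1 := by
  classical
  refine good_of_pure _ fun x => ?_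
  refine Submodule.subset_span ⟨fun l => if l = i then (fun q => if A q then x l q else 0) else x l,
    ?_⟩
  funext t
  simp only [ind]
  rw [← Finset.mul_prod_erase Finset.univ (fun l => lp (x l) (t l)) (Finset.mem_univ i),
    ← Finset.mul_prod_erase Finset.univ _ (Finset.mem_univ i), if_pos rfl]
  have h1 : ∏ l ∈ Finset.univ.erase i,
      lp (if l = i then (fun q => if A q then x l q else 0) else x l) (t l) =
      ∏ l ∈ Finset.univ.erase i, lp (x l) (t l) := by
    refine Finset.prod_congr rfl fun l hl => ?_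
    rw [if_neg (Finset.ne_of_mem_erase hl)]
  rw [h1]
  unfold Pool.Agent.U21.lp
  dsimp only
  by_cases h2 : A (t i).1
  · rw [if_pos h2, if_pos h2]
  · rw [if_neg h2, if_neg h2, map_zero, zero_mul]

theorem good_two [Finite κ] [∀ k, NumberField (K k)] (s : κ → Bool) (i j : P) (hij : i ≠ j) :
    Good fun t : P → Lt K n J => Sm s (t i) (t j) ∧ ¬ s (t i).1.1 = true := by
  classical
  refine good_of_pure _ fun x => ?_
  have h1 : ind (fun t : P → Lt K n J => Sm s (t i) (t j) ∧ ¬ s (t i).1.1 = true)
      (fun t => ∏ l, lp (x l) (t l)) =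
      fun t => Wan s (x i) (x j) (t i) (t j) * rest i j x t := by
    funext t
    simp only [ind, Wan]
    rw [prod_eq i j hij x t]
    by_cases h : Sm s (t i) (t j) ∧ ¬ s (t i).1.1 = true
    · rw [if_pos h, if_pos h]
    · rw [if_neg h, if_neg h, zero_mul]
  rw [h1]
  exact Wan_mem s i j hij x _ _

theorem good_cond [Finite κ] [∀ k, NumberField (K k)] (s : κ → Bool) (m : ℕ)
    (f : Fin (m + 1) → P) (hf : Function.Injective f) :
    Good fun t : P → Lt K n J => ∀ q ∈ (Finset.univ : Finset (Fin (m + 1) × Fin (m + 1))),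
      (Sm s (t (f q.1)) (t (f q.2)) ∧ ¬ s (t (f q.1)).1.1 = true) ∧
        n (t (f q.1)).1.1 / 2 + 1 = m + 1 := by
  refine good_all _ _ fun q _ => good_and ?_ ?_
  · by_cases hq : q.1 = q.2
    · have h1 : (fun t : P → Lt K n J => Sm s (t (f q.1)) (t (f q.2)) ∧
          ¬ s (t (f q.1)).1.1 = true) = fun t => isA s (t (f q.1)).1 := by
        funext t
        rw [← hq]
        refine propext ((same_iff s (t (f q.1)) (t (f q.1))).trans ?_)
        exact ⟨fun h => h.2.1, fun h => ⟨rfl, h, h⟩⟩
      rw [h1]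
      exact good_one (f q.1) (isA s)
    · exact good_two s (f q.1) (f q.2) fun h => hq (hf h)
  · exact good_one (f q.1) fun l => n l.1 / 2 + 1 = m + 1

theorem perm_mem (σ : Equiv.Perm P) (u : (P → Lt K n J) → ℂ) (hu : u ∈ TQ K n J P) :
    (fun t => u fun l => t (σ l)) ∈ TQ K n J P := by
  refine Submodule.span_induction
    (p := fun u _ => (fun t : P → Lt K n J => u fun l => t (σ l)) ∈ TQ K n J P) ?_ ?_ ?_ ?_ hu
  · rintro _ ⟨x, rfl⟩
    refine Submodule.subset_span ⟨fun l => x (σ.symm l), ?_⟩
    funext t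
    show ∏ l, lp (x (σ.symm l)) (t l) = ∏ l, lp (x l) (t (σ l))
    rw [← Equiv.prod_comp σ]
    exact Finset.prod_congr rfl fun l _ => by rw [Equiv.symm_apply_apply]
  · exact Submodule.zero_mem _
  · intro u v _ _ h1 h2
    exact Submodule.add_mem _ h1 h2
  · intro q u _ h1
    exact Submodule.smul_mem _ q h1

omit [Fintype P] in
theorem extend_perm {Y : Type} {m : ℕ} (f : Fin m → P) (hf : Function.Injective f)
    (π : Equiv.Perm (Fin m)) (t : P → Y) :
    Function.extend f (fun i => t (f (π i))) t =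
      fun l => t (π.viaEmbedding ⟨f, hf⟩ l) := by
  funext l
  by_cases h : ∃ i, f i = l
  · obtain ⟨i, rfl⟩ := h
    rw [hf.extend_apply]
    have h1 := Equiv.Perm.viaEmbedding_apply π (⟨f, hf⟩ : Fin m ↪ P) i
    exact congrArg t h1.symm
  · rw [Function.extend_apply' _ _ _ h]
    have h1 := Equiv.Perm.viaEmbedding_apply_of_notMem π (⟨f, hf⟩ : Fin m ↪ P) l
      (fun ⟨i, hi⟩ => h ⟨i, hi⟩)
    exact congrArg t h1.symm

end

end Pool.Agent.U2N.Rtax

namespace Pool.Agent.U2N

open Rtax

/-- **Row RTA.** -/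
theorem rta : RTA := by
  classical
  intro κ _ K _ _ _ n J Φ a s D _ hD P _ m f hf u hu
  have hv : (∑ π : Equiv.Perm (Fin (m + 1)), (((m + 1).factorial : ℚ)⁻¹ *
      ((Equiv.Perm.sign π : ℤ) : ℚ)) •
        fun t : P → Lt K n J => u fun l => t (π.viaEmbedding ⟨f, hf⟩ l)) ∈ TQ K n J P :=
    Submodule.sum_mem _ fun π _ => Submodule.smul_mem _ _ (perm_mem _ u hu)
  have h1 : D.al (m + 1) f u =
      ind (fun t : P → Lt K n J => ∀ q ∈ (Finset.univ : Finset (Fin (m + 1) × Fin (m + 1))),
        (Sm s (t (f q.1)) (t (f q.2)) ∧ ¬ s (t (f q.1)).1.1 = true) ∧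
          n (t (f q.1)).1.1 / 2 + 1 = m + 1)
      (∑ π : Equiv.Perm (Fin (m + 1)), (((m + 1).factorial : ℚ)⁻¹ *
        ((Equiv.Perm.sign π : ℤ) : ℚ)) •
          fun t : P → Lt K n J => u fun l => t (π.viaEmbedding ⟨f, hf⟩ l)) := by
    funext t
    have h2 : (∀ i i', D.S (t (f i)) (t (f i')) ∧ ¬ D.sp (t (f i)) ∧
        D.jj (t (f i)) = m + 1) ↔
        ∀ q ∈ (Finset.univ : Finset (Fin (m + 1) × Fin (m + 1))),
        (Sm s (t (f q.1)) (t (f q.2)) ∧ ¬ s (t (f q.1)).1.1 = true) ∧
          n (t (f q.1)).1.1 / 2 + 1 = m + 1 := by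
      constructor
      · rintro h ⟨i, i'⟩ _
        obtain ⟨h3, h4, h5⟩ := h i i'
        refine ⟨⟨?_, ?_⟩, ?_⟩
        · rw [← hD.ls.hS]
          exact h3
        · exact fun h6 => h4 ((hD.ls.hsp _).2 h6)
        · rw [← hD.hjj]
          exact h5
      · intro h i i'
        obtain ⟨⟨h3, h4⟩, h5⟩ := h (i, i') (Finset.mem_univ _)
        refine ⟨?_, ?_, ?_⟩
        · rw [hD.ls.hS]
          exact h3
        · exact fun h6 => h4 ((hD.ls.hsp _).1 h6)
        · rw [hD.hjj]
          exact h5
    unfold LN.al ind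
    by_cases h3 : ∀ i i', D.S (t (f i)) (t (f i')) ∧ ¬ D.sp (t (f i)) ∧ D.jj (t (f i)) = m + 1
    · rw [if_pos h3, if_pos (h2.1 h3), Finset.sum_apply, Finset.mul_sum]
      refine Finset.sum_congr rfl fun π _ => ?_
      rw [Pi.smul_apply, extend_perm f hf π t, Rat.smul_def]
      push_cast
      ring
    · rw [if_neg h3, if_neg fun h4 => h3 (h2.2 h4)]
  rw [h1]
  exact good_cond s m f hf _ hv

end Pool.Agent.U2N
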