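import Pool.Agent.Lib.U2N.DETb
import Pool.Agent.Lib.U2N.RTA

/-!
# U2N, row DET: the contraction is rational (helper60)

For a pure tensor the contraction is a sum, over the permutations `σ`, of a rational tensor times the
indicator of a condition on the embeddings of the first `n k / 2 + 1` letters.
-/

set_option autoImplicit false

open scoped ComplexConjugate
open Complex Pool.Agent.HCM Pool.Agent.U21

namespace Pool.Agent.U2N.Detx

noncomputable section

open Pool.Agent.U2N.Rtax (ind Good good_of_pure good_all)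
open Pool.Agent.U21.Rtox (exists_eps sum_mem' prod_eq rest cc emb_cc)

variable {κ : Type} {K : κ → Type} [∀ k, Field (K k)] {n : κ → ℕ} {J : κ → Type} {P : Type}

/-! ### The condition on two embeddings -/

/-- the embedding of a letter -/
def pe (y : Lt K n J) : Σ k, (K k →+* ℂ) := ⟨y.1.1, y.2⟩

/-- the conjugate embedding of a letter -/
def pc (y : Lt K n J) : Σ k, (K k →+* ℂ) := ⟨y.1.1, cj y.2⟩

/-- a loop times an element -/
def tm (x : Lp K n J) (ε : ∀ k, K k) : Lp K n J := fun l => x l * ε l.1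

theorem lp_tm (x : Lp K n J) (ε : ∀ k, K k) (y : Lt K n J) :
    Pool.Agent.U21.lp (tm x ε) y = Pool.Agent.U21.lp x y * y.2 (ε y.1.1) := map_mul y.2 _ _

theorem good_pc [Finite κ] [∀ k, NumberField (K k)] [∀ k, NumberField.IsCMField (K k)]
    [Fintype P] (i j : P) (hij : i ≠ j) : Good fun t : P → Lt K n J => pe (t i) = pc (t j) := by
  classical
  refine good_of_pure _ fun x => ?_
  obtain ⟨M, hM, ε, ε', h⟩ := exists_eps K
  have h0 := sum_mem' i j hij x (fun m : M => tm (x i) (ε m))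
    (fun m => tm (x j) fun k => cc k (ε' m k))
    (fun y y' => if pe y = pc y' then Pool.Agent.U21.lp (x i) y * Pool.Agent.U21.lp (x j) y' else 0)
    (fun y y' => by
      have h1 := h (pe y) (pc y')
      have h2 : ∀ m, Pool.Agent.U21.lp (tm (x i) (ε m)) y *
          Pool.Agent.U21.lp (tm (x j) fun k => cc k (ε' m k)) y' =
          Pool.Agent.U21.lp (x i) y * Pool.Agent.U21.lp (x j) y' *
            ((pe y).2 (ε m (pe y).1) * (pc y').2 (ε' m (pc y').1)) := fun m => by
        rw [lp_tm, lp_tm]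
        have h3 : y'.2 (cc y'.1.1 (ε' m y'.1.1)) = cj y'.2 (ε' m y'.1.1) :=
          emb_cc y'.1.1 y'.2 (ε' m y'.1.1)
        rw [h3]
        show _ = Pool.Agent.U21.lp (x i) y * Pool.Agent.U21.lp (x j) y' *
          (y.2 (ε m y.1.1) * cj y'.2 (ε' m y'.1.1))
        ring
      rw [Finset.sum_congr rfl fun m _ => h2 m, ← Finset.mul_sum, h1]
      by_cases h3 : pe y = pc y'
      · rw [if_pos h3, if_pos h3, mul_one]
      · rw [if_neg h3, if_neg h3, mul_zero])
  have h1 : ind (fun t : P → Lt K n J => pe (t i) = pc (t j))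
      (fun t => ∏ l, Pool.Agent.U21.lp (x l) (t l)) =
      fun t => (if pe (t i) = pc (t j) then
        Pool.Agent.U21.lp (x i) (t i) * Pool.Agent.U21.lp (x j) (t j) else 0) * rest i j x t := by
    funext t
    simp only [ind]
    rw [prod_eq i j hij x t]
    by_cases h3 : pe (t i) = pc (t j)
    · rw [if_pos h3, if_pos h3]
    · rw [if_neg h3, if_neg h3, zero_mul]
  rw [h1]
  exact h0

/-! ### The letters `nx` -/

/-- the letter on the line of `nx k τ x i` with the embedding `ρ` -/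
def lt (k : κ) (x : Fin (n k) → Fin (n k)) (i : Fin (n k / 2 + 1)) (ρ : K k →+* ℂ) : Lt K n J :=
  if h : n k / 2 + 1 + i < n k then lA k (x ⟨n k / 2 + 1 + i, h⟩) ρ else lE k ρ

/-- the embedding of `nx k τ x i` -/
def em (k : κ) (i : Fin (n k / 2 + 1)) (τ : K k →+* ℂ) : K k →+* ℂ :=
  if n k / 2 + 1 + i = n k then τ else cj τ

theorem nx_eq (k : κ) (τ : K k →+* ℂ) (x : Fin (n k) → Fin (n k)) (i : Fin (n k / 2 + 1)) :
    (nx k τ x i : Lt K n J) = lt k x i (em k i τ) := by
  unfold nx lt em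
  by_cases h : n k / 2 + 1 + (i : ℕ) < n k
  · rw [dif_pos h, dif_pos h, if_neg (ne_of_lt h)]
  · rw [dif_neg h, dif_neg h]
    by_cases h1 : n k / 2 + 1 + (i : ℕ) = n k
    · rw [if_pos h1, if_pos h1]
    · rw [if_neg h1, if_neg h1]

theorem pe_lt (k : κ) (x : Fin (n k) → Fin (n k)) (i : Fin (n k / 2 + 1)) (ρ : K k →+* ℂ) :
    pe (lt k x i ρ : Lt K n J) = ⟨k, ρ⟩ := by
  unfold lt
  split_ifs
  · rfl
  · rfl

theorem pc_lt (k : κ) (x : Fin (n k) → Fin (n k)) (i : Fin (n k / 2 + 1)) (ρ : K k →+* ℂ) :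
    pc (lt k x i ρ : Lt K n J) = ⟨k, cj ρ⟩ := by
  unfold lt
  split_ifs
  · rfl
  · rfl

theorem sg_self [DecidableEq (Σ k, Ln n J k)] (i : Σ k, Ln n J k) (v : K i.1)
    (σ : K i.1 →+* ℂ) : Pool.Agent.U21.lp (K := K) (Pi.single i v) ⟨i, σ⟩ = σ v := by
  unfold Pool.Agent.U21.lp
  rw [Pi.single_eq_same]

theorem sg_ne [DecidableEq (Σ k, Ln n J k)] {i : Σ k, Ln n J k} (v : K i.1) {y : Lt K n J}
    (h : y.1 ≠ i) : Pool.Agent.U21.lp (K := K) (Pi.single i v) y = 0 := by
  unfold Pool.Agent.U21.lp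
  rw [Pi.single_eq_of_ne h, map_zero]

open Classical in
/-- the loop with the value `c` on the line of `nx k τ x i` -/
def Lo (J : κ → Type) (k : κ) (x : Fin (n k) → Fin (n k)) (i : Fin (n k / 2 + 1)) (c : K k) :
    Lp K n J :=
  if h : n k / 2 + 1 + i < n k then
    Pi.single (⟨k, Sum.inl (x ⟨n k / 2 + 1 + i, h⟩)⟩ : Σ k, Ln n J k) c
  else Pi.single (⟨k, Sum.inr none⟩ : Σ k, Ln n J k) c

theorem Lo_self (k : κ) (x : Fin (n k) → Fin (n k)) (i : Fin (n k / 2 + 1)) (c : K k)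
    (ρ : K k →+* ℂ) : Pool.Agent.U21.lp (Lo J k x i c) (lt k x i ρ) = ρ c := by
  classical
  unfold Lo lt
  by_cases h : n k / 2 + 1 + (i : ℕ) < n k
  · rw [dif_pos h, dif_pos h]
    exact sg_self (K := K) (⟨k, Sum.inl (x ⟨n k / 2 + 1 + i, h⟩)⟩ : Σ k, Ln n J k) c ρ
  · rw [dif_neg h, dif_neg h]
    exact sg_self (K := K) (⟨k, Sum.inr none⟩ : Σ k, Ln n J k) c ρ

theorem Lo_ne (k : κ) (x : Fin (n k) → Fin (n k)) (i : Fin (n k / 2 + 1)) (c : K k)
    (y : Lt K n J) (hy : ∀ ρ, y ≠ lt k x i ρ) : Pool.Agent.U21.lp (Lo J k x i c) y = 0 := by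
  classical
  obtain ⟨l, ρ⟩ := y
  unfold lt at hy
  unfold Lo
  by_cases h : n k / 2 + 1 + (i : ℕ) < n k
  · rw [dif_pos h]
    simp only [dif_pos h] at hy
    refine sg_ne _ ?_
    intro h1
    subst h1
    exact hy ρ rfl
  · rw [dif_neg h]
    simp only [dif_neg h] at hy
    refine sg_ne _ ?_
    intro h1
    subst h1
    exact hy ρ rfl

/-! ### Rationality -/

section rat

variable [Fintype P] [∀ k, NumberField (K k)] [∀ k, NumberField.IsCMField (K k)]

theorem rat_q [Finite κ] (k : κ) (hn : 0 < n k) (x : Fin (n k) → Fin (n k)) (q : K k)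
    (y : P → Lp K n J) :
    (fun t : Fin (n k / 2 + 1) ⊕ P → Lt K n J =>
      (∑ τ : K k →+* ℂ, open Classical in
        if (fun i => t (Sum.inl i)) = nx k τ x then τ q else 0) *
      ∏ p, Pool.Agent.U21.lp (y p) (t (Sum.inr p))) ∈ TQ K n J (Fin (n k / 2 + 1) ⊕ P) := by
  classical
  obtain ⟨i0, hi0⟩ : ∃ i0 : Fin (n k / 2 + 1), n k / 2 + 1 + (i0 : ℕ) = n k :=
    ⟨⟨n k - (n k / 2 + 1), by omega⟩, by
      show n k / 2 + 1 + (n k - (n k / 2 + 1)) = n k
      omega⟩
  have hem : ∀ i, i ≠ i0 → ∀ τ : K k →+* ℂ, em k i τ = cj τ := fun i hi τ => by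
    unfold em
    rw [if_neg]
    intro h1
    exact hi (Fin.ext (by omega))
  have hem0 : ∀ τ : K k →+* ℂ, em k i0 τ = τ := fun τ => if_pos hi0
  have hG : Good fun t : Fin (n k / 2 + 1) ⊕ P → Lt K n J =>
      ∀ i ∈ Finset.univ.erase i0, pe (t (Sum.inl i)) = pc (t (Sum.inl i0)) :=
    good_all _ _ fun i hi => good_pc (Sum.inl i) (Sum.inl i0)
      fun h => (Finset.ne_of_mem_erase hi) (Sum.inl.inj h)
  have hz := hG (fun t => ∏ m, Pool.Agent.U21.lp
    ((Sum.elim (fun i => Lo J k x i (if i = i0 then q else 1)) y :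
      Fin (n k / 2 + 1) ⊕ P → Lp K n J) m) (t m)) (Submodule.subset_span ⟨_, rfl⟩)
  convert hz using 1
  funext t
  unfold ind
  dsimp only
  rw [Fintype.prod_sum_type]
  simp only [Sum.elim_inl, Sum.elim_inr]
  by_cases hex : ∃ τ : K k →+* ℂ, (fun i => t (Sum.inl i)) = nx k τ x
  · obtain ⟨τ, hτ⟩ := hex
    have ht : ∀ i, t (Sum.inl i) = lt k x i (em k i τ) := fun i =>
      (congrFun hτ i).trans (nx_eq k τ x i)
    have hc : ∀ i ∈ Finset.univ.erase i0, pe (t (Sum.inl i)) = pc (t (Sum.inl i0)) := by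
      intro i hi
      rw [ht i, ht i0, pe_lt, pc_lt, hem i (Finset.ne_of_mem_erase hi), hem0]
    rw [if_pos hc, Finset.sum_eq_single τ, if_pos hτ]
    · congr 1
      rw [Finset.prod_eq_single i0]
      · rw [ht i0, Lo_self, if_pos rfl, hem0]
      · intro i _ hi
        rw [ht i, Lo_self, if_neg hi, map_one]
      · intro h
        exact absurd (Finset.mem_univ _) h
    · intro τ' _ hne
      rw [if_neg]
      intro h
      apply hne
      have h1 := congrFun (h.symm.trans hτ) i0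
      rw [nx_eq, nx_eq, hem0, hem0] at h1
      have h2 := congrArg pe h1
      rw [pe_lt, pe_lt] at h2
      exact eq_of_heq (Sigma.mk.inj h2).2
    · intro h
      exact absurd (Finset.mem_univ _) h
  · rw [Finset.sum_eq_zero fun τ _ => if_neg fun h => hex ⟨τ, h⟩, zero_mul]
    symm
    by_cases hc : ∀ i ∈ Finset.univ.erase i0, pe (t (Sum.inl i)) = pc (t (Sum.inl i0))
    · rw [if_pos hc]
      have h1 : ∃ i, ∀ ρ, t (Sum.inl i) ≠ lt k x i ρ := by
        by_contra h2
        push Not at h2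
        choose ρ hρ using h2
        refine hex ⟨ρ i0, ?_⟩
        funext i
        rw [hρ i, nx_eq]
        by_cases hi : i = i0
        · subst hi
          rw [hem0]
        · have h3 := hc i (Finset.mem_erase.2 ⟨hi, Finset.mem_univ i⟩)
          rw [hρ i, hρ i0, pe_lt, pc_lt] at h3
          rw [hem i hi, eq_of_heq (Sigma.mk.inj h3).2]
      obtain ⟨i, hi⟩ := h1
      rw [Finset.prod_eq_zero (Finset.mem_univ i) (Lo_ne k x i _ _ hi), zero_mul]
    · rw [if_neg hc]

theorem CC_pure (a : ∀ k, Fin (n k) → K k) {k : κ} (hj : n k / 2 + 1 ≤ n k)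
    (x : Fin (n k / 2 + 1) ⊕ P → Lp K n J) :
    CC a k (fun t => ∏ m, Pool.Agent.U21.lp (x m) (t m)) =
      ∑ σ : Equiv.Perm (Fin (n k)), fun t : Fin (n k / 2 + 1) ⊕ P → Lt K n J =>
        (∑ τ : K k →+* ℂ, open Classical in
          if (fun i => t (Sum.inl i)) = nx k τ σ then
            τ (((cst (n k) : ℕ) : K k)⁻¹ * (((Equiv.Perm.sign σ : ℤ) : K k) *
              ((∏ i : Fin (n k), if (i : ℕ) < n k / 2 + 1 then 1 else (a k (σ i))⁻¹) *
                ∏ i : Fin (n k / 2 + 1), x (Sum.inl i) ⟨k, Sum.inl (σ (Fin.castLE hj i))⟩)))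
          else 0) *
        ∏ p, Pool.Agent.U21.lp (x (Sum.inr p)) (t (Sum.inr p)) := by
  classical
  funext t
  unfold CC
  rw [Finset.sum_comm, Finset.sum_apply]
  refine Finset.sum_congr rfl fun σ _ => ?_
  rw [Finset.sum_mul]
  refine Finset.sum_congr rfl fun τ _ => ?_
  by_cases h : (fun i => t (Sum.inl i)) = nx k τ σ
  · rw [if_pos h, if_pos h]
    dsimp only
    rw [Fintype.prod_sum_type]
    simp only [Sum.elim_inl, Sum.elim_inr]
    have h1 : ∏ i, Pool.Agent.U21.lp (x (Sum.inl i)) (vx k τ σ i) =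
        τ (∏ i : Fin (n k / 2 + 1), x (Sum.inl i) ⟨k, Sum.inl (σ (Fin.castLE hj i))⟩) := by
      rw [map_prod]
      refine Finset.prod_congr rfl fun i _ => ?_
      rw [vx_lt k τ σ hj i]
      rfl
    have h2 : pa a k τ σ =
        τ (∏ i : Fin (n k), if (i : ℕ) < n k / 2 + 1 then 1 else (a k (σ i))⁻¹) := by
      unfold pa
      rw [map_prod]
      refine Finset.prod_congr rfl fun i _ => ?_
      split_ifs
      · rw [map_one]
      · rw [map_inv₀]
    rw [h1, h2]
    simp only [map_mul, map_inv₀, map_natCast, map_intCast]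
    ring
  · rw [if_neg h, if_neg h, zero_mul]

/-- The contraction is rational. -/
theorem rat [Finite κ] (a : ∀ k, Fin (n k) → K k) {k : κ} (hn : 0 < n k)
    (u : (Fin (n k / 2 + 1) ⊕ P → Lt K n J) → ℂ) (hu : u ∈ TQ K n J (Fin (n k / 2 + 1) ⊕ P)) :
    CC a k u ∈ TQ K n J (Fin (n k / 2 + 1) ⊕ P) := by
  classical
  have hj : n k / 2 + 1 ≤ n k := by omega
  have h0 : ∀ u ∈ TQ K n J (Fin (n k / 2 + 1) ⊕ P),
      CL a k u ∈ TQ K n J (Fin (n k / 2 + 1) ⊕ P) := by
    intro u hu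
    refine Submodule.span_induction
      (p := fun u _ => CL a k u ∈ TQ K n J (Fin (n k / 2 + 1) ⊕ P)) ?_ ?_ ?_ ?_ hu
    · rintro _ ⟨x, rfl⟩
      rw [CL_apply, CC_pure a hj x]
      exact Submodule.sum_mem _ fun σ _ => rat_q k hn σ _ fun p => x (Sum.inr p)
    · rw [map_zero]
      exact Submodule.zero_mem _
    · intro u v _ _ h1 h2
      rw [map_add]
      exact Submodule.add_mem _ h1 h2
    · intro c u _ h1
      have h2 : c • u = (c : ℂ) • u := by
        funext t
        simp only [Pi.smul_apply, Rat.smul_def, smul_eq_mul]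
      rw [h2, map_smul]
      have h3 : ((c : ℂ) • CL a k u : (Fin (n k / 2 + 1) ⊕ P → Lt K n J) → ℂ) = c • CL a k u := by
        funext t
        simp only [Pi.smul_apply, Rat.smul_def, smul_eq_mul]
      rw [h3]
      exact Submodule.smul_mem _ c h1
  exact h0 u hu

end rat

end

end Pool.Agent.U2N.Detx
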