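import Pool.Agent.Lib.U2N.Rows
import Pool.Agent.Lib.U21.ENE

/-!
# U2N, row ENE: the energy identity

A tensor which is killed by the pairings, by the antisymmetrisations of `n / 2 + 1` letters in the
unitary blocks and by the raising root vectors lives on the words whose letters in the standard
representations are all in `T`.  (helper87)
-/

set_option autoImplicit false

open scoped ComplexConjugate
open Complex Pool.Agent.HCM Pool.Agent.U21

namespace Pool.Agent.U2N

noncomputable section

namespace Ennx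

/-- Permutations of a finite set `I` of places and of `Fin m`. -/
lemma ext_comp {P Y : Type} [DecidableEq P] {m : ℕ} {I : Finset P} (e : Fin m ≃ {x // x ∈ I})
    (π : Equiv.Perm (Fin m)) (t : P → Y) :
    (fun x => t (π.extendDomain e x)) =
      Function.extend (fun i => (e i : P)) (fun i => t (e (π i) : P)) t := by
  have hinj : Function.Injective fun i => (e i : P) := Subtype.val_injective.comp e.injective
  funext x
  by_cases hx : x ∈ I
  · obtain ⟨i, hi⟩ := e.surjective ⟨x, hx⟩
    have hxi : x = (e i : P) := by rw [hi]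
    rw [hxi, Equiv.Perm.extendDomain_apply_image]
    exact (hinj.extend_apply (fun i => t (e (π i) : P)) t i).symm
  · rw [Equiv.Perm.extendDomain_apply_not_subtype _ _ hx, Function.extend_apply']
    rintro ⟨i, hi⟩
    exact hx (hi ▸ (e i).2)

/-- The sum over the permutations which fix all places outside `I`. -/
lemma sum_fix {P : Type} [Fintype P] [DecidableEq P] {m : ℕ} {I : Finset P}
    (e : Fin m ≃ {x // x ∈ I}) (F : Equiv.Perm P → ℂ) [∀ ρ : Equiv.Perm P,
      Decidable (∀ x, x ∉ I → ρ x = x)] :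
    ∑ ρ : Equiv.Perm P, (if ∀ x, x ∉ I → ρ x = x then F ρ else 0) =
      ∑ π : Equiv.Perm (Fin m), F (π.extendDomain e) := by
  rw [← Finset.sum_filter]
  symm
  refine Finset.sum_bij (fun π _ => π.extendDomain e) ?_ ?_ ?_ ?_
  · intro π _
    rw [Finset.mem_filter]
    exact ⟨Finset.mem_univ _, fun x hx => Equiv.Perm.extendDomain_apply_not_subtype _ _ hx⟩
  · intro π _ π' _ h
    exact Equiv.Perm.extendDomainHom_injective e h
  · intro ρ hρ
    rw [Finset.mem_filter] at hρ
    have hmem : ∀ x, ρ x ∈ I ↔ x ∈ I := by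
      intro x
      constructor
      · intro h
        by_contra hx
        rw [hρ.2 x hx] at h
        exact hx h
      · intro h
        by_contra hx
        have h1 := hρ.2 _ hx
        have h2 := ρ.injective h1
        rw [h2] at hx
        exact hx h
    refine ⟨e.symm.permCongr (ρ.subtypePerm hmem), Finset.mem_univ _, ?_⟩
    ext x
    by_cases hx : x ∈ I
    · obtain ⟨i, hi⟩ := e.surjective ⟨x, hx⟩
      have hxi : x = (e i : P) := by rw [hi]
      rw [hxi, Equiv.Perm.extendDomain_apply_image]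
      simp [Equiv.permCongr_apply, Equiv.Perm.subtypePerm_apply]
    · rw [Equiv.Perm.extendDomain_apply_not_subtype _ _ hx, hρ.2 x hx]
  · intro π _
    rfl

end Ennx

/-- **Row ENE** -/
theorem ene (hROW : ROW) : ENE := by
  classical
  intro Y _ D T hTb hcl P _ u hKil hrt t0 hu i0 hS
  obtain ⟨hpa, hal⟩ := hKil
  by_contra hT
  set VT : Finset Y := Finset.univ.filter fun y => D.S (t0 i0) y ∧ T y with hVT
  set VF : Finset Y := Finset.univ.filter fun y => D.S (t0 i0) y ∧ ¬ T y with hVF
  have hmT : ∀ y, y ∈ VT ↔ D.S (t0 i0) y ∧ T y := fun y => by simp [hVT]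
  have hmF : ∀ y, y ∈ VF ↔ D.S (t0 i0) y ∧ ¬ T y := fun y => by simp [hVF]
  have hTF : ∀ y ∈ VT, ∀ y' ∈ VF, D.S y y' := fun y hy y' hy' =>
    D.trans _ _ _ (D.symm _ _ ((hmT y).1 hy).1) ((hmF y').1 hy').1
  have hX : ∀ i j : P, i ≠ j → ∀ s : P → Y, ∑ y ∈ VT, D.a y * u (up (up s i y) j (D.bar y)) +
      ∑ y ∈ VF, D.a y * u (up (up s i y) j (D.bar y)) = 0 := by
    intro i j hij s
    have h1 : ∑ y, (if D.S (t0 i0) y then D.a y * u (up (up s i y) j (D.bar y)) else 0) =
        ∑ y ∈ VT, D.a y * u (up (up s i y) j (D.bar y)) +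
          ∑ y ∈ VF, D.a y * u (up (up s i y) j (D.bar y)) := by
      rw [hVT, hVF, Finset.sum_filter, Finset.sum_filter, ← Finset.sum_add_distrib]
      refine Finset.sum_congr rfl fun y _ => ?_
      by_cases h2 : D.S (t0 i0) y <;> by_cases h3 : T y <;> simp [h2, h3]
    rw [← h1]
    have h2 := congrFun (hpa i j hij) (up (up s i (t0 i0)) j (D.bar (t0 i0)))
    unfold LS.pr at h2
    have e1 : up (up s i (t0 i0)) j (D.bar (t0 i0)) i = t0 i0 := by
      rw [Enx.up_ne _ hij, Enx.up_self]
    rw [e1, Enx.up_self, if_pos ⟨rfl, hS⟩, Pi.zero_apply, mul_eq_zero] at h2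
    have h3 : ((D.N (t0 i0) : ℂ) * D.a (t0 i0))⁻¹ ≠ 0 := by
      refine inv_ne_zero (mul_ne_zero ?_ (D.a_ne _))
      rw [Nat.cast_ne_zero]
      unfold LS.N
      exact Finset.card_ne_zero.2 ⟨t0 i0, by simp [hS]⟩
    have h4 := h2.resolve_left h3
    refine Eq.trans (Finset.sum_congr rfl fun y _ => ?_) h4
    rw [Enx.up_comm (up s i (t0 i0)) hij.symm, Enx.up_up, Enx.up_up]
  have hd : ∀ y ∈ VT, ∀ y' ∈ VF, y = D.bar y' → D.a y = - D.a y' := by
    intro y hy y' hy' h
    have h1 : D.S y' (D.bar y') := by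
      rw [← h]
      exact D.symm _ _ (hTF y hy y' hy')
    have h2 : D.sp y' := by
      by_contra h3
      exact D.nsp_bar y' h3 h1
    have h3 : D.S y' y' := D.trans _ _ _ h1 (D.symm _ _ h1)
    rw [h]
    exact D.a_sp y' h3 h2
  obtain ⟨hE, hDg⟩ := Enx.energy D.toLS VT VF hX hd fun y hy y' hy' =>
    hrt y y' (hTF y hy y' hy') ((hmT y).1 hy).2 ((hmF y').1 hy').2
  have hF0 : t0 i0 ∈ VF := (hmF _).2 ⟨hS, hT⟩
  by_cases hsp : D.sp (t0 i0)
  · -- symplectic block
    have hbT : D.bar (t0 i0) ∈ VT := (hmT _).2 ⟨D.sp_bar _ hS hsp, (hTb _).2 hT⟩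
    have h1 := hDg _ hbT _ hF0 i0 (up t0 i0 (D.bar (t0 i0)))
    rw [Enx.diag_eq D.toLS u i0 _ rfl (D.a_sp _ hS hsp) (Enx.up_self _ _ _), Enx.up_up,
      Enx.up_triv, neg_eq_zero, mul_eq_zero] at h1
    exact hu (Complex.normSq_eq_zero.1 (h1.resolve_left (Enx.wg_pos D.toLS _).ne'))
  · -- unitary block
    obtain ⟨hj0, hjT, -⟩ := hcl _ hS hsp
    obtain ⟨m, hm⟩ : ∃ m, D.jj (t0 i0) = m + 1 := ⟨D.jj (t0 i0) - 1, by omega⟩
    set Q : Finset P := Finset.univ.filter fun i => i = i0 ∨ t0 i ∈ VT with hQ
    have hmQ : ∀ i, i ∈ Q ↔ i = i0 ∨ t0 i ∈ VT := fun i => by simp [hQ]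
    clear_value Q
    have hi0Q : i0 ∈ Q := (hmQ i0).2 (Or.inl rfl)
    have hi0T : t0 i0 ∉ VT := fun h => hT ((hmT _).1 h).2
    have hSQ : ∀ i ∈ Q, D.S (t0 i0) (t0 i) := by
      intro i hi
      rcases (hmQ i).1 hi with rfl | h
      · exact hS
      · exact ((hmT _).1 h).1
    let U : Equiv.Perm P → ℂ := fun π =>
      if ∀ x, x ∉ Q → π x = x then u (fun x => t0 (π x)) else 0
    have hfixQ : ∀ π : Equiv.Perm P, (∀ x, x ∉ Q → π x = x) → ∀ x, x ∈ Q → π x ∈ Q := by
      intro π hπ x hx
      by_contra h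
      have h1 := hπ _ h
      have h2 := π.injective h1
      rw [h2] at h
      exact h hx
    have hfixmul : ∀ π ρ : Equiv.Perm P, (∀ x, x ∉ Q → ρ x = x) →
        ((∀ x, x ∉ Q → (π * ρ) x = x) ↔ ∀ x, x ∉ Q → π x = x) := by
      intro π ρ hρ
      refine forall_congr' fun x => forall_congr' fun hx => ?_
      rw [Equiv.Perm.mul_apply, hρ x hx]
    have hB : ∀ π : Equiv.Perm P, ∀ k ∈ Q, π k = i0 →
        ∑ i ∈ Q.erase k, U (π * Equiv.swap i k) = - (VT.card : ℂ) * U π := by
      intro π k hk hπk
      have hsw : ∀ i ∈ Q.erase k, ∀ x, x ∉ Q → Equiv.swap i k x = x := by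
        intro i hi x hx
        refine Equiv.swap_apply_of_ne_of_ne ?_ ?_
        · rintro rfl; exact hx (Finset.mem_of_mem_erase hi)
        · rintro rfl; exact hx hk
      by_cases hπ : ∀ x, x ∉ Q → π x = x
      swap
      · have h1 : U π = 0 := if_neg hπ
        rw [h1, mul_zero]
        refine Finset.sum_eq_zero fun i hi => ?_
        refine if_neg ?_
        rw [hfixmul π _ (hsw i hi)]
        exact hπ
      have hUπ : U π = u (fun x => t0 (π x)) := if_pos hπ
      set t' : P → Y := fun x => t0 (π x) with ht'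
      have ht'k : t' k = t0 i0 := by simp only [ht', hπk]
      have h1 : ∀ i ∈ Q.erase k, U (π * Equiv.swap i k) = u (up (up t' k (t' i)) i (t0 i0)) := by
        intro i hi
        have h2 : U (π * Equiv.swap i k) = u (fun x => t0 ((π * Equiv.swap i k) x)) :=
          if_pos ((hfixmul π _ (hsw i hi)).2 hπ)
        rw [h2]
        congr 1
        funext x
        rw [Equiv.Perm.mul_apply]
        have hik : i ≠ k := Finset.ne_of_mem_erase hi
        by_cases hxi : x = i
        · subst hxi
          rw [Equiv.swap_apply_left, Enx.up_self, hπk]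
        · by_cases hxk : x = k
          · subst hxk
            rw [Equiv.swap_apply_right, Enx.up_ne _ hxi, Enx.up_self]
          · rw [Equiv.swap_apply_of_ne_of_ne hxi hxk, Enx.up_ne _ hxi, Enx.up_ne _ hxk]
      have hset : Q.erase k = Finset.univ.filter fun i => i ≠ k ∧ t' i ∈ VT := by
        ext i
        rw [Finset.mem_erase, Finset.mem_filter]
        constructor
        · rintro ⟨hik, hiQ⟩
          refine ⟨Finset.mem_univ _, hik, ?_⟩
          rcases (hmQ (π i)).1 (hfixQ π hπ i hiQ) with h2 | h2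
          · exact absurd (π.injective (h2.trans hπk.symm)) hik
          · exact h2
        · rintro ⟨-, hik, hiT⟩
          refine ⟨hik, ?_⟩
          by_contra hiQ
          have h2 : t' i = t0 i := by simp only [ht', hπ i hiQ]
          rw [h2] at hiT
          exact hiQ ((hmQ i).2 (Or.inr hiT))
      have h2 : ∀ y ∈ VT, ∑ i, (if i ≠ k ∧ t' i = y then u (up (up t' k y) i (t0 i0)) else 0) =
          - u t' := by
        intro y hy
        have h3 := hE y hy _ hF0 (up t' k y)
        unfold eL at h3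
        have h4 : ∀ j, (if up t' k y j = y then u (up (up t' k y) j (t0 i0)) else 0) =
            (if j = k then u t' else 0) +
              (if j ≠ k ∧ t' j = y then u (up (up t' k y) j (t0 i0)) else 0) := by
          intro j
          by_cases hj : j = k
          · subst hj
            rw [Enx.up_self, if_pos rfl, if_pos rfl, if_neg (fun h => h.1 rfl), add_zero,
              Enx.up_up, ← ht'k, Enx.up_triv]
          · rw [Enx.up_ne _ hj, if_neg hj, zero_add]
            by_cases h5 : t' j = y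
            · rw [if_pos h5, if_pos ⟨hj, h5⟩]
            · rw [if_neg h5, if_neg fun h => h5 h.2]
        rw [Finset.sum_congr rfl fun j _ => h4 j, Finset.sum_add_distrib,
          Finset.sum_ite_eq' Finset.univ k fun _ => u t', if_pos (Finset.mem_univ _)] at h3
        exact eq_neg_of_add_eq_zero_right h3
      rw [Finset.sum_congr rfl h1, hUπ, hset, Finset.sum_filter]
      have h3 : ∀ i, (if i ≠ k ∧ t' i ∈ VT then u (up (up t' k (t' i)) i (t0 i0)) else 0) =
          ∑ y ∈ VT, (if i ≠ k ∧ t' i = y then u (up (up t' k y) i (t0 i0)) else 0) := by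
        intro i
        by_cases hik : i = k
        · subst hik
          simp
        · by_cases hiT : t' i ∈ VT
          · rw [if_pos ⟨hik, hiT⟩, Finset.sum_eq_single_of_mem (t' i) hiT, if_pos ⟨hik, rfl⟩]
            intro y _ hy
            exact if_neg fun h => hy h.2.symm
          · rw [if_neg fun h => hiT h.2]
            symm
            refine Finset.sum_eq_zero fun y hy => if_neg fun h => hiT ?_
            rw [h.2]; exact hy
      rw [Finset.sum_congr rfl fun i _ => h3 i, Finset.sum_comm, Finset.sum_congr rfl h2,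
        Finset.sum_const, nsmul_eq_mul, mul_neg, neg_mul]
    have hA : ∀ I ⊆ Q, I.card = m + 1 → ∀ π : Equiv.Perm P, π⁻¹ i0 ∈ Q →
        ∑ ρ : Equiv.Perm P, (if ∀ x, x ∉ I → ρ x = x then
          ((Equiv.Perm.sign ρ : ℤ) : ℂ) * U (π * ρ) else 0) = 0 := by
      intro I hIQ hIc π _
      by_cases hπ : ∀ x, x ∉ Q → π x = x
      swap
      · refine Finset.sum_eq_zero fun ρ _ => ?_
        by_cases hρ : ∀ x, x ∉ I → ρ x = x
        · rw [if_pos hρ]
          have h1 : U (π * ρ) = 0 := by
            refine if_neg ?_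
            rw [hfixmul π ρ fun x hx => hρ x fun h => hx (hIQ h)]
            exact hπ
          rw [h1, mul_zero]
        · rw [if_neg hρ]
      set t' : P → Y := fun x => t0 (π x) with ht'
      let e : Fin (m + 1) ≃ {x // x ∈ I} := (I.equivFinOfCardEq hIc).symm
      rw [Ennx.sum_fix e fun ρ => ((Equiv.Perm.sign ρ : ℤ) : ℂ) * U (π * ρ)]
      have hinj : Function.Injective fun i => (e i : P) := Subtype.val_injective.comp e.injective
      have h1 := congrFun (hal m (fun i => (e i : P)) hinj) t'
      unfold LN.al at h1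
      have hSt : ∀ i, D.S (t0 i0) (t' (e i)) := fun i =>
        hSQ _ (hfixQ π hπ _ (hIQ (e i).2))
      have hc : ∀ i i', D.S (t' (e i)) (t' (e i')) ∧ ¬ D.sp (t' (e i)) ∧
          D.jj (t' (e i)) = m + 1 := by
        intro i i'
        refine ⟨D.trans _ _ _ (D.symm _ _ (hSt i)) (hSt i'), ?_, ?_⟩
        · rw [← D.sp_S _ _ (hSt i)]; exact hsp
        · rw [← D.jj_S _ _ (hSt i)]; exact hm
      rw [if_pos hc, Pi.zero_apply, mul_eq_zero] at h1
      have h2 := h1.resolve_left (inv_ne_zero (Nat.cast_ne_zero.2 (Nat.factorial_ne_zero _)))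
      refine Eq.trans (Finset.sum_congr rfl fun σ _ => ?_) h2
      rw [Equiv.Perm.sign_extendDomain]
      congr 1
      have h3 : U (π * σ.extendDomain e) = u (fun x => t0 ((π * σ.extendDomain e) x)) := by
        refine if_pos ((hfixmul π _ fun x hx => ?_).2 hπ)
        exact Equiv.Perm.extendDomain_apply_not_subtype _ _ fun h => hx (hIQ h)
      rw [h3]
      congr 1
      exact Ennx.ext_comp e σ t'
    have hfin := hROW P i0 m VT.card Q U (by
      have : VT.card = (Finset.univ.filter fun y' => D.S (t0 i0) y' ∧ T y').card := rfl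
      omega) hB hA 1 (by simpa using hi0Q)
    have hU1 : U 1 = u (fun x => t0 ((1 : Equiv.Perm P) x)) := if_pos fun x _ => rfl
    rw [hU1] at hfin
    exact hu hfin

end

end Pool.Agent.U2N
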