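import Pool.Agent.Lib.U2N.Rows
import Pool.Agent.Lib.U21.FAC

/-!
# U2N, row FAC: the operator `pr` factors through contractions
-/

set_option autoImplicit false

open scoped ComplexConjugate
open Complex Pool.Agent.HCM Pool.Agent.U21 Pool.Agent.U21.Facx

namespace Pool.Agent.U2N

noncomputable section

namespace Facx

variable {κ : Type} {K : κ → Type} [∀ k, Field (K k)] {n : κ → ℕ} {J : κ → Type}
  {Φ : Ty K n J} {a : ∀ k, Fin (n k) → K k} {s : κ → Bool}

theorem cj_a (hd : U2N.IsDat Φ a s) (k : κ) (g : Fin (n k)) (τ : K k →+* ℂ) :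
    cj τ (a k g) = (if s k then (-1 : ℂ) else 1) * τ (a k g) := by
  rw [hd.sgn k g τ]
  split_ifs <;> ring

theorem tau_ne (hd : U2N.IsDat Φ a s) (k : κ) (g : Fin (n k)) (τ : K k →+* ℂ) :
    τ (a k g) ≠ 0 :=
  (map_ne_zero τ).2 (hd.ne k g)

theorem bc_inv (hd : U2N.IsDat Φ a s) {q : ∀ k, K k}
    (hq : ∀ k, s k = true → ∀ τ : K k →+* ℂ, cj τ (q k) = τ (q k)) {y y' : Lt K n J}
    (h : Sm s y y') : lp (bc a q) y = (U21.wt a y / U21.wt a y') * lp (bc a q) y' ∧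
      lp (bc a q) (U21.bar y) = (U21.wt a y / U21.wt a y') * lp (bc a q) (U21.bar y') := by
  obtain ⟨k, g, g', τ, rfl, h1 | ⟨h2, h1⟩⟩ := h
  · subst h1
    simp only [bar_lA, lp_bc, wt_lA, cj_a hd]
    have e1 := tau_ne hd k g' τ
    constructor <;> field_simp
  · subst h1
    simp only [bar_lA, lp_bc, wt_lA, cj_cj, hq k h2, cj_a hd, h2, if_true]
    have e1 := tau_ne hd k g' τ
    constructor <;> field_simp

theorem bd_inv (hd : U2N.IsDat Φ a s) (N : κ → ℕ) {q : ∀ k, K k}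
    (hq : ∀ k, s k = true → ∀ τ : K k →+* ℂ, cj τ (q k) = τ (q k)) {y y' : Lt K n J}
    (h : Sm s y y') : lp (bd a N q) y' = (U21.wt a y / U21.wt a y') * lp (bd a N q) y ∧
      lp (bd a N q) (U21.bar y') = (U21.wt a y / U21.wt a y') * lp (bd a N q) (U21.bar y) := by
  obtain ⟨k, g, g', τ, rfl, h1 | ⟨h2, h1⟩⟩ := h
  · subst h1
    simp only [bar_lA, lp_bd, wt_lA, cj_a hd]
    have e1 := tau_ne hd k g' τ
    have e2 := tau_ne hd k g τ
    constructor <;> field_simp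
  · subst h1
    simp only [bar_lA, lp_bd, wt_lA, cj_cj, hq k h2, cj_a hd, h2, if_true]
    have e1 := tau_ne hd k g' τ
    have e2 := tau_ne hd k g τ
    constructor <;> field_simp

end Facx

open Facx in
/-- Row FAC. -/
theorem fac : U2N.FAC := by
  intro κ _ K _ _ _ n J _ Φ a s D hd hln P _
  have hls := hln.ls
  have hcj : ∀ k (τ : K k →+* ℂ), cj τ ≠ τ := by
    intro k τ h
    have h1 := hd.cm ⟨k, Sum.inr none⟩ τ
    rw [h] at h1
    exact (iff_not_self h1)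
  obtain ⟨M, _, q, q', hq, hq', hqq⟩ := exists_family (n := n) (J := J) s hcj
  obtain ⟨N, hN⟩ : ∃ N : κ → ℕ, ∀ k g τ, D.N (lA k g τ) = N k := by
    refine ⟨fun k => if s k = true then 2 * n k else n k, fun k g τ => ?_⟩
    unfold LS.N
    rw [hls.hS]
    exact card_Sm s k g τ (hcj k τ)
  let δ₀ : M → (Fin 2 → Lt K n J) → ℂ :=
    fun m t => kP (lp (bd a N (q m))) (t 0) (t 1)
  let C₀ : M → ((Fin 2 ⊕ P → Lt K n J) → ℂ) →ₗ[ℂ] ((P → Lt K n J) → ℂ) :=
    fun m => ctr (kP (lp (bc a (q' m))))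
  have hδ : ∀ m, IsH11 Φ a s (δ₀ m) := by
    intro m
    have hk : Ker Φ (kP (lp (bd a N (q m)))) := ker_kP hd.cm _ fun y h => isB_bd h
    refine isH11_of hk (mem_of_rat hk.rat) fun y y' h _ w w' => ?_
    have h1 := U2N.Facx.bd_inv hd N (hq m) h
    exact kP_iv _ _ _ _ h1.1 h1.2 w w'
  have hC : ∀ m, IsMor Φ a s 1 2 (C₀ m) := by
    intro m
    have hk : Ker Φ (kP (lp (bc a (q' m)))) := ker_kP hd.cm _ fun y h => isB_bc h
    refine isMor_ctr hk fun y y' h _ w w' => ?_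
    have h1 := U2N.Facx.bc_inv hd (hq' m) h
    exact kP_iv _ _ _ _ h1.1 h1.2 w w'
  refine ⟨Fintype.card M, fun m => δ₀ ((Fintype.equivFin M).symm m),
    fun m => C₀ ((Fintype.equivFin M).symm m), fun m => hδ _, fun m => hC _,
    fun u t => ?_⟩
  rw [Equiv.sum_comp (Fintype.equivFin M).symm (fun m : M =>
    δ₀ m (fun i => t (Sum.inl i)) * C₀ m u fun j => t (Sum.inr j)), pr_eq hls N hN hqq u t]

end

end Pool.Agent.U2N
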