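import Pool.Agent.Lib.U2N.Rows
import Pool.Agent.Lib.U21.GRD
import Pool.Agent.Lib.U21.REX

/-!
# U2N, row GRD: the operators preserve the Hodge types
-/

set_option autoImplicit false

open scoped ComplexConjugate
open Complex Pool.Agent.HCM Pool.Agent.U21

namespace Pool.Agent.U2N

namespace Grdx

theorem ext_perm {P : Type} (Y : Type) {j : ℕ} (f : Fin j → P) (hf : Function.Injective f)
    (π : Equiv.Perm (Fin j)) : ∃ σ : Equiv.Perm P, ∀ t : P → Y,
      Function.extend f (fun i => t (f (π i))) t = fun x => t (σ x) := by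
  classical
  refine ⟨π.extendDomain (Equiv.ofInjective f hf), fun t => ?_⟩
  funext x
  by_cases hx : ∃ i, f i = x
  · obtain ⟨i, rfl⟩ := hx
    rw [hf.extend_apply]
    have h1 := Equiv.Perm.extendDomain_apply_image π (Equiv.ofInjective f hf) i
    rw [Equiv.ofInjective_apply, Equiv.ofInjective_apply] at h1
    rw [h1]
  · rw [Function.extend_apply' _ _ _ hx]
    have h1 := Equiv.Perm.extendDomain_apply_not_subtype π (Equiv.ofInjective f hf) (b := x) hx
    rw [h1]

section letters

variable {P : Type} [Fintype P] {κ : Type} {K : κ → Type} [∀ k, Field (K k)] {n : κ → ℕ}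
  {J : κ → Type}

theorem same_ext (Φ : Ty K n J) (t : P → Lt K n J) {j : ℕ} (f : Fin j → P)
    (hf : Function.Injective f) (π : Equiv.Perm (Fin j)) :
    U21.Grdx.Same Φ t (Function.extend f (fun i => t (f (π i))) t) := by
  obtain ⟨σ, hσ⟩ := ext_perm (Lt K n J) f hf π
  rw [hσ t]
  exact ⟨U21.Rexx.ncard_comp σ (fun i' => (t i').2 ∈ Φ (t i').1),
    U21.Rexx.ncard_comp σ (fun i' => (t i').2 ∉ Φ (t i').1),
    U21.Rexx.ncard_comp σ (fun i' => ¬ isB (t i'))⟩

end letters

end Grdx

open Grdx

/-- **Row GRD.** -/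
theorem grd : GRD := by
  intro κ K _ n J _ Φ a s D hdat hln P _ u
  classical
  have hls := hln.ls
  have hS : ∀ y y', D.S y y' → Sm s y y' := by
    intro y y' h
    rw [← hls.hS]
    exact h
  refine ⟨fun i j hij => ⟨fun p => ?_, fun t ht => ?_⟩, fun m f hf => ⟨fun p => ?_, fun t ht => ?_⟩⟩
  · funext t
    unfold LS.pr
    by_cases hc : t j = D.bar (t i) ∧ D.S (t i) (t i)
    · have hsame : ∀ y, D.S (t i) y → nT Φ (up (up t i y) j (D.bar y)) = nT Φ t := by
        intro y hy
        have h1 : t j = bar (t i) := by rw [hc.1, hls.hbar]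
        have h2 := U21.Grdx.same_pair hdat.cm (s := s) t hij y h1 (hS _ _ hy)
        rw [hls.hbar]
        exact h2.1
      rw [if_pos hc]
      unfold part
      beta_reduce
      rw [if_pos hc]
      by_cases hp : nT Φ t = p
      · rw [if_pos hp]
        congr 1
        refine Finset.sum_congr rfl fun y _ => ?_
        split_ifs with h1 h2
        · rfl
        · exact absurd ((hsame y h1).trans hp) h2
        · rfl
      · rw [if_neg hp]
        rw [Finset.sum_eq_zero, mul_zero]
        intro y _
        split_ifs with h1 h2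
        · exact absurd ((hsame y h1).symm.trans h2) hp
        · rw [mul_zero]
        · rfl
    · rw [if_neg hc]
      unfold part
      beta_reduce
      rw [if_neg hc]
      split_ifs <;> rfl
  · unfold LS.pr at ht
    by_cases hc : t j = D.bar (t i) ∧ D.S (t i) (t i)
    · rw [if_pos hc] at ht
      obtain ⟨y, -, hy⟩ := Finset.exists_ne_zero_of_sum_ne_zero (right_ne_zero_of_mul ht)
      have hy1 : D.S (t i) y := by
        by_contra h
        rw [if_neg h] at hy
        exact hy rfl
      rw [if_pos hy1] at hy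
      have h1 : t j = bar (t i) := by rw [hc.1, hls.hbar]
      have h2 := U21.Grdx.same_pair hdat.cm (s := s) t hij y h1 (hS _ _ hy1)
      refine ⟨_, right_ne_zero_of_mul hy, ?_⟩
      rw [hls.hbar]
      exact h2
    · rw [if_neg hc] at ht
      exact absurd rfl ht
  · funext t
    have hsame := fun π : Equiv.Perm (Fin (m + 1)) => (same_ext Φ t f hf π).1
    unfold LN.al
    by_cases hc : ∀ i i', D.S (t (f i)) (t (f i')) ∧ ¬ D.sp (t (f i)) ∧ D.jj (t (f i)) = m + 1
    · rw [if_pos hc]
      unfold part
      beta_reduce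
      rw [if_pos hc]
      simp only [hsame]
      split_ifs
      · rfl
      · simp
    · rw [if_neg hc]
      unfold part
      beta_reduce
      rw [if_neg hc]
      split_ifs <;> rfl
  · unfold LN.al at ht
    by_cases hc : ∀ i i', D.S (t (f i)) (t (f i')) ∧ ¬ D.sp (t (f i)) ∧ D.jj (t (f i)) = m + 1
    · rw [if_pos hc] at ht
      obtain ⟨π, -, hy⟩ := Finset.exists_ne_zero_of_sum_ne_zero (right_ne_zero_of_mul ht)
      exact ⟨_, right_ne_zero_of_mul hy, same_ext Φ t f hf π⟩
    · rw [if_neg hc] at ht
      exact absurd rfl ht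

end Pool.Agent.U2N
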