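import Pool.Agent.Lib.U2N.Rows
import Pool.Agent.Lib.U21.LSX

/-!
# U2N, row LSX: the structure on the letters of `X` (copy of the U21 row, helper67)
-/

set_option autoImplicit false
set_option linter.unusedSectionVars false

open scoped ComplexConjugate
open Complex Pool.Agent.HCM Pool.Agent.U21

namespace Pool.Agent.U2N

noncomputable section

open Pool.Agent.U21.Lsx in
/-- Row LSX. -/
theorem lsx : LSX := by
  intro κ K _ n J Φ a s hD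
  have hcj : ∀ (k : κ) (g : Fin (n k)) (τ : K k →+* ℂ), cj τ ≠ τ := by
    intro k g τ h1
    have h2 := hD.cm ⟨k, Sum.inl g⟩ τ
    rw [h1] at h2
    tauto
  have hjj : ∀ y y' : Lt K n J, Sm s y y' → n y.1.1 / 2 + 1 = n y'.1.1 / 2 + 1 := by
    rintro y y' ⟨k, g, g', τ, rfl, rfl | ⟨hs, rfl⟩⟩
    · rfl
    · rfl
  refine ⟨⟨⟨bar, U21.wt a, Sm s, fun y => s y.1.1 = true, fun y => ?_, fun y => ?_, fun y => rfl, ?_,
    ?_, ?_, ?_, ?_, ?_, ?_, ?_⟩, fun y => n y.1.1 / 2 + 1, hjj⟩, ⟨rfl, rfl, rfl, fun y => Iff.rfl⟩,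
    fun y => rfl⟩
  · unfold bar
    rw [cj2]
  · unfold U21.wt
    rw [map_ne_zero]
    obtain ⟨⟨k, i⟩, τ⟩ := y
    rcases i with g | i
    · exact hD.ne k g
    · exact one_ne_zero
  · rintro y ⟨k, g, g', τ, rfl, -⟩ h2
    change cj τ (a k g) = -τ (a k g)
    rw [hD.sgn]
    exact if_pos h2
  · rintro y ⟨k, g, g', τ, rfl, -⟩ h2
    change cj τ (a k g) = τ (a k g)
    rw [hD.sgn]
    exact if_neg h2
  · rintro y y' ⟨k, g, g', τ, rfl, rfl | ⟨hs, rfl⟩⟩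
    · exact ⟨k, g', g, τ, rfl, Or.inl rfl⟩
    · exact ⟨k, g', g, cj τ, rfl, Or.inr ⟨hs, by rw [cj2]⟩⟩
  · rintro y y' y'' ⟨k, g, g', τ, rfl, h1⟩ ⟨k', g₁, g₂, τ', h2, h3⟩
    rcases h1 with rfl | ⟨hs, rfl⟩
    · obtain ⟨rfl, rfl, rfl⟩ := lA_inj h2
      rcases h3 with rfl | ⟨hs, rfl⟩
      · exact ⟨k, g, g₂, τ, rfl, Or.inl rfl⟩
      · exact ⟨k, g, g₂, τ, rfl, Or.inr ⟨hs, rfl⟩⟩
    · obtain ⟨rfl, rfl, rfl⟩ := lA_inj h2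
      rcases h3 with rfl | ⟨hs, rfl⟩
      · exact ⟨k, g, g₂, τ, rfl, Or.inr ⟨hs, rfl⟩⟩
      · exact ⟨k, g, g₂, τ, rfl, Or.inl (by rw [cj2])⟩
  · rintro y y' ⟨k, g, g', τ, rfl, rfl | ⟨hs, rfl⟩⟩
    · exact ⟨k, g, g', cj τ, rfl, Or.inl rfl⟩
    · exact ⟨k, g, g', cj τ, rfl, Or.inr ⟨hs, rfl⟩⟩
  · rintro y y' ⟨k, g, g', τ, rfl, rfl | ⟨hs, rfl⟩⟩
    · exact Iff.rfl
    · exact Iff.rfl
  · rintro y ⟨k, g, g', τ, rfl, -⟩ h2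
    exact ⟨k, g, g, τ, rfl, Or.inr ⟨h2, rfl⟩⟩
  · rintro y h1 ⟨k, g, g', τ, rfl, h2⟩
    rcases h2 with h2 | ⟨hs, -⟩
    · rw [bar_lA] at h2
      obtain ⟨_, _, h3⟩ := lA_inj h2
      exact hcj k g τ h3
    · exact h1 hs

end

end Pool.Agent.U2N
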