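import Pool.Agent.Lib.U2N.Rows
import Pool.Agent.Lib.U21.OMG

/-!
# U2N, row OMG

The operators `pr i j` and `al j f` are idempotent and self-adjoint for the hermitian form with the
weights `∏ i, |a (t i)|` on words, so `Ω` is a sum of orthogonal projections.
-/

set_option autoImplicit false

open scoped ComplexConjugate
open Complex Finset Pool.Agent.U21 Pool.Agent.U21.Omgx

namespace Pool.Agent.U2N

namespace Omgn

section ops

variable {Y P : Type} (D : LN Y)

/-- The condition in `al`. -/
def cnd (j : ℕ) (f : Fin j → P) (t : P → Y) : Prop :=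
  ∀ i i', D.S (t (f i)) (t (f i')) ∧ ¬ D.sp (t (f i)) ∧ D.jj (t (f i)) = j

theorem ext_eq {j : ℕ} (f : Fin j ↪ P) (π : Equiv.Perm (Fin j)) (t : P → Y) :
    Function.extend f (fun i => t (f (π i))) t = fun p => t (π.viaEmbedding f p) := by
  classical
  funext p
  by_cases h : ∃ i, f i = p
  · obtain ⟨i, rfl⟩ := h
    rw [f.injective.extend_apply, Equiv.Perm.viaEmbedding_apply]
  · rw [Function.extend_apply' _ _ _ h, Equiv.Perm.viaEmbedding_apply_of_notMem]
    rintro ⟨i, hi⟩
    exact h ⟨i, hi⟩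

open Classical in
theorem al_eq {j : ℕ} (f : Fin j ↪ P) (u : (P → Y) → ℂ) (t : P → Y) :
    D.al j f u t = if cnd D j f t then (j.factorial : ℂ)⁻¹ * ∑ π : Equiv.Perm (Fin j),
      ((Equiv.Perm.sign π : ℤ) : ℂ) * u (fun p => t (π.viaEmbedding f p)) else 0 := by
  unfold LN.al
  refine if_congr Iff.rfl ?_ rfl
  congr 1
  refine sum_congr rfl fun π _ => ?_
  rw [ext_eq]

theorem cnd_perm {j : ℕ} (f : Fin j ↪ P) (π : Equiv.Perm (Fin j)) (t : P → Y) :
    cnd D j f (fun p => t (π.viaEmbedding f p)) ↔ cnd D j f t := by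
  unfold cnd
  simp only [Equiv.Perm.viaEmbedding_apply]
  constructor
  · intro h i i'
    have := h (π.symm i) (π.symm i')
    simpa using this
  · intro h i i'
    exact h (π i) (π i')

theorem via_mul {j : ℕ} (f : Fin j ↪ P) (π ρ : Equiv.Perm (Fin j)) (p : P) :
    (π * ρ).viaEmbedding f p = π.viaEmbedding f (ρ.viaEmbedding f p) := by
  have h := map_mul (Equiv.Perm.viaEmbeddingHom f) π ρ
  have h2 := congrArg (fun e : Equiv.Perm P => e p) h
  simpa [Equiv.Perm.viaEmbeddingHom_apply, Equiv.Perm.mul_apply] using h2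

theorem al_idem {j : ℕ} (f : Fin j ↪ P) (u : (P → Y) → ℂ) :
    D.al j f (D.al j f u) = D.al j f u := by
  classical
  funext t
  rw [al_eq, al_eq D f u t]
  by_cases h : cnd D j f t
  · rw [if_pos h, if_pos h]
    set X : ℂ := (j.factorial : ℂ)⁻¹ * ∑ σ : Equiv.Perm (Fin j),
      ((Equiv.Perm.sign σ : ℤ) : ℂ) * u (fun p => t (σ.viaEmbedding f p)) with hX
    have h1 : ∀ π : Equiv.Perm (Fin j), ((Equiv.Perm.sign π : ℤ) : ℂ) *
        D.al j f u (fun p => t (π.viaEmbedding f p)) = X := by
      intro π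
      rw [al_eq, if_pos ((cnd_perm D f π t).2 h), hX, ← mul_assoc, mul_comm _ ((j.factorial : ℂ)⁻¹),
        mul_assoc, mul_sum]
      congr 1
      refine Fintype.sum_equiv (Equiv.mulLeft π) _ _ fun ρ => ?_
      rw [Equiv.coe_mulLeft, Equiv.Perm.sign_mul]
      have h2 : (fun p => t ((π * ρ).viaEmbedding f p)) =
          fun p => t (π.viaEmbedding f (ρ.viaEmbedding f p)) := by
        funext p
        rw [via_mul]
      rw [h2]
      push_cast
      ring
    rw [sum_congr rfl fun π _ => h1 π, sum_const, card_univ, Fintype.card_perm, Fintype.card_fin,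
      nsmul_eq_mul, ← mul_assoc, inv_mul_cancel₀ (by exact_mod_cast j.factorial_ne_zero), one_mul]
  · rw [if_neg h, if_neg h]

variable [Fintype Y] [Fintype P]

omit [Fintype Y] in
theorem wW_perm (e : Equiv.Perm P) (t : P → Y) :
    wW D.toLS (fun p => t (e p)) = wW D.toLS t := by
  unfold wW
  exact Fintype.prod_equiv e _ _ fun _ => rfl

open Classical in
theorem al_adj {j : ℕ} (f : Fin j ↪ P) (u v : (P → Y) → ℂ) :
    ∑ t, (wW D.toLS t : ℂ) * (D.al j f u t * conj (v t)) =
      ∑ t, (wW D.toLS t : ℂ) * (u t * conj (D.al j f v t)) := by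
  have h1 : ∀ t, (wW D.toLS t : ℂ) * (D.al j f u t * conj (v t)) =
      ∑ π : Equiv.Perm (Fin j), if cnd D j f t then (j.factorial : ℂ)⁻¹ *
        ((Equiv.Perm.sign π : ℤ) : ℂ) * ((wW D.toLS t : ℂ) *
          (u (fun p => t (π.viaEmbedding f p)) * conj (v t))) else 0 := by
    intro t
    rw [al_eq]
    by_cases h : cnd D j f t
    · simp only [if_pos h]
      rw [mul_sum, sum_mul, mul_sum]
      refine sum_congr rfl fun π _ => ?_
      ring
    · simp [if_neg h]
  have h2 : ∀ t, (wW D.toLS t : ℂ) * (u t * conj (D.al j f v t)) =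
      ∑ π : Equiv.Perm (Fin j), if cnd D j f t then (j.factorial : ℂ)⁻¹ *
        ((Equiv.Perm.sign π : ℤ) : ℂ) * ((wW D.toLS t : ℂ) *
          (u t * conj (v (fun p => t (π.viaEmbedding f p))))) else 0 := by
    intro t
    rw [al_eq]
    by_cases h : cnd D j f t
    · simp only [if_pos h]
      rw [map_mul, map_sum, map_inv₀, map_natCast, mul_sum, mul_sum, mul_sum]
      refine sum_congr rfl fun π _ => ?_
      rw [map_mul, map_intCast]
      ring
    · simp [if_neg h]
  rw [sum_congr rfl fun t _ => h1 t, sum_congr rfl fun t _ => h2 t, sum_comm]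
  conv_rhs => rw [sum_comm]
  refine Fintype.sum_equiv (Equiv.inv (Equiv.Perm (Fin j))) _ _ fun π => ?_
  refine Fintype.sum_equiv (Equiv.arrowCongr (π.viaEmbedding f).symm (Equiv.refl Y)) _ _ fun t => ?_
  have h3 : (Equiv.arrowCongr (π.viaEmbedding f).symm (Equiv.refl Y)) t =
      fun p => t (π.viaEmbedding f p) := by
    funext p
    simp [Equiv.arrowCongr]
  rw [h3, Equiv.inv_apply]
  have h4 : (fun p => t (π.viaEmbedding f (π⁻¹.viaEmbedding f p))) = t := by
    funext p
    rw [← via_mul, mul_inv_cancel]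
    congr 1
    have := map_one (Equiv.Perm.viaEmbeddingHom f)
    have h5 := congrArg (fun e : Equiv.Perm P => e p) this
    simpa [Equiv.Perm.viaEmbeddingHom_apply] using h5
  rw [h4, wW_perm, Equiv.Perm.sign_inv]
  exact if_congr (cnd_perm D f π t).symm rfl rfl

end ops

end Omgn

open Omgn in
theorem omg : OMG := by
  classical
  intro Y _ D P _ u
  have h := core (wW D.toLS (P := P)) (wW_pos D.toLS)
    ((univ.filter fun k : P × P => k.1 ≠ k.2).disjSum
      ((range (Fintype.card P)).sigma fun m => (univ : Finset (Fin (m + 1) ↪ P))))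
    (Sum.elim (fun k v => D.pr k.1 k.2 v) (fun x v => D.al (x.1 + 1) x.2 v))
    (by
      rintro (k | x) hk v
      · rw [inl_mem_disjSum, mem_filter] at hk
        exact pr_idem D.toLS hk.2 v
      · exact al_idem D x.2 v)
    (by
      rintro (k | x) hk v w
      · rw [inl_mem_disjSum, mem_filter] at hk
        exact pr_adj D.toLS hk.2 v w
      · exact al_adj D x.2 v w)
    D.om
    (by
      intro v t
      unfold LN.om
      rw [sum_disjSum, sum_sigma, sum_filter, Fintype.sum_prod_type]
      rfl)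
    u
  refine ⟨fun h0 => ⟨fun i j hij => ?_, fun m f hf => ?_⟩, h.2⟩
  · exact h.1 h0 (Sum.inl (i, j)) (by simpa using hij)
  · have h1 := h.1 h0 (Sum.inr ⟨m, ⟨f, hf⟩⟩) (by
      rw [inr_mem_disjSum, mem_sigma]
      refine ⟨?_, mem_univ _⟩
      rw [mem_range]
      have := Fintype.card_le_of_injective f hf
      rw [Fintype.card_fin] at this
      show m < Fintype.card P
      omega)
    exact h1

end Pool.Agent.U2N
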