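import Pool.Agent.Lib.U2N.Rows
import Pool.Agent.Lib.U21.OMS

/-!
# U2N, row OMS: saturation and decomposition of sub-Hodge structures (helper67)
-/

set_option autoImplicit false

open scoped ComplexConjugate
open Complex Pool.Agent.HCM Pool.Agent.U21

namespace Pool.Agent.U2N

noncomputable section

namespace Omsn

open Pool.Agent.U21.Omsx

section lin

variable {Y P : Type} (D : LN Y)

theorem al_add (j : ℕ) (f : Fin j → P) (u v : (P → Y) → ℂ) :
    D.al j f (u + v) = D.al j f u + D.al j f v := by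
  classical
  funext t
  simp only [LN.al, Pi.add_apply]
  by_cases h : ∀ i i', D.S (t (f i)) (t (f i')) ∧ ¬ D.sp (t (f i)) ∧ D.jj (t (f i)) = j
  · rw [if_pos h, if_pos h, if_pos h, ← mul_add, ← Finset.sum_add_distrib]
    congr 1
    exact Finset.sum_congr rfl fun π _ => by rw [mul_add]
  · rw [if_neg h, if_neg h, if_neg h, add_zero]

theorem al_smul (j : ℕ) (f : Fin j → P) (c : ℂ) (u : (P → Y) → ℂ) :
    D.al j f (c • u) = c • D.al j f u := by
  classical
  funext t
  simp only [LN.al, Pi.smul_apply, smul_eq_mul]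
  by_cases h : ∀ i i', D.S (t (f i)) (t (f i')) ∧ ¬ D.sp (t (f i)) ∧ D.jj (t (f i)) = j
  · rw [if_pos h, if_pos h, mul_left_comm c, Finset.mul_sum _ _ c]
    congr 1
    exact Finset.sum_congr rfl fun π _ => by rw [mul_left_comm]
  · rw [if_neg h, if_neg h, mul_zero]

variable [Fintype Y] [Fintype P]

open Classical in
theorem om_eq (u : (P → Y) → ℂ) :
    D.om u = (∑ i, ∑ j, if i ≠ j then D.pr i j u else 0) +
      ∑ m ∈ Finset.range (Fintype.card P), ∑ f : Fin (m + 1) ↪ P, D.al (m + 1) f u := by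
  funext t
  unfold LN.om
  rw [Pi.add_apply, Finset.sum_apply, Finset.sum_apply]
  congr 1
  · refine Finset.sum_congr rfl fun i _ => ?_
    rw [Finset.sum_apply]
    refine Finset.sum_congr rfl fun j _ => ?_
    by_cases h : i ≠ j
    · rw [if_pos h, if_pos h]
    · rw [if_neg h, if_neg h, Pi.zero_apply]
  · refine Finset.sum_congr rfl fun m _ => ?_
    rw [Finset.sum_apply]

/-- `Ω` as a linear map. -/
def omL : ((P → Y) → ℂ) →ₗ[ℂ] ((P → Y) → ℂ) where
  toFun := D.om
  map_add' u v := by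
    classical
    rw [om_eq, om_eq, om_eq, add_add_add_comm, ← Finset.sum_add_distrib, ← Finset.sum_add_distrib]
    congr 1
    · refine Finset.sum_congr rfl fun i _ => ?_
      rw [← Finset.sum_add_distrib]
      refine Finset.sum_congr rfl fun j _ => ?_
      by_cases h : i ≠ j
      · rw [if_pos h, if_pos h, if_pos h, pr_add]
      · rw [if_neg h, if_neg h, if_neg h, add_zero]
    · refine Finset.sum_congr rfl fun m _ => ?_
      rw [← Finset.sum_add_distrib]
      exact Finset.sum_congr rfl fun f _ => al_add D _ _ _ _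
  map_smul' c u := by
    classical
    rw [om_eq, om_eq, RingHom.id_apply, smul_add, Finset.smul_sum, Finset.smul_sum]
    congr 1
    · refine Finset.sum_congr rfl fun i _ => ?_
      rw [Finset.smul_sum]
      refine Finset.sum_congr rfl fun j _ => ?_
      by_cases h : i ≠ j
      · rw [if_pos h, if_pos h, pr_smul]
      · rw [if_neg h, if_neg h, smul_zero]
    · refine Finset.sum_congr rfl fun m _ => ?_
      rw [Finset.smul_sum]
      exact Finset.sum_congr rfl fun f _ => al_smul D _ _ _ _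

end lin

end Omsn

open Omsx in
/-- Row OMS. -/
theorem oms (h1 : OMG) (h2 : U21.CMT) (h2' : CMA) (h3 : RTP) (h3' : RTA) (h4 : GRD) : OMS := by
  classical
  intro κ _ K _ _ _ n J _ _ Φ a s D hdat hls P _ c r R hR hr
  have hfin : FiniteDimensional ℚ (TQ K n J P) := Omsx.finite_TQ
  -- commutation of `Ω`
  have hroot : ∀ y y', Sm s y y' → y ≠ y' → ∀ u : (P → Lt K n J) → ℂ,
      root a y y' (D.om u) = D.om (root a y y' u) := by
    intro y y' hS hne u
    have hrt : ∀ v : (P → Lt K n J) → ℂ, D.rt y y' v = root a y y' v := by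
      intro v
      unfold LS.rt root
      rw [hls.ls.ha, hls.ls.hbar]
    have hS' : D.S y y' := by
      rw [hls.ls.hS]
      exact hS
    have h5 : root a y y' (D.om u) = rootL a y y' (D.om u) := rfl
    rw [h5, Omsn.om_eq, Omsn.om_eq, map_add, map_sum, map_sum]
    congr 1
    · refine Finset.sum_congr rfl fun i _ => ?_
      rw [map_sum]
      refine Finset.sum_congr rfl fun j _ => ?_
      by_cases h : i ≠ j
      · have h6 := h2 (Lt K n J) D.toLS P i j h y y' hS' hne u
        rw [if_pos h, if_pos h, ← hrt u, ← h6.1, hrt]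
        rfl
      · rw [if_neg h, if_neg h, map_zero]
    · refine Finset.sum_congr rfl fun m _ => ?_
      rw [map_sum]
      refine Finset.sum_congr rfl fun f _ => ?_
      have h6 := h2' (Lt K n J) D P m f f.injective y y' hS' hne u
      rw [← hrt u, ← h6, hrt]
      rfl
  have hpart : ∀ (p : ℕ) (u : (P → Lt K n J) → ℂ),
      part Φ p (D.om u) = D.om (part Φ p u) := by
    intro p u
    have h5 : part Φ p (D.om u) = partL Φ p (D.om u) := rfl
    have h6 := h4 κ K n J Φ a s D hdat hls P u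
    rw [h5, Omsn.om_eq, Omsn.om_eq, map_add, map_sum, map_sum]
    congr 1
    · refine Finset.sum_congr rfl fun i _ => ?_
      rw [map_sum]
      refine Finset.sum_congr rfl fun j _ => ?_
      by_cases h : i ≠ j
      · rw [if_pos h, if_pos h, (h6.1 i j h).1]
        rfl
      · rw [if_neg h, if_neg h, map_zero]
    · refine Finset.sum_congr rfl fun m _ => ?_
      rw [map_sum]
      refine Finset.sum_congr rfl fun f _ => ?_
      rw [(h6.2 m f f.injective).1]
      rfl
  have hsup : ∀ (u : (P → Lt K n J) → ℂ) t, D.om u t ≠ 0 →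
      ∃ t', u t' ≠ 0 ∧ nT Φ t' = nT Φ t ∧ nF Φ t' = nF Φ t ∧ nA t' = nA t := by
    intro u t ht
    have h6 := h4 κ K n J Φ a s D hdat hls P u
    unfold LN.om at ht
    by_cases h7 : (∑ i, ∑ j, if i ≠ j then D.pr i j u t else 0) = 0
    · rw [h7, zero_add] at ht
      obtain ⟨m, -, hm⟩ := Finset.exists_ne_zero_of_sum_ne_zero ht
      obtain ⟨f, -, hf⟩ := Finset.exists_ne_zero_of_sum_ne_zero hm
      exact (h6.2 m f f.injective).2 t hf
    · obtain ⟨i, -, hi⟩ := Finset.exists_ne_zero_of_sum_ne_zero h7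
      obtain ⟨j, -, hj⟩ := Finset.exists_ne_zero_of_sum_ne_zero hi
      by_cases h : i ≠ j
      · rw [if_pos h] at hj
        exact (h6.1 i j h).2 t hj
      · rw [if_neg h] at hj
        exact absurd rfl hj
  have hrat : ∀ u ∈ TQ K n J P, D.om u ∈ TQ K n J P := by
    intro u hu
    rw [Omsn.om_eq]
    refine Submodule.add_mem _ (Submodule.sum_mem _ fun i _ => Submodule.sum_mem _ fun j _ => ?_)
      (Submodule.sum_mem _ fun m _ => Submodule.sum_mem _ fun f _ =>
        h3' κ K n J Φ a s D hdat hls P m f f.injective u hu)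
    by_cases h : i ≠ j
    · rw [if_pos h]
      exact h3 κ K n J Φ a s D hdat hls P i j h u hu
    · rw [if_neg h]
      exact Submodule.zero_mem _
  -- the saturation
  let L : ((P → Lt K n J) → ℂ) →ₗ[ℂ] ((P → Lt K n J) → ℂ) := Omsn.omL D
  let R₁ : Submodule ℚ ((P → Lt K n J) → ℂ) :=
    Submodule.span ℚ {x | ∃ m : ℕ, ∃ u ∈ R, x = (L ^ m) u}
  have hsub : ∀ u ∈ R, u ∈ R₁ := fun u hu => Submodule.subset_span ⟨0, u, hu, by simp⟩
  have hLR : ∀ u ∈ R₁, D.om u ∈ R₁ := by
    intro u hu
    have h5 : R₁.map (L.restrictScalars ℚ) ≤ R₁ := by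
      rw [Submodule.map_span_le]
      rintro _ ⟨m, u, hu, rfl⟩
      refine Submodule.subset_span ⟨m + 1, u, hu, ?_⟩
      rw [pow_succ']
      rfl
    exact h5 (Submodule.mem_map_of_mem (f := L.restrictScalars ℚ) hu)
  have hCm : ∀ (m : ℕ) (z : (P → Lt K n J) → ℂ), z ∈ Submodule.span ℂ (R : Set _) →
      (L ^ m) z ∈ Submodule.span ℂ (R₁ : Set ((P → Lt K n J) → ℂ)) := by
    intro m z hz
    have h5 : (Submodule.span ℂ (R : Set ((P → Lt K n J) → ℂ))).map (L ^ m) ≤
        Submodule.span ℂ (R₁ : Set ((P → Lt K n J) → ℂ)) := by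
      rw [Submodule.map_span_le]
      intro u hu
      exact Submodule.subset_span (Submodule.subset_span ⟨m, u, hu, rfl⟩)
    exact h5 (Submodule.mem_map_of_mem hz)
  -- extension of a linear condition from the generators
  have hext : ∀ (T : ((P → Lt K n J) → ℂ) →ₗ[ℂ] ((P → Lt K n J) → ℂ)),
      (∀ v, T (D.om v) = D.om (T v)) →
      (∀ u ∈ R, T u ∈ Submodule.span ℂ (R : Set ((P → Lt K n J) → ℂ))) →
      ∀ u ∈ R₁, T u ∈ Submodule.span ℂ (R₁ : Set ((P → Lt K n J) → ℂ)) := by
    intro T hT hTR u hu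
    have h6 : ∀ (m : ℕ) v, T ((L ^ m) v) = (L ^ m) (T v) := by
      intro m
      induction m with
      | zero => intro v; simp
      | succ m ih =>
        intro v
        rw [pow_succ', Module.End.mul_apply, Module.End.mul_apply]
        have h7 := hT ((L ^ m) v)
        rw [ih] at h7
        exact h7
    refine Submodule.span_induction
      (p := fun u _ => T u ∈ Submodule.span ℂ (R₁ : Set ((P → Lt K n J) → ℂ))) ?_ ?_ ?_ ?_ hu
    · rintro _ ⟨m, u, hu, rfl⟩
      rw [h6]
      exact hCm m _ (hTR u hu)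
    · rw [map_zero]
      exact Submodule.zero_mem _
    · intro u v _ _ hu hv
      rw [map_add]
      exact Submodule.add_mem _ hu hv
    · intro q u _ hu
      have h7 : T (q • u) = (q : ℂ) • T u := by
        rw [← map_smul]
        congr 1
      rw [h7]
      exact Submodule.smul_mem _ _ hu
  have hsupm : ∀ (m : ℕ) (u : (P → Lt K n J) → ℂ) t, (L ^ m) u t ≠ 0 →
      ∃ t', u t' ≠ 0 ∧ nT Φ t' = nT Φ t ∧ nF Φ t' = nF Φ t ∧ nA t' = nA t := by
    intro m u
    induction m with
    | zero => intro t ht; exact ⟨t, by simpa using ht, rfl, rfl, rfl⟩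
    | succ m ih =>
      intro t ht
      rw [pow_succ', Module.End.mul_apply] at ht
      obtain ⟨t', ht', e1, e2, e3⟩ := hsup _ t ht
      obtain ⟨t'', ht'', e4, e5, e6⟩ := ih t' ht'
      exact ⟨t'', ht'', e4.trans e1, e5.trans e2, e6.trans e3⟩
  have hall : ∀ u ∈ R₁, u ∈ TQ K n J P ∧ ∀ t, u t ≠ 0 →
      (c ≤ nT Φ t ∧ c ≤ nF Φ t) ∧ nA t ≤ r := by
    intro u hu
    refine Submodule.span_induction
      (p := fun u _ => u ∈ TQ K n J P ∧ ∀ t, u t ≠ 0 → (c ≤ nT Φ t ∧ c ≤ nF Φ t) ∧ nA t ≤ r)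
      ?_ ?_ ?_ ?_ hu
    · rintro _ ⟨m, u, hu, rfl⟩
      constructor
      · induction m with
        | zero => simpa using hR.rat hu
        | succ m ih =>
          rw [pow_succ', Module.End.mul_apply]
          exact hrat _ ih
      · intro t ht
        obtain ⟨t', ht', e1, e2, e3⟩ := hsupm m u t ht
        have h6 := hR.con u hu t' ht'
        have h7 := hr u hu t' ht'
        rw [e1, e2] at h6
        rw [e3] at h7
        exact ⟨h6, h7⟩
    · exact ⟨Submodule.zero_mem _, fun t ht => absurd rfl ht⟩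
    · rintro u v _ _ ⟨hu, hu'⟩ ⟨hv, hv'⟩
      refine ⟨Submodule.add_mem _ hu hv, fun t ht => ?_⟩
      by_cases h6 : u t = 0
      · refine hv' t fun h7 => ht ?_
        rw [Pi.add_apply, h6, h7, add_zero]
      · exact hu' t h6
    · rintro q u _ ⟨hu, hu'⟩
      refine ⟨Submodule.smul_mem _ _ hu, fun t ht => hu' t fun h7 => ht ?_⟩
      rw [Pi.smul_apply, h7, smul_zero]
  have hR₁ : IsSub Φ a s c R₁ := by
    refine ⟨fun u hu => (hall u hu).1, ?_, ?_, fun u hu t ht => ((hall u hu).2 t ht).1⟩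
    · intro u hu p
      exact hext (partL Φ p) (fun v => hpart p v) (fun u hu => hR.graded u hu p) u hu
    · intro y y' hS hne u hu
      exact hext (rootL a y y') (fun v => hroot y y' hS hne v)
        (fun u hu => hR.lie y y' hS hne u hu) u hu
  have hfin₁ : FiniteDimensional ℚ R₁ := Submodule.finiteDimensional_of_le hR₁.rat
  have homom : ∀ u : (P → Lt K n J) → ℂ, D.om (D.om u) = 0 → D.om u = 0 :=
    fun u => (h1 (Lt K n J) D P u).2
  have hfit := fit R₁ (L.restrictScalars ℚ) hLR homom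
  let R₀ : Submodule ℚ ((P → Lt K n J) → ℂ) := R₁ ⊓ LinearMap.ker (L.restrictScalars ℚ)
  have hker : ∀ z ∈ Submodule.span ℂ (R₁ : Set ((P → Lt K n J) → ℂ)), D.om z = 0 →
      z ∈ Submodule.span ℂ (R₀ : Set ((P → Lt K n J) → ℂ)) := by
    intro z hz hz0
    have h5 : Submodule.span ℂ (R₁ : Set ((P → Lt K n J) → ℂ)) ≤
        Submodule.span ℂ (R₀ : Set ((P → Lt K n J) → ℂ)) ⊔
          (Submodule.span ℂ (R₁ : Set ((P → Lt K n J) → ℂ))).map L := by
      rw [Submodule.span_le]
      intro u hu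
      obtain ⟨v, hv, hv0, w, hw, rfl⟩ := hfit u hu
      refine Submodule.add_mem _ ?_ ?_
      · exact Submodule.mem_sup_left (Submodule.subset_span ⟨hv, hv0⟩)
      · exact Submodule.mem_sup_right (Submodule.mem_map_of_mem (Submodule.subset_span hw))
    obtain ⟨z₀, hz₀, _, ⟨w, hw, rfl⟩, rfl⟩ := Submodule.mem_sup.1 (h5 hz)
    have h6 : Submodule.span ℂ (R₀ : Set ((P → Lt K n J) → ℂ)) ≤ LinearMap.ker L := by
      rw [Submodule.span_le]
      intro u hu
      exact hu.2
    have h7 : L z₀ = 0 := h6 hz₀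
    have h8 : L (z₀ + L w) = 0 := hz0
    rw [map_add, h7, zero_add] at h8
    have h9 : L w = 0 := homom w h8
    rw [h9, add_zero]
    exact hz₀
  have hle : Submodule.span ℂ (R₀ : Set ((P → Lt K n J) → ℂ)) ≤
      Submodule.span ℂ (R₁ : Set ((P → Lt K n J) → ℂ)) :=
    Submodule.span_mono fun u hu => hu.1
  have hR₀ : IsSub Φ a s c R₀ := by
    refine ⟨fun u hu => hR₁.rat hu.1, ?_, ?_, fun u hu => hR₁.con u hu.1⟩
    · intro u hu p
      refine hker _ (hR₁.graded u hu.1 p) ?_
      have h5 : D.om u = 0 := hu.2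
      rw [← hpart, h5]
      exact map_zero (partL Φ p)
    · intro y y' hS hne u hu
      refine hker _ (hR₁.lie y y' hS hne u hu.1) ?_
      have h5 : D.om u = 0 := hu.2
      rw [← hroot y y' hS hne, h5]
      exact map_zero (rootL a y y')
  refine ⟨R₁, R₀, hR₁, hR₀, fun u hu t ht => ((hall u hu).2 t ht).2, ?_, ?_⟩
  · intro u hu
    exact (h1 (Lt K n J) D P u).1 hu.2
  · intro u hu
    obtain ⟨v, hv, hv0, w, hw, h5⟩ := hfit u (hsub u hu)
    exact ⟨v, ⟨hv, hv0⟩, w, hw, h5⟩

end

end Pool.Agent.U2N
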