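import Pool.Agent.Lib.U2N.Rows
import Pool.Agent.Lib.U21.REX

/-!
# U2N, row REX: permutations of the places
-/

set_option autoImplicit false

open scoped ComplexConjugate
open Complex Pool.Agent.HCM Pool.Agent.U21

namespace Pool.Agent.U2N

namespace Rexx

theorem extend_comp {P P' Y : Type} (e : P ≃ P') {j : ℕ} (f : Fin j → P)
    (hf : Function.Injective f) (g : Fin j → Y) (t' : P' → Y) :
    (fun k => Function.extend (fun i => e (f i)) g t' (e k)) =
      Function.extend f g (fun k => t' (e k)) := by
  have hef : Function.Injective (fun i => e (f i)) := fun i i' h => hf (e.injective h)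
  funext k
  by_cases hk : ∃ i, f i = k
  · obtain ⟨i, rfl⟩ := hk
    rw [hf.extend_apply]
    exact hef.extend_apply g t' i
  · rw [Function.extend_apply' _ _ _ hk, Function.extend_apply']
    rintro ⟨i, hi⟩
    exact hk ⟨i, e.injective hi⟩

end Rexx

open Rexx in
theorem rex : REX := by
  intro κ K _ n J _ Φ a s D P P' _ _ e
  obtain ⟨C, hC, hCu, hCp⟩ := U21.rex κ K n J Φ a s D.toLS P P' e
  refine ⟨C, hC, hCu, fun i j u t' => (hCp i j u t').1, ?_⟩
  intro m f hf u t'
  unfold LN.al
  simp only [hCu, extend_comp e f hf]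

end Pool.Agent.U2N
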