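import Pool.Agent.Lib.U2N.Rows

/-!
# U2N, row ROW: representations of the symmetric group with few rows
-/

set_option autoImplicit false

open scoped ComplexConjugate
open Complex Pool.Agent.HCM Pool.Agent.U21

namespace Pool.Agent.U2N

namespace ROWx

variable {R : Type} [Fintype R] [DecidableEq R]

omit [Fintype R] [DecidableEq R] in
theorem ai (ρ : Equiv.Perm R) (x : R) : ρ (ρ⁻¹ x) = x := ρ.apply_symm_apply x

omit [Fintype R] [DecidableEq R] in
theorem ia (ρ : Equiv.Perm R) (x : R) : ρ⁻¹ (ρ x) = x := ρ.symm_apply_apply x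

/-- The antisymmetrisation. -/
def Alt (I : Finset R) (U : Equiv.Perm R → ℂ) (π : Equiv.Perm R) : ℂ :=
  ∑ ρ : Equiv.Perm R, if ∀ x, x ∉ I → ρ x = x then ((Equiv.Perm.sign ρ : ℤ) : ℂ) * U (π * ρ)
    else 0

/-- The permutations of `I`. -/
def Sy (I : Finset R) : Finset (Equiv.Perm R) :=
  Finset.univ.filter fun ρ => ∀ x, x ∉ I → ρ x = x

theorem mem_Sy {I : Finset R} {ρ : Equiv.Perm R} : ρ ∈ Sy I ↔ ∀ x, x ∉ I → ρ x = x := by
  unfold Sy
  rw [Finset.mem_filter]
  exact ⟨fun h => h.2, fun h => ⟨Finset.mem_univ _, h⟩⟩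

theorem Alt_eq (I : Finset R) (U : Equiv.Perm R → ℂ) (π : Equiv.Perm R) :
    Alt I U π = ∑ ρ ∈ Sy I, ((Equiv.Perm.sign ρ : ℤ) : ℂ) * U (π * ρ) := by
  unfold Alt Sy
  rw [Finset.sum_filter]

theorem inv_mem {I : Finset R} {ρ : Equiv.Perm R} (h : ρ ∈ Sy I) : ρ⁻¹ ∈ Sy I := by
  rw [mem_Sy] at h ⊢
  intro x hx
  rw [Equiv.Perm.inv_eq_iff_eq, h x hx]

theorem mul_mem {I : Finset R} {ρ σ : Equiv.Perm R} (h : ρ ∈ Sy I) (h' : σ ∈ Sy I) :
    ρ * σ ∈ Sy I := by
  rw [mem_Sy] at h h' ⊢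
  intro x hx
  rw [Equiv.Perm.mul_apply, h' x hx, h x hx]

theorem swap_mem {I : Finset R} {i j : R} (hi : i ∈ I) (hj : j ∈ I) :
    Equiv.swap i j ∈ Sy I := by
  rw [mem_Sy]
  intro x hx
  refine Equiv.swap_apply_of_ne_of_ne ?_ ?_
  · rintro rfl
    exact hx hi
  · rintro rfl
    exact hx hj

theorem map_mem {I : Finset R} {ρ : Equiv.Perm R} (h : ρ ∈ Sy I) {x : R} (hx : x ∈ I) :
    ρ x ∈ I := by
  by_contra h1
  have h2 := mem_Sy.1 h _ h1
  have h3 := ρ.injective h2
  rw [h3] at h1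
  exact h1 hx

theorem map_mem_of_sub {I Q : Finset R} (hIQ : I ⊆ Q) {ρ : Equiv.Perm R} (h : ρ ∈ Sy I) {x : R}
    (hx : x ∈ Q) : ρ x ∈ Q := by
  by_cases hxI : x ∈ I
  · exact hIQ (map_mem h hxI)
  · rw [mem_Sy.1 h x hxI]
    exact hx

/-- Reindexing by an element of the group. -/
theorem Alt_mul {I : Finset R} (U : Equiv.Perm R → ℂ) (π : Equiv.Perm R) {σ : Equiv.Perm R}
    (h : σ ∈ Sy I) : Alt I U (π * σ) = ((Equiv.Perm.sign σ : ℤ) : ℂ) * Alt I U π := by
  rw [Alt_eq, Alt_eq, Finset.mul_sum]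
  refine Finset.sum_nbij' (fun ρ => σ * ρ) (fun ρ => σ⁻¹ * ρ) ?_ ?_ ?_ ?_ ?_
  · intro ρ hρ
    exact mul_mem h hρ
  · intro ρ hρ
    exact mul_mem (inv_mem h) hρ
  · intro ρ _
    simp
  · intro ρ _
    simp
  · intro ρ _
    have h1 : ((Equiv.Perm.sign σ : ℤ) : ℂ) * ((Equiv.Perm.sign σ : ℤ) : ℂ) = 1 := by
      rw [← Int.cast_mul, ← Units.val_mul, Int.units_mul_self]
      simp
    rw [Equiv.Perm.sign_mul, Units.val_mul, Int.cast_mul, mul_assoc π σ ρ]
    linear_combination (-((Equiv.Perm.sign ρ : ℤ) : ℂ) * U (π * (σ * ρ))) * h1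

/-- The relation `(B)`. -/
def B (k₀ : R) (q : ℂ) (Q : Finset R) (U : Equiv.Perm R → ℂ) : Prop :=
  ∀ π : Equiv.Perm R, ∀ k ∈ Q, π k = k₀ →
    ∑ i ∈ Q.erase k, U (π * Equiv.swap i k) = - q * U π

/-- `(B)` is inherited by the antisymmetrisation. -/
theorem B.alt {k₀ : R} {q : ℂ} {Q : Finset R} {U : Equiv.Perm R → ℂ} (h : B k₀ q Q U)
    {J : Finset R} (hJ : J ⊆ Q) : B k₀ q Q (Alt J U) := by
  intro π k hk hπ
  have h1 : ∀ j, Alt J U (π * Equiv.swap j k) =
      ∑ ρ ∈ Sy J, ((Equiv.Perm.sign ρ : ℤ) : ℂ) * U (π * Equiv.swap j k * ρ) := fun j => Alt_eq _ _ _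
  rw [Finset.sum_congr rfl fun j _ => h1 j, Finset.sum_comm, Alt_eq, Finset.mul_sum]
  refine Finset.sum_congr rfl fun ρ hρ => ?_
  rw [← Finset.mul_sum]
  have hl : ρ⁻¹ k ∈ Q := map_mem_of_sub hJ (inv_mem hρ) hk
  have h2 := h (π * ρ) (ρ⁻¹ k) hl (by
    rw [Equiv.Perm.mul_apply, ai, hπ])
  have h3 : ∑ j ∈ Q.erase k, U (π * Equiv.swap j k * ρ) =
      ∑ i ∈ Q.erase (ρ⁻¹ k), U (π * ρ * Equiv.swap i (ρ⁻¹ k)) := by
    refine Finset.sum_nbij' (fun j => ρ⁻¹ j) (fun i => ρ i) ?_ ?_ ?_ ?_ ?_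
    · intro j hj
      rw [Finset.mem_erase] at hj ⊢
      exact ⟨fun h4 => hj.1 (ρ⁻¹.injective h4), map_mem_of_sub hJ (inv_mem hρ) hj.2⟩
    · intro i hi
      rw [Finset.mem_erase] at hi ⊢
      refine ⟨fun h4 => hi.1 ?_, map_mem_of_sub hJ hρ hi.2⟩
      rw [← h4, ia]
    · intro j _
      simp
    · intro i _
      simp
    · intro j _
      have h5 : ρ * Equiv.swap (ρ⁻¹ j) (ρ⁻¹ k) = Equiv.swap j k * ρ := by
        rw [Equiv.mul_swap_eq_swap_mul, ai, ai]
      rw [mul_assoc, mul_assoc, h5]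
  rw [h3, h2]
  ring

/-- Antisymmetrisation over `J ∪ {k}`. -/
theorem Alt_insert {J : Finset R} {k : R} (hk : k ∉ J) (U : Equiv.Perm R → ℂ)
    (π : Equiv.Perm R) : Alt (insert k J) U π =
      Alt J U π - ∑ j ∈ J, Alt J U (π * Equiv.swap j k) := by
  have h1 : Alt (insert k J) U π = ∑ j ∈ insert k J, ∑ ρ ∈ Sy J,
      ((Equiv.Perm.sign (Equiv.swap j k * ρ) : ℤ) : ℂ) * U (π * (Equiv.swap j k * ρ)) := by
    rw [Alt_eq, ← Finset.sum_product']
    symm
    refine Finset.sum_nbij' (fun z => Equiv.swap z.1 k * z.2)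
      (fun σ => (σ k, Equiv.swap (σ k) k * σ)) ?_ ?_ ?_ ?_ ?_
    · rintro ⟨j, ρ⟩ hz
      rw [Finset.mem_product] at hz
      refine mul_mem (swap_mem hz.1 (Finset.mem_insert_self _ _)) ?_
      rw [mem_Sy]
      intro x hx
      exact mem_Sy.1 hz.2 x fun h => hx (Finset.mem_insert_of_mem h)
    · intro σ hσ
      rw [Finset.mem_product]
      have h2 : σ k ∈ insert k J := map_mem hσ (Finset.mem_insert_self _ _)
      refine ⟨h2, ?_⟩
      rw [mem_Sy]
      intro x hx
      rw [Equiv.Perm.mul_apply]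
      by_cases hxk : x = k
      · rw [hxk, Equiv.swap_apply_left]
      · have h3 : x ∉ insert k J := by
          rw [Finset.mem_insert]
          rintro (h | h)
          · exact hxk h
          · exact hx h
        rw [mem_Sy.1 hσ x h3]
        refine Equiv.swap_apply_of_ne_of_ne ?_ hxk
        rintro rfl
        exact h3 h2
    · rintro ⟨j, ρ⟩ hz
      rw [Finset.mem_product] at hz
      have h2 : ρ k = k := mem_Sy.1 hz.2 k hk
      have h3 : (Equiv.swap j k * ρ) k = j := by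
        rw [Equiv.Perm.mul_apply, h2, Equiv.swap_apply_right]
      simp only [h3]
      rw [← mul_assoc, Equiv.swap_mul_self, one_mul]
    · intro σ _
      simp only
      rw [← mul_assoc, Equiv.swap_mul_self, one_mul]
    · rintro ⟨j, ρ⟩ _
      rfl
  rw [h1, Finset.sum_insert hk]
  have h2 : ∑ ρ ∈ Sy J, ((Equiv.Perm.sign (Equiv.swap k k * ρ) : ℤ) : ℂ) *
      U (π * (Equiv.swap k k * ρ)) = Alt J U π := by
    rw [Alt_eq]
    refine Finset.sum_congr rfl fun ρ _ => ?_
    rw [Equiv.swap_self]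
    have h3 : (Equiv.refl R : Equiv.Perm R) * ρ = ρ := one_mul ρ
    rw [h3]
  have h3 : ∀ j ∈ J, ∑ ρ ∈ Sy J, ((Equiv.Perm.sign (Equiv.swap j k * ρ) : ℤ) : ℂ) *
      U (π * (Equiv.swap j k * ρ)) = - Alt J U (π * Equiv.swap j k) := by
    intro j hj
    rw [Alt_eq, ← Finset.sum_neg_distrib]
    refine Finset.sum_congr rfl fun ρ _ => ?_
    have hjk : j ≠ k := by
      rintro rfl
      exact hk hj
    rw [Equiv.Perm.sign_mul, Equiv.Perm.sign_swap hjk, mul_assoc π]
    push_cast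
    ring
  rw [h2, Finset.sum_congr rfl h3, Finset.sum_neg_distrib, sub_eq_add_neg]

/-- Antisymmetrisations over disjoint sets commute. -/
theorem Alt_comm {I J : Finset R} (h : Disjoint I J) (U : Equiv.Perm R → ℂ)
    (π : Equiv.Perm R) : Alt I (Alt J U) π =
      ∑ σ ∈ Sy J, ((Equiv.Perm.sign σ : ℤ) : ℂ) * Alt I U (π * σ) := by
  have h1 : ∀ ρ, Alt J U (π * ρ) = ∑ σ ∈ Sy J, ((Equiv.Perm.sign σ : ℤ) : ℂ) *
      U (π * ρ * σ) := fun ρ => Alt_eq _ _ _
  have h2 : ∀ σ, Alt I U (π * σ) = ∑ ρ ∈ Sy I, ((Equiv.Perm.sign ρ : ℤ) : ℂ) *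
      U (π * σ * ρ) := fun σ => Alt_eq _ _ _
  rw [Alt_eq]
  simp only [h1, h2, Finset.mul_sum]
  rw [Finset.sum_comm]
  refine Finset.sum_congr rfl fun σ hσ => Finset.sum_congr rfl fun ρ hρ => ?_
  have h3 : ρ * σ = σ * ρ := by
    have h4 : ρ.Disjoint σ := by
      intro x
      by_cases hx : x ∈ I
      · right
        exact mem_Sy.1 hσ x (Finset.disjoint_left.1 h hx)
      · left
        exact mem_Sy.1 hρ x hx
    exact h4.commute
  rw [mul_assoc π, mul_assoc π, h3]
  ring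

theorem zero_case {k₀ : R} {Q : Finset R} {U : Equiv.Perm R → ℂ}
    (hA : ∀ I ⊆ Q, I.card = 1 → ∀ π : Equiv.Perm R, π⁻¹ k₀ ∈ Q → Alt I U π = 0)
    (π : Equiv.Perm R) (hπ : π⁻¹ k₀ ∈ Q) : U π = 0 := by
  have h1 := hA {π⁻¹ k₀} (Finset.singleton_subset_iff.2 hπ) (Finset.card_singleton _) π hπ
  rw [Alt_eq] at h1
  have h2 : Sy ({π⁻¹ k₀} : Finset R) = {1} := by
    ext ρ
    rw [mem_Sy, Finset.mem_singleton]
    constructor
    · intro h
      refine Equiv.ext fun x => ?_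
      by_cases hx : x = π⁻¹ k₀
      · by_contra h3
        have h4 : ρ x ∉ ({π⁻¹ k₀} : Finset R) := by
          rw [Finset.mem_singleton, ← hx]
          exact h3
        exact h3 (ρ.injective (h _ h4))
      · exact h x (by rwa [Finset.mem_singleton])
    · rintro rfl x _
      rfl
  rw [h2, Finset.sum_singleton] at h1
  simpa using h1

/-- The double induction. -/
theorem main (k₀ : R) : ∀ (p : ℕ) (Q : Finset R) (q : ℕ) (U : Equiv.Perm R → ℂ), p ≤ q →
    B k₀ q Q U →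
    (∀ I ⊆ Q, I.card = p + 1 → ∀ π : Equiv.Perm R, π⁻¹ k₀ ∈ Q → Alt I U π = 0) →
    ∀ π : Equiv.Perm R, π⁻¹ k₀ ∈ Q → U π = 0 := by
  intro p
  induction p with
  | zero =>
    intro Q q U _ _ hA π hπ
    exact zero_case hA π hπ
  | succ p ihp =>
    intro Q
    induction hc : Q.card using Nat.strong_induction_on generalizing Q with
    | _ m ih =>
    intro q U hpq hB hA
    refine ihp Q q U (by omega) hB fun J hJ hJc => ?_
    set v := Alt J U with hv
    have hBv : B k₀ q Q v := hB.alt hJ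
    have hlt : (Q \ J).card < m := by
      rw [← hc, Finset.card_sdiff_of_subset hJ]
      have h1 := Finset.card_le_card hJ
      omega
    have h1 : ∀ π : Equiv.Perm R, π⁻¹ k₀ ∈ Q \ J → v π = 0 := by
      refine ih _ hlt (Q \ J) rfl (q + 1) v (by omega) ?_ ?_
      · intro π k hk hπ
        have hkQ := (Finset.mem_sdiff.1 hk).1
        have hkJ := (Finset.mem_sdiff.1 hk).2
        have h2 := hBv π k hkQ hπ
        have h3 : Q.erase k = (Q \ J).erase k ∪ J := by
          ext x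
          simp only [Finset.mem_erase, Finset.mem_union, Finset.mem_sdiff]
          constructor
          · rintro ⟨h4, h5⟩
            by_cases h6 : x ∈ J
            · exact Or.inr h6
            · exact Or.inl ⟨h4, h5, h6⟩
          · rintro (⟨h4, h5, -⟩ | h6)
            · exact ⟨h4, h5⟩
            · refine ⟨?_, hJ h6⟩
              rintro rfl
              exact hkJ h6
        have h4 : Disjoint ((Q \ J).erase k) J := by
          rw [Finset.disjoint_left]
          intro x hx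
          exact (Finset.mem_sdiff.1 (Finset.mem_of_mem_erase hx)).2
        rw [h3, Finset.sum_union h4] at h2
        have h5 : Alt (insert k J) U π = 0 := by
          refine hA _ (Finset.insert_subset hkQ hJ) ?_ π ?_
          · rw [Finset.card_insert_of_notMem hkJ, hJc]
          · rw [← hπ, ia]
            exact hkQ
        rw [Alt_insert hkJ, ← hv] at h5
        push_cast
        linear_combination h2 + h5
      · intro I hI hIc π hπ
        have hdis : Disjoint I J := by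
          rw [Finset.disjoint_left]
          intro x hx
          exact (Finset.mem_sdiff.1 (hI hx)).2
        rw [hv, Alt_comm hdis]
        refine Finset.sum_eq_zero fun σ hσ => ?_
        rw [hA I (hI.trans Finset.sdiff_subset) hIc (π * σ), mul_zero]
        rw [mul_inv_rev, Equiv.Perm.mul_apply]
        exact map_mem_of_sub hJ (inv_mem hσ) (Finset.mem_sdiff.1 hπ).1
    intro π hπ
    by_cases hkJ : π⁻¹ k₀ ∈ J
    · set k := π⁻¹ k₀ with hk
      have hπk : π k = k₀ := by rw [hk, ai]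
      have h2 := hBv π k hπ hπk
      have h3 : ∑ j ∈ Q.erase k, v (π * Equiv.swap j k) =
          ∑ j ∈ J.erase k, v (π * Equiv.swap j k) := by
        symm
        refine Finset.sum_subset (Finset.erase_subset_erase _ hJ) fun j hj hj' => ?_
        have h4 : j ≠ k := (Finset.mem_erase.1 hj).1
        have h5 : j ∉ J := fun h => hj' (Finset.mem_erase.2 ⟨h4, h⟩)
        refine h1 _ ?_
        rw [mul_inv_rev, Equiv.Perm.mul_apply, ← hk, Equiv.swap_inv, Equiv.swap_apply_right]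
        exact Finset.mem_sdiff.2 ⟨(Finset.mem_erase.1 hj).2, h5⟩
      have h4 : ∑ j ∈ J.erase k, v (π * Equiv.swap j k) = ∑ j ∈ J.erase k, - v π := by
        refine Finset.sum_congr rfl fun j hj => ?_
        have h5 : j ≠ k := (Finset.mem_erase.1 hj).1
        rw [hv, Alt_mul U π (swap_mem (Finset.mem_erase.1 hj).2 hkJ), Equiv.Perm.sign_swap h5]
        push_cast
        ring
      rw [h3, h4, Finset.sum_const, Finset.card_erase_of_mem hkJ, hJc, Nat.add_sub_cancel,
        nsmul_eq_mul] at h2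
      have h5 : ((q : ℂ) - p) * v π = 0 := by linear_combination h2
      have h6 : (q : ℂ) - p ≠ 0 := by
        intro h7
        have h8 : (q : ℂ) = p := by linear_combination h7
        have h9 : q = p := by exact_mod_cast h8
        omega
      exact (mul_eq_zero.1 h5).resolve_left h6
    · exact h1 π (Finset.mem_sdiff.2 ⟨hπ, hkJ⟩)

end ROWx

open ROWx in
/-- **Row ROW**. -/
theorem row : ROW := by
  intro R _ _ k₀ p q Q U hpq hB hA π hπ
  exact main k₀ p Q q U hpq hB (fun I hI hIc π hπ => hA I hI hIc π hπ) π hπ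

end Pool.Agent.U2N
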