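import Pool.Agent.Lib.U2N.Rows
import Pool.Agent.Lib.U21.RTO

/-!
# U2N: row RTP (helper36)

The operator `pr` is rational: the half of `Pool.Agent.Lib.U21.RTO` (helper94) on `pr`, for the data
of `U2N.Stat`.
-/

set_option autoImplicit false

open scoped ComplexConjugate
open Complex Pool.Agent.HCM Pool.Agent.U21

namespace Pool.Agent.U2N

namespace Rtpx

open Pool.Agent.U21.Rtox

variable {κ : Type} {K : κ → Type} [∀ k, Field (K k)] [∀ k, NumberField (K k)]
  [∀ k, NumberField.IsCMField (K k)] {n : κ → ℕ} {J : κ → Type} {P : Type} [Fintype P]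

/-- As `Rtox.pr_pure`; of the data only the CM types are used. -/
theorem pr_pure [Fintype (Lt K n J)] {Φ : Ty K n J} {a : ∀ k, Fin (n k) → K k} {s : κ → Bool}
    {D : LS (Lt K n J)} (hc : ∀ i, IsCMType (Φ i)) (hD : IsLS a s D) (i j : P) (hij : i ≠ j)
    (x : P → Lp K n J) :
    D.pr i j (fun t => ∏ l, lp (x l) (t l)) =
      fun t => Wpr (fun k g => qf a s (x i) (x j) k / (nf n s k * a k g)) (t i) (t j) *
        rest i j x t := by
  classical
  funext t
  have h0 : D.pr i j (fun t => ∏ l, lp (x l) (t l)) t =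
      if t j = bar (t i) ∧ Sm s (t i) (t i) then
        ((∑ z : Lt K n J, if Sm s (t i) z then (1 : ℂ) else 0) * wt a (t i))⁻¹ *
        ∑ z, (if Sm s (t i) z then wt a z * (lp (x i) z * lp (x j) (bar z) * rest i j x t) else 0)
      else 0 := by
    unfold LS.pr LS.N
    rw [hD.hbar, hD.hS, hD.ha, Finset.natCast_card_filter]
    simp only [prod_up i j hij]
  rw [h0]
  generalize t i = y
  generalize t j = y'
  generalize rest i j x t = c
  unfold Wpr
  obtain ⟨⟨k, g | b⟩, τ⟩ := y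
  · have hS : Sm s (⟨⟨k, Sum.inl g⟩, τ⟩ : Lt K n J) ⟨⟨k, Sum.inl g⟩, τ⟩ :=
      ⟨k, g, g, τ, rfl, Or.inl rfl⟩
    have hτ : cj τ ≠ τ := by
      intro h
      have h1 := hc ⟨k, Sum.inl g⟩ τ
      rw [h] at h1
      by_cases h2 : τ ∈ Φ ⟨k, Sum.inl g⟩
      · exact h1.1 h2 h2
      · exact h2 (h1.2 h2)
    by_cases hb : y' = bar (⟨⟨k, Sum.inl g⟩, τ⟩ : Lt K n J)
    · rw [if_pos ⟨hb, hS⟩, if_pos hb]
      have h1 := form_sum a s k g τ hτ (x i) (x j) c
      have h2 := card_sum (J := J) s k g τ hτ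
      unfold lA at h1 h2
      rw [h1, h2]
      show (τ (nf n s k) * τ (a k g))⁻¹ * (τ (qf a s (x i) (x j) k) * c) =
        τ (qf a s (x i) (x j) k / (nf n s k * a k g)) * c
      rw [map_div₀, map_mul]
      ring
    · rw [if_neg (fun h => hb h.1), if_neg hb, zero_mul]
  · have hS : ¬ Sm s (⟨⟨k, Sum.inr b⟩, τ⟩ : Lt K n J) ⟨⟨k, Sum.inr b⟩, τ⟩ := by
      rintro ⟨k', g', g1, τ', h1, _⟩
      unfold lA at h1
      cases h1
    rw [if_neg (fun h => hS h.2)]
    have h1 : val (fun k g => qf a s (x i) (x j) k / (nf n s k * a k g))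
        (⟨⟨k, Sum.inr b⟩, τ⟩ : Lt K n J) = 0 := map_zero τ
    rw [h1, ite_self, zero_mul]

end Rtpx

open Pool.Agent.U21.Rtox in
/-- **Row RTP.** -/
theorem rtp : RTP := by
  intro κ _ K _ _ _ n J _ Φ a s D hd hD P _ i j hij u hu
  refine Submodule.span_induction (p := fun u _ => D.pr i j u ∈ TQ K n J P) ?_ ?_ ?_ ?_ hu
  · rintro _ ⟨x, rfl⟩
    rw [Rtpx.pr_pure hd.cm hD.ls i j hij x]
    exact val_mem i j hij x _
  · rw [pr_zero]
    exact Submodule.zero_mem _
  · intro u v _ _ h1 h2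
    rw [pr_add]
    exact Submodule.add_mem _ h1 h2
  · intro q u _ h
    rw [pr_smul]
    exact Submodule.smul_mem _ q h

end Pool.Agent.U2N
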