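import Pool.Agent.Lib.U2N.Rows
import Pool.Agent.Lib.U21.SPL
import Pool.Agent.Lib.U21.CMB

/-!
# U2N, row SPL: a rational tensor whose words have `B`-parts of coniveau `c` is generated
-/

set_option autoImplicit false

open scoped ComplexConjugate
open Complex Pool.Agent.HCM Pool.Agent.U21

namespace Pool.Agent.U2N

noncomputable section

open Splx

theorem spl : SPL := by
  classical
  intro κ _ K _ _ _ n J _ Φ a s hdat P _ c u hu hc
  have hfin : Finite (Lt K n J) := by
    unfold Lt Idx
    infer_instance
  rw [sum_FF u]
  refine Submodule.sum_mem _ fun Q _ => ?_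
  have hper : GG.IsPer (GG.perB (K := fun i : Σ k, Ln n J k => K i.1)) := GG.perb _ _
  have hQI : GG.QInd (TQ K n J {i // i ∉ Q}) :=
    GG.perq GG.qind {i // i ∉ Q} (Lt K n J) (Lp K n J) GG.perB Finset.univ hper
  have h1 := GG.PartcAux.step (A' := ⊥) hQI le_rfl bot_le (ff_mem Q hu)
    {y | ∀ x, FF Q u x y = 0} (by
      intro y hy
      have : (fun x => FF Q u x y) = 0 := by
        funext x
        exact hy x
      rw [this]
      exact Submodule.zero_mem _)
  have h2 : GG.PartcAux.TT (⊥ : Submodule ℚ (({i // i ∉ Q} → Lt K n J) → ℂ))
      (TQ K n J {i // i ∈ Q} ⊓ BS K n J {i // i ∈ Q}) = ⊥ := by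
    rw [eq_bot_iff]
    unfold GG.PartcAux.TT
    rw [Submodule.span_le]
    rintro _ ⟨p, hp, v, _, rfl⟩
    rw [Submodule.mem_bot] at hp
    subst hp
    simp
    rfl
  rw [h2, sup_bot_eq] at h1
  -- the words `y` where the tensor does not vanish
  have h3 : ∀ y : {i // i ∈ Q} → Lt K n J, (¬ ∀ x, FF Q u x y = 0) →
      (∀ i, isB (y i)) ∧ c ≤ nT Φ y ∧ c ≤ nF Φ y := by
    intro y hy
    obtain ⟨x, hx⟩ := not_forall.1 hy
    unfold FF at hx
    split_ifs at hx with h
    · refine ⟨h.2, ?_⟩
      have h4 := hc _ hx
      have key : ∀ p : Lt K n J → Prop, {i | isB (mx Q x y i) ∧ p (mx Q x y i)}.ncard =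
          {i | p (y i)}.ncard := by
        intro p
        have e1 : {i | isB (mx Q x y i) ∧ p (mx Q x y i)} =
            Subtype.val '' {i : {i // i ∈ Q} | p (y i)} := by
          ext i
          constructor
          · rintro ⟨hi1, hi2⟩
            by_cases hi : i ∈ Q
            · refine ⟨⟨i, hi⟩, ?_, rfl⟩
              unfold mx at hi2
              rw [dif_pos hi] at hi2
              exact hi2
            · exfalso
              unfold mx at hi1
              rw [dif_neg hi] at hi1
              exact h.1 _ hi1
          · rintro ⟨j, hj, rfl⟩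
            have e2 : mx Q x y j = y j := by
              unfold mx
              rw [dif_pos j.2]
            refine ⟨?_, ?_⟩
            · rw [e2]
              exact h.2 j
            · rw [e2]
              exact hj
        rw [e1, Set.ncard_image_of_injective _ Subtype.val_injective]
      have k1 := key fun z => z.2 ∈ Φ z.1
      have k2 := key fun z => z.2 ∉ Φ z.1
      unfold nT nF
      rw [← k1, ← k2]
      exact h4
    · exact absurd rfl hx
  set S : Set ({i // i ∈ Q} → Lt K n J) := {y | ∀ x, FF Q u x y = 0} with hS
  generalize FF Q u = f at h1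
  have hp := Fintype.equivFin {i // i ∉ Q}
  have hq := Fintype.equivFin {i // i ∈ Q}
  induction h1 using Submodule.span_induction with
  | mem f hf =>
    obtain ⟨p, hp0, v, hv, hvS, rfl⟩ := hf
    have hB : ∀ y, v y ≠ 0 → (∀ i, isB (y i)) ∧ c ≤ nT Φ y ∧ c ≤ nF Φ y := fun y hy =>
      h3 y fun h => hy (hvS y h)
    induction hp0 using Submodule.span_induction with
    | mem p hp0 =>
      obtain ⟨x, rfl⟩ := hp0
      by_cases hv0 : v = 0
      · have h1 : (fun t : P → Lt K n J => (∏ i : {i // i ∉ Q}, lp (x i) (t i)) *
            v fun i => t i) = 0 := by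
          funext t
          rw [hv0]
          exact mul_zero _
        show (fun t : P → Lt K n J => (∏ i : {i // i ∉ Q}, lp (x i) (t i)) * v fun i => t i) ∈ _
        rw [h1]
        exact Submodule.zero_mem _
      obtain ⟨y₀, hy₀⟩ := Function.ne_iff.1 hv0
      obtain ⟨l, hl⟩ : ∃ l, Fintype.card {i // i ∈ Q} = 2 * c + l := by
        have h6 := (hB y₀ hy₀).2
        have h7 : nT Φ y₀ + nF Φ y₀ = Fintype.card {i // i ∈ Q} := by
          unfold nT nF
          have h := Set.ncard_add_ncard_compl {i : {i // i ∈ Q} | (y₀ i).2 ∈ Φ (y₀ i).1}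
          rw [Nat.card_eq_fintype_card] at h
          exact h
        exact ⟨Fintype.card {i // i ∈ Q} - 2 * c, by omega⟩
      rw [hl] at hq
      let e : Fin (Fintype.card {i // i ∉ Q}) ⊕ Fin (2 * c + l) ≃ P :=
        ((hp.symm.sumCongr hq.symm).trans (Equiv.sumComm _ _)).trans
          (Equiv.sumCompl fun i => i ∈ Q)
      have hg := Gen.base (Φ := Φ) (a := a) (s := s) c _ l (fun i => x (hp.symm i))
        (fun w => v fun i => w (hq i)) (cmb κ K n J Φ hdat.cm c l _ (tq_equiv hq hv.1)
        (fun t ht j => by
          have := (hB _ ht).1 (hq.symm j)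
          simpa using this)
        (fun t ht => by
          have h5 := (hB _ ht).2
          have key : ∀ p : Lt K n J → Prop, {i | p (t i)}.ncard = {i | p (t (hq i))}.ncard := by
            intro p
            have e1 : {i | p (t i)} = hq '' {i | p (t (hq i))} := by
              ext i
              constructor
              · intro hi
                exact ⟨hq.symm i, by simpa using hi, by simp⟩
              · rintro ⟨j, hj, rfl⟩
                exact hj
            rw [e1, Set.ncard_image_of_injective _ hq.injective]
          have k1 := key fun z => z.2 ∈ Φ z.1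
          have k2 := key fun z => z.2 ∉ Φ z.1
          unfold nT nF at h5 ⊢
          rw [k1, k2]
          exact h5))
      refine Submodule.subset_span ?_
      have hg2 := Gen.perm c _ P e _ hg
      have e3 : (fun t : P → Lt K n J => (∏ i : {i // i ∉ Q}, lp (x i) (t i)) *
          v fun i => t i) = fun t : P → Lt K n J =>
            (∏ i, lp (x (hp.symm i)) (t (e (Sum.inl i)))) * v fun i => t (e (Sum.inr (hq i))) := by
        funext t
        congr 1
        · rw [← Equiv.prod_comp hp.symm (fun i : {i // i ∉ Q} => lp (x i) (t i))]
          rfl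
        · congr 1
          funext i
          congr 1
          show (i : P) = (hq.symm (hq i) : {i // i ∈ Q})
          rw [Equiv.symm_apply_apply]
      show Gen Φ a s c P fun t : P → Lt K n J => (∏ i : {i // i ∉ Q}, lp (x i) (t i)) *
          v fun i => t i
      rw [e3]
      exact hg2
    | zero =>
      have : (fun t : P → Lt K n J => (0 : ({i // i ∉ Q} → Lt K n J) → ℂ) (fun i => t i) *
          v fun i => t i) = 0 := by
        funext t
        exact zero_mul _
      rw [this]
      exact Submodule.zero_mem _
    | add p p' _ _ h1 h2 =>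
      have : (fun t : P → Lt K n J => (p + p') (fun i => t i) * v fun i => t i) =
          (fun t => p (fun i => t i) * v fun i => t i) +
            fun t => p' (fun i => t i) * v fun i => t i := by
        funext t
        exact add_mul _ _ _
      rw [this]
      exact Submodule.add_mem _ h1 h2
    | smul q p _ h1 =>
      have : (fun t : P → Lt K n J => (q • p) (fun i => t i) * v fun i => t i) =
          q • fun t => p (fun i => t i) * v fun i => t i := by
        funext t
        exact smul_mul_assoc q (p fun i => t i) (v fun i => t i)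
      rw [this]
      exact Submodule.smul_mem _ _ h1
  | zero => exact Submodule.zero_mem _
  | add f g _ _ h1 h2 => exact Submodule.add_mem _ h1 h2
  | smul q f _ h1 => exact Submodule.smul_mem _ _ h1

end

end Pool.Agent.U2N
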