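import Pool.Agent.Lib.U2N.Rows
import Pool.Agent.Lib.U21.SUP

/-!
# U2N, row SUP: the words of a sub-Hodge structure killed by `pr` and `al`

As `Pool.Agent.Lib.U21.SUP`.
-/

set_option autoImplicit false

open scoped ComplexConjugate
open Complex Pool.Agent.HCM Pool.Agent.U21

namespace Pool.Agent.U2N

namespace Supn

open Pool.Agent.U21.Grdx Pool.Agent.U21.Supx

section lin

variable {Y P : Type} (D : LN Y)

theorem al_zero (j : ℕ) (f : Fin j → P) : D.al j f (0 : (P → Y) → ℂ) = 0 := by
  funext t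
  unfold LN.al
  simp

theorem al_add (j : ℕ) (f : Fin j → P) (u v : (P → Y) → ℂ) :
    D.al j f (u + v) = D.al j f u + D.al j f v := by
  classical
  funext t
  simp only [LN.al, Pi.add_apply]
  split_ifs with h
  · rw [← mul_add, ← Finset.sum_add_distrib]
    congr 1
    exact Finset.sum_congr rfl fun π _ => mul_add _ _ _
  · simp

theorem al_smul (j : ℕ) (f : Fin j → P) (c : ℂ) (u : (P → Y) → ℂ) :
    D.al j f (c • u) = c • D.al j f u := by
  classical
  funext t
  simp only [LN.al, Pi.smul_apply, smul_eq_mul]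
  split_ifs with h
  · rw [mul_left_comm c]
    congr 1
    rw [Finset.mul_sum]
    exact Finset.sum_congr rfl fun π _ => by ring
  · simp

variable [Fintype Y]

theorem kil_zero : D.Kil (0 : (P → Y) → ℂ) :=
  ⟨fun i j _ => pr_zero D.toLS i j, fun m f _ => al_zero D (m + 1) f⟩

theorem kil_add {u v : (P → Y) → ℂ} (hu : D.Kil u) (hv : D.Kil v) : D.Kil (u + v) := by
  refine ⟨fun i j hij => ?_, fun m f hf => ?_⟩
  · rw [pr_add, hu.1 i j hij, hv.1 i j hij, add_zero]
  · rw [al_add, hu.2 m f hf, hv.2 m f hf, add_zero]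

theorem kil_smul (c : ℂ) {u : (P → Y) → ℂ} (hu : D.Kil u) : D.Kil (c • u) := by
  refine ⟨fun i j hij => ?_, fun m f hf => ?_⟩
  · rw [pr_smul, hu.1 i j hij, smul_zero]
  · rw [al_smul, hu.2 m f hf, smul_zero]

end lin

section core

variable {Y P : Type} [Fintype Y] [Fintype P] (D : LN Y)

omit [Fintype Y] [Fintype P] in
theorem ext_extend {B : Y → Prop} {t0 : P → Y} {m : ℕ} (f : Fin m → {i // ¬ B (t0 i)})
    (hf : Function.Injective f) (g : Fin m → Y) (w : {i // ¬ B (t0 i)} → Y) :
    ext B t0 (Function.extend f g w) = Function.extend (fun i => (f i).1) g (ext B t0 w) := by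
  have hf2 : Function.Injective (fun i => (f i).1) := Subtype.val_injective.comp hf
  funext x
  by_cases h : ∃ i, (f i).1 = x
  · obtain ⟨i, rfl⟩ := h
    rw [ext_A _ (f i), hf.extend_apply]
    exact (hf2.extend_apply g _ i).symm
  · rw [Function.extend_apply' _ _ _ h]
    by_cases hx : B (t0 x)
    · rw [ext_B _ hx, ext_B _ hx]
    · rw [ext_A _ ⟨x, hx⟩, ext_A _ ⟨x, hx⟩, Function.extend_apply']
      rintro ⟨i, hi⟩
      exact h ⟨i, congrArg Subtype.val hi⟩

/-- **The core.** -/
theorem core (hE : ENE) (B T : Y → Prop)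
    (hB : ∀ y y', D.S y y' → ¬ B y ∧ ¬ B y') (hBbar : ∀ y, B (D.bar y) ↔ B y)
    (hSA : ∀ y, ¬ B y → D.S y y) (hT : ∀ y, T (D.bar y) ↔ ¬ T y)
    (hcl : ∀ y, D.S y y → ¬ D.sp y → 0 < D.jj y ∧
      D.jj y ≤ {y' | D.S y y' ∧ T y'}.ncard + 1 ∧ D.jj y ≤ {y' | D.S y y' ∧ ¬ T y'}.ncard + 1)
    (RC : Submodule ℂ ((P → Y) → ℂ))
    (ha : ∀ r ∈ RC, D.Kil r)
    (hb : ∀ r ∈ RC, ∀ y y', D.S y y' → y ≠ y' → D.rt y y' r ∈ RC)
    (hc : ∀ r ∈ RC, ∀ p, (open Classical in
      (fun t => if {i | T (t i)}.ncard = p then r t else 0 : (P → Y) → ℂ)) ∈ RC)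
    (r0 : (P → Y) → ℂ) (hr0 : r0 ∈ RC) (t0 : P → Y) (ht0 : r0 t0 ≠ 0) :
    ∃ r ∈ RC, ∃ t, r t ≠ 0 ∧ (∀ i, B (t0 i) → t i = t0 i) ∧
      ∀ i, ¬ B (t0 i) → ¬ B (t i) ∧ T (t i) := by
  classical
  set W : Set (P → Y) := {t | (∀ i, B (t0 i) → t i = t0 i) ∧ ∀ i, ¬ B (t0 i) → ¬ B (t i)} with hW
  let Good : ℕ → Prop := fun p => ∃ r ∈ RC, (∀ t, r t ≠ 0 → {i | T (t i)}.ncard = p) ∧
    ∃ t ∈ W, r t ≠ 0
  have hg0 : Good {i | T (t0 i)}.ncard := by
    refine ⟨_, hc r0 hr0 {i | T (t0 i)}.ncard, ?_, t0, ?_, ?_⟩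
    · intro t ht
      by_contra h
      exact ht (if_neg h)
    · exact ⟨fun i _ => rfl, fun i h => h⟩
    · rw [if_pos rfl]
      exact ht0
  have hle : ∀ p, Good p → p ≤ Fintype.card P := by
    rintro p ⟨r, -, h1, t, -, ht⟩
    rw [← h1 t ht, ← Nat.card_eq_fintype_card]
    exact Set.ncard_le_card _
  obtain ⟨p, hp, hp1⟩ : ∃ p, Good p ∧ ¬ Good (p + 1) := by
    by_contra hcon
    push Not at hcon
    have h1 : ∀ k, Good ({i | T (t0 i)}.ncard + k) := by
      intro k
      induction k with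
      | zero => exact hg0
      | succ k ih => exact hcon _ ih
    have h2 := hle _ (h1 (Fintype.card P + 1))
    omega
  obtain ⟨r, hr, hrp, t1, ht1, hrt1⟩ := hp
  -- raising root vectors
  have hraise : ∀ y y', D.S y y' → T y → ¬ T y' → ∀ t ∈ W, D.rt y y' r t = 0 := by
    intro y y' hS hy hy' t ht
    by_contra hne
    refine hp1 ⟨D.rt y y' r, hb r hr y y' hS ?_, ?_, t, ht, hne⟩
    · rintro rfl
      exact hy' hy
    · intro t' ht'
      have hmove : ∀ z z', T z → ¬ T z' → eL z z' r t' ≠ 0 → {i | T (t' i)}.ncard = p + 1 := by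
        intro z z' hz hz' h
        unfold eL at h
        obtain ⟨i, -, hi⟩ := Finset.exists_ne_zero_of_sum_ne_zero h
        have hi1 : t' i = z := by
          by_contra h2
          rw [if_neg h2] at hi
          exact hi rfl
        rw [if_pos hi1] at hi
        rw [← hrp _ hi]
        have hset : {x | T (t' x)} = insert i {x | T (up t' i z' x)} := by
          ext x
          simp only [Set.mem_insert_iff, Set.mem_ofPred_eq]
          by_cases hx : x = i
          · subst hx
            rw [hi1]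
            simp [hz]
          · rw [up_ne _ hx]
            simp [hx]
        rw [hset, Set.ncard_insert_of_notMem _ (Set.toFinite _)]
        rw [Set.mem_ofPred_eq, up_self]
        exact hz'
      unfold LS.rt at ht'
      rw [Pi.sub_apply, Pi.smul_apply] at ht'
      by_cases h1 : eL y y' r t' = 0
      · rw [h1, zero_sub] at ht'
        have h2 : eL (D.bar y') (D.bar y) r t' ≠ 0 := by
          intro h3
          rw [h3, smul_zero, neg_zero] at ht'
          exact ht' rfl
        exact hmove _ _ ((hT y').2 hy') (fun h => ((hT y).1 h) hy) h2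
      · exact hmove _ _ hy hy' h1
  -- words of `A`-letters
  have hextW : ∀ w : {i // ¬ B (t0 i)} → Y, (∀ i, ¬ B (w i)) → ext B t0 w ∈ W := by
    intro w hw
    refine ⟨fun i hi => ext_B w hi, fun i hi => ?_⟩
    rw [ext_A w ⟨i, hi⟩]
    exact hw _
  set u : ({i // ¬ B (t0 i)} → Y) → ℂ := Supx.res B t0 r with hu
  have hupA : ∀ (w : {i // ¬ B (t0 i)} → Y) (i : {i // ¬ B (t0 i)}) (y : Y), (∀ i, ¬ B (w i)) →
      ¬ B y → ∀ x, ¬ B (up w i y x) := by
    intro w i y hw hy x
    by_cases hx : x = i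
    · rw [hx, up_self]
      exact hy
    · rw [up_ne _ hx]
      exact hw x
  have hres : ∀ w : {i // ¬ B (t0 i)} → Y, (∀ i, ¬ B (w i)) → u w = r (ext B t0 w) := by
    intro w hw
    rw [hu]
    unfold Supx.res
    rw [if_pos hw]
  have hres0 : ∀ w : {i // ¬ B (t0 i)} → Y, (∃ i, B (w i)) → u w = 0 := by
    rintro w ⟨i, hi⟩
    rw [hu]
    unfold Supx.res
    rw [if_neg]
    intro h
    exact h i hi
  have hk := ha r hr
  have hkill : D.Kil u := by
    constructor
    · intro i j hij
      have hij' : i.1 ≠ j.1 := fun h => hij (Subtype.ext h)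
      funext w
      unfold LS.pr
      split_ifs with hcnd
      · have hwi : ¬ B (w i) := (hB _ _ hcnd.2).1
        have hwj : ¬ B (w j) := by
          rw [hcnd.1, hBbar]
          exact hwi
        by_cases hw : ∀ x, ¬ B (w x)
        · have h1 := congrFun (hk.1 i.1 j.1 hij') (ext B t0 w)
          unfold LS.pr at h1
          rw [ext_A w i, ext_A w j, if_pos hcnd] at h1
          rw [Pi.zero_apply] at h1 ⊢
          refine Eq.trans ?_ h1
          congr 1
          refine Finset.sum_congr rfl fun y _ => ?_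
          split_ifs with hy
          · have hyB := (hB _ _ hy).2
            rw [hres _ (hupA _ j _ (hupA w i y hw hyB) (by rwa [hBbar])), ext_up, ext_up]
          · rfl
        · push Not at hw
          obtain ⟨x, hx⟩ := hw
          have hxi : x ≠ i := by
            rintro rfl
            exact hwi hx
          have hxj : x ≠ j := by
            rintro rfl
            exact hwj hx
          rw [Finset.sum_eq_zero, mul_zero]
          · rfl
          · intro y _
            split_ifs
            · rw [hres0 _ ⟨x, ?_⟩, mul_zero]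
              rw [up2_ne w hxi hxj]
              exact hx
            · rfl
      · rfl
    · intro m f hf
      have hf2 : Function.Injective (fun i => (f i).1) := Subtype.val_injective.comp hf
      funext w
      unfold LN.al
      split_ifs with hcnd
      · have hwf : ∀ i, ¬ B (w (f i)) := fun i => (hB _ _ (hcnd i i).1).1
        by_cases hw : ∀ x, ¬ B (w x)
        · have h1 := congrFun (hk.2 m (fun i => (f i).1) hf2) (ext B t0 w)
          unfold LN.al at h1
          rw [if_pos (by
            intro i i'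
            rw [ext_A w (f i), ext_A w (f i')]
            exact hcnd i i')] at h1
          rw [Pi.zero_apply] at h1 ⊢
          refine Eq.trans ?_ h1
          congr 1
          refine Finset.sum_congr rfl fun π _ => ?_
          congr 1
          have h2 : ∀ x, ¬ B (Function.extend f (fun i => w (f (π i))) w x) := by
            intro x
            by_cases hx : ∃ i, f i = x
            · obtain ⟨i, rfl⟩ := hx
              rw [hf.extend_apply]
              exact hwf _
            · rw [Function.extend_apply' _ _ _ hx]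
              exact hw x
          rw [hres _ h2, ext_extend f hf]
          congr 2
          funext i
          exact (ext_A w (f (π i))).symm
        · push Not at hw
          obtain ⟨x, hx⟩ := hw
          have hxf : ¬ ∃ i, f i = x := by
            rintro ⟨i, rfl⟩
            exact hwf i hx
          rw [Finset.sum_eq_zero, mul_zero]
          · rfl
          · intro π _
            rw [hres0 _ ⟨x, ?_⟩, mul_zero]
            rw [Function.extend_apply' _ _ _ hxf]
            exact hx
      · rfl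
  have heL : ∀ z z' : Y, ¬ B z → ¬ B z' → ∀ w : {i // ¬ B (t0 i)} → Y,
      eL z z' u w = if ∀ x, ¬ B (w x) then eL z z' r (ext B t0 w) else 0 := by
    intro z z' hz hz' w
    split_ifs with hw
    · unfold eL
      have h1 := Fintype.sum_subtype_add_sum_subtype (fun i : P => ¬ B (t0 i))
        (fun i : P => if ext B t0 w i = z then r (up (ext B t0 w) i z') else 0)
      rw [← h1]
      have h2 : ∑ i : {i // ¬ ¬ B (t0 i)},
          (if ext B t0 w i.1 = z then r (up (ext B t0 w) i.1 z') else 0) = 0 := by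
        refine Finset.sum_eq_zero fun i _ => ?_
        rw [if_neg]
        have hi := not_not.1 i.2
        rw [ext_B w hi]
        rintro rfl
        exact hz hi
      rw [h2, add_zero]
      refine Finset.sum_congr rfl fun i _ => ?_
      rw [ext_A w i]
      split_ifs
      · rw [hres _ (hupA w i z' hw hz'), ext_up]
      · rfl
    · push Not at hw
      obtain ⟨x, hx⟩ := hw
      unfold eL
      refine Finset.sum_eq_zero fun i _ => ?_
      split_ifs with hi
      · refine hres0 _ ⟨x, ?_⟩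
        rw [up_ne _]
        · exact hx
        · rintro rfl
          rw [hi] at hx
          exact hz hx
      · rfl
  have hrt : ∀ y y', D.S y y' → T y → ¬ T y' → D.rt y y' u = 0 := by
    intro y y' hS hy hy'
    obtain ⟨h1, h2⟩ := hB _ _ hS
    funext w
    unfold LS.rt
    rw [Pi.sub_apply, Pi.smul_apply, heL y y' h1 h2,
      heL _ _ (by rwa [hBbar]) (by rwa [hBbar])]
    by_cases hw : ∀ x, ¬ B (w x)
    · rw [if_pos hw, if_pos hw]
      have h3 := hraise y y' hS hy hy' _ (hextW w hw)
      unfold LS.rt at h3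
      rw [Pi.sub_apply, Pi.smul_apply] at h3
      rw [h3]
      rfl
    · rw [if_neg hw, if_neg hw]
      simp
  have hcard : ∀ (q : Y → Prop) [DecidablePred q],
      (Finset.univ.filter fun y' => q y').card = {y' | q y'}.ncard := by
    intro q _
    rw [← Set.ncard_coe_finset]
    congr 1
    ext y'
    simp
  have hfin := hE Y D T hT (fun y h1 h2 => by
    obtain ⟨h3, h4, h5⟩ := hcl y h1 h2
    rw [hcard, hcard]
    exact ⟨h3, h4, h5⟩) {i // ¬ B (t0 i)} u hkill hrt
  have hw1 : ∀ i : {i // ¬ B (t0 i)}, ¬ B (t1 i.1) := fun i => ht1.2 i.1 i.2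
  have hext1 : ext B t0 (fun i : {i // ¬ B (t0 i)} => t1 i.1) = t1 := by
    funext x
    by_cases hx : B (t0 x)
    · rw [ext_B _ hx, ht1.1 x hx]
    · exact ext_A _ ⟨x, hx⟩
  have hu1 : u (fun i => t1 i.1) ≠ 0 := by
    rw [hres _ hw1, hext1]
    exact hrt1
  refine ⟨r, hr, t1, hrt1, ht1.1, fun i hi => ⟨ht1.2 i hi, ?_⟩⟩
  exact hfin _ hu1 ⟨i, hi⟩ (hSA _ (ht1.2 i hi))

end core

section letters

variable {κ : Type} {K : κ → Type} [∀ k, Field (K k)] {n : κ → ℕ} {J : κ → Type} {P : Type}

theorem cls [Finite (Lt K n J)] {Φ : Ty K n J} {a : ∀ k, Fin (n k) → K k} {s : κ → Bool}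
    (hdat : IsDat Φ a s) (y : Lt K n J) (h : ¬ isB y) (hs : s y.1.1 ≠ true) :
    n y.1.1 / 2 ≤ {y' | Sm s y y' ∧ y'.2 ∈ Φ y'.1}.ncard ∧
      n y.1.1 / 2 ≤ {y' | Sm s y y' ∧ y'.2 ∉ Φ y'.1}.ncard := by
  obtain ⟨⟨k, g | j⟩, τ⟩ := y
  swap
  · exact absurd rfl h
  have hk : s k = false := by
    cases hh : s k
    · rfl
    · exact absurd hh hs
  have hinj : Function.Injective fun g' : Fin (n k) => (lA k g' τ : Lt K n J) := by
    intro g1 g2 h12
    have h3 : (lA k g1 τ : Lt K n J).1 = (lA k g2 τ : Lt K n J).1 := congrArg Sigma.fst h12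
    have h4 := eq_of_heq (Sigma.mk.inj h3).2
    exact Sum.inl_injective h4
  have h1 : sig Φ k τ + {g' : Fin (n k) | τ ∉ Φ ⟨k, Sum.inl g'⟩}.ncard = n k := by
    have h2 := Set.ncard_add_ncard_compl {g' : Fin (n k) | τ ∈ Φ ⟨k, Sum.inl g'⟩}
    rw [Nat.card_eq_fintype_card, Fintype.card_fin] at h2
    exact h2
  have h2 : sig Φ k τ ≤
      {y' : Lt K n J | Sm s ⟨⟨k, Sum.inl g⟩, τ⟩ y' ∧ y'.2 ∈ Φ y'.1}.ncard := by
    unfold sig
    rw [← Set.ncard_image_of_injective _ hinj]
    refine Set.ncard_le_ncard ?_ (Set.toFinite _)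
    rintro _ ⟨g', hg', rfl⟩
    exact ⟨⟨k, g, g', τ, rfl, Or.inl rfl⟩, hg'⟩
  have h3 : {g' : Fin (n k) | τ ∉ Φ ⟨k, Sum.inl g'⟩}.ncard ≤
      {y' : Lt K n J | Sm s ⟨⟨k, Sum.inl g⟩, τ⟩ y' ∧ y'.2 ∉ Φ y'.1}.ncard := by
    rw [← Set.ncard_image_of_injective _ hinj]
    refine Set.ncard_le_ncard ?_ (Set.toFinite _)
    rintro _ ⟨g', hg', rfl⟩
    exact ⟨⟨k, g, g', τ, rfl, Or.inl rfl⟩, hg'⟩
  have h4 := hdat.blk k hk τ
  refine ⟨le_trans ?_ h2, le_trans ?_ h3⟩
  · change n k / 2 ≤ _
    rcases h4 with h5 | ⟨h5, -⟩ | ⟨h5, -⟩ <;> omega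
  · change n k / 2 ≤ _
    rcases h4 with h5 | ⟨h5, -⟩ | ⟨h5, -⟩ <;> omega

end letters

end Supn

open Pool.Agent.U21.Grdx Pool.Agent.U21.Supx Supn

/-- **Row SUP.** -/
theorem sup (hE : ENE) : SUP := by
  intro κ K _ n J _ Φ a s D hdat hls P _ c R hR hkill u hu t0 ht0
  classical
  set RC : Submodule ℂ ((P → Lt K n J) → ℂ) := Submodule.span ℂ (R : Set ((P → Lt K n J) → ℂ))
    with hRC
  have huC : u ∈ RC := Submodule.subset_span hu
  have hS : ∀ y y', D.S y y' ↔ Sm s y y' := by
    intro y y'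
    rw [hls.ls.hS]
  have hB : ∀ y y', D.S y y' → ¬ isB y ∧ ¬ isB y' := fun y y' h => not_isB_of_Sm ((hS y y').1 h)
  have hBbar : ∀ y, isB (D.bar y) ↔ isB y := by
    intro y
    rw [hls.ls.hbar]
    exact isB_bar y
  have hSA : ∀ y, ¬ isB y → D.S y y := fun y h => (hS y y).2 (Sm_self h)
  have hbarT : ∀ y, ((D.bar y).2 ∈ Φ (D.bar y).1 ↔ y.2 ∉ Φ y.1) := by
    intro y
    rw [hls.ls.hbar]
    exact hdat.cm y.1 y.2
  have ha : ∀ r ∈ RC, D.Kil r := by
    intro r hr
    induction hr using Submodule.span_induction with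
    | mem x hx => exact hkill x hx
    | zero => exact kil_zero D
    | add x y _ _ hx hy => exact kil_add D hx hy
    | smul c x _ hx => exact kil_smul D c hx
  have hb : ∀ r ∈ RC, ∀ y y', D.S y y' → y ≠ y' → D.rt y y' r ∈ RC := by
    intro r hr y y' hy hne
    induction hr using Submodule.span_induction with
    | mem x hx =>
      rw [rt_eq hls.ls]
      exact hR.lie y y' ((hS y y').1 hy) hne x hx
    | zero => rw [rt_zero]; exact Submodule.zero_mem _
    | add x z _ _ hx hz => rw [rt_add]; exact Submodule.add_mem _ hx hz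
    | smul c x _ hx => rw [rt_smul]; exact Submodule.smul_mem _ c hx
  have hpart : ∀ r ∈ RC, ∀ p, part Φ p r ∈ RC := fun r hr p => part_mem hR.graded hr p
  have hcon : ∀ r ∈ RC, ∀ t, r t ≠ 0 → c ≤ nT Φ t ∧ c ≤ nF Φ t := by
    intro r hr t ht
    by_contra hcon
    apply ht
    clear ht
    induction hr using Submodule.span_induction with
    | mem x hx =>
      by_contra h
      exact hcon (hR.con x hx t h)
    | zero => rfl
    | add x z _ _ hx hz => rw [Pi.add_apply, hx, hz, add_zero]
    | smul c x _ hx => rw [Pi.smul_apply, hx, smul_zero]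
  have hsum : ∀ t : P → Lt K n J, nT Φ t + nF Φ t = Fintype.card P := by
    intro t
    unfold nT nF
    rw [← Nat.card_eq_fintype_card, ← Set.ncard_add_ncard_compl {i | (t i).2 ∈ Φ (t i).1}]
    rfl
  have hcl : ∀ y, D.S y y → ¬ D.sp y → 0 < D.jj y ∧
      D.jj y ≤ {y' | D.S y y' ∧ y'.2 ∈ Φ y'.1}.ncard + 1 ∧
      D.jj y ≤ {y' | D.S y y' ∧ y'.2 ∉ Φ y'.1}.ncard + 1 := by
    intro y hy hsp
    have h1 := Supn.cls hdat y (hB y y hy).1 (fun h => hsp ((hls.ls.hsp y).2 h))
    rw [hls.hjj, hls.ls.hS]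
    exact ⟨Nat.succ_pos _, Nat.succ_le_succ h1.1, Nat.succ_le_succ h1.2⟩
  constructor
  · -- the letters of `A` are not in `Φ`
    obtain ⟨r, hr, t, hrt, h1, h2⟩ := Supn.core D hE isB (fun y => y.2 ∉ Φ y.1) hB hBbar hSA
      (fun y => by rw [hbarT]) (fun y h3 h4 => by
        obtain ⟨h5, h6, h7⟩ := hcl y h3 h4
        simp only [not_not]
        exact ⟨h5, h7, h6⟩) RC ha hb (by
        intro r hr p
        by_cases hp : p ≤ Fintype.card P
        · have h3 := hpart r hr (Fintype.card P - p)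
          convert h3 using 1
          funext t
          unfold part
          have h4 := hsum t
          unfold nF at h4
          by_cases h5 : {i | (t i).2 ∉ Φ (t i).1}.ncard = p
          · rw [if_pos h5, if_pos]
            omega
          · rw [if_neg h5, if_neg]
            omega
        · convert Submodule.zero_mem RC using 1
          funext t
          rw [if_neg]
          · rfl
          · intro h5
            have h4 := hsum t
            unfold nF at h4
            omega) u huC t0 ht0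
    have h3 := (hcon r hr t hrt).1
    have h4 : {i | (t i).2 ∈ Φ (t i).1} = {i | isB (t0 i) ∧ (t0 i).2 ∈ Φ (t0 i).1} := by
      ext i
      simp only [Set.mem_ofPred_eq]
      by_cases hi : isB (t0 i)
      · rw [h1 i hi]
        simp [hi]
      · simp [hi, (h2 i hi).2]
    unfold nT at h3
    rwa [h4] at h3
  · obtain ⟨r, hr, t, hrt, h1, h2⟩ := Supn.core D hE isB (fun y => y.2 ∈ Φ y.1) hB hBbar hSA
      hbarT hcl RC ha hb (fun r hr p => hpart r hr p) u huC t0 ht0
    have h3 := (hcon r hr t hrt).2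
    have h4 : {i | (t i).2 ∉ Φ (t i).1} = {i | isB (t0 i) ∧ (t0 i).2 ∉ Φ (t0 i).1} := by
      ext i
      simp only [Set.mem_ofPred_eq]
      by_cases hi : isB (t0 i)
      · rw [h1 i hi]
        simp [hi]
      · simp [hi, (h2 i hi).2]
    unfold nF at h3
    rwa [h4] at h3

end Pool.Agent.U2N
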