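import Pool.Agent.Lib.U2N.ASM
import Pool.Agent.Lib.U2N.OMG
import Pool.Agent.Lib.U2N.CMA
import Pool.Agent.Lib.U2N.ROW
import Pool.Agent.Lib.U2N.ENE
import Pool.Agent.Lib.U2N.LSX
import Pool.Agent.Lib.U2N.FAC
import Pool.Agent.Lib.U2N.RTP
import Pool.Agent.Lib.U2N.RTA
import Pool.Agent.Lib.U2N.DET
import Pool.Agent.Lib.U2N.SPL
import Pool.Agent.Lib.U2N.SUP
import Pool.Agent.Lib.U2N.REX
import Pool.Agent.Lib.U2N.GRD
import Pool.Agent.Lib.U2N.OMS
import Pool.Agent.Lib.U21.CMT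
import Pool.Agent.Lib.U21.TRN

/-!
# U2N: final assembly
-/

set_option autoImplicit false

namespace Pool.Agent.U2N

theorem ghn : GHN :=
  asm lsx fac det spl (sup (ene row)) U21.trn rex (oms omg U21.cmt cma rtp rta grd)

end Pool.Agent.U2N
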