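import Pool.Agent.Lib.U2N.Stat
import Pool.Agent.Lib.U21.Rows

/-!
# U2N: statements of the rows

As `Pool.Agent.Lib.U21.Rows`, with hermitian blocks of any rank: the antisymmetrisers `an` of two
letters are replaced by the antisymmetrisers `al` of `j` letters of one unitary standard
representation of dimension `n`, `j = n / 2 + 1`.
-/

set_option autoImplicit false

open scoped ComplexConjugate
open Complex Pool.Agent.HCM Pool.Agent.U21

namespace Pool.Agent.U2N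

noncomputable section

/-! ### Abstract letters -/

/-- Abstract letters with, for every letter, the number `jj`. -/
structure LN (Y : Type) extends LS Y where
  jj : Y → ℕ
  jj_S : ∀ y y', S y y' → jj y = jj y'

section ops

variable {Y P : Type} (D : LN Y)

open Classical in
/-- The antisymmetrisation of the letters at the places `f i`, if they are `j` letters of one unitary
standard representation with `jj = j`. -/
def LN.al (j : ℕ) (f : Fin j → P) (u : (P → Y) → ℂ) (t : P → Y) : ℂ :=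
  if ∀ i i', D.S (t (f i)) (t (f i')) ∧ ¬ D.sp (t (f i)) ∧ D.jj (t (f i)) = j then
    (j.factorial : ℂ)⁻¹ * ∑ π : Equiv.Perm (Fin j), ((Equiv.Perm.sign π : ℤ) : ℂ) *
      u (Function.extend f (fun i => t (f (π i))) t)
  else 0

variable [Fintype Y] [Fintype P]

open Classical in
/-- The operator `Ω`. -/
def LN.om (u : (P → Y) → ℂ) (t : P → Y) : ℂ :=
  (∑ i, ∑ j, if i ≠ j then D.pr i j u t else 0) +
    ∑ m ∈ Finset.range (Fintype.card P), ∑ f : Fin (m + 1) ↪ P, D.al (m + 1) f u t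

/-- `u` is killed by all `pr` and `al`. -/
def LN.Kil (u : (P → Y) → ℂ) : Prop :=
  (∀ i j, i ≠ j → D.pr i j u = 0) ∧ ∀ (m : ℕ) (f : Fin (m + 1) → P), Function.Injective f →
    D.al (m + 1) f u = 0

end ops

/-- **Row OMG**. -/
def OMG : Prop :=
  ∀ (Y : Type) [Fintype Y] (D : LN Y) (P : Type) [Fintype P] (u : (P → Y) → ℂ),
    (D.om u = 0 → D.Kil u) ∧ (D.om (D.om u) = 0 → D.om u = 0)

/-- **Row CMA**: the root vectors commute with `al`. -/
def CMA : Prop :=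
  ∀ (Y : Type) (D : LN Y) (P : Type) [Fintype P] (m : ℕ) (f : Fin (m + 1) → P),
    Function.Injective f → ∀ y y', D.S y y' → y ≠ y' → ∀ u : (P → Y) → ℂ,
      D.rt y y' (D.al (m + 1) f u) = D.al (m + 1) f (D.rt y y' u)

/-- **Row ROW** (representations of the symmetric group with few rows): `U` is a function on the
permutations of `R`, `k₀ ∈ R`; `Q` is a set of places. If `U` is killed by the antisymmetrisers of
`p + 1` places in `Q` and satisfies the relation `(B)` with `q ≥ p`, then `U` vanishes. -/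
def ROW : Prop :=
  ∀ (R : Type) [Fintype R] [DecidableEq R] (k₀ : R) (p q : ℕ) (Q : Finset R)
    (U : Equiv.Perm R → ℂ), p ≤ q →
    (∀ π : Equiv.Perm R, ∀ k ∈ Q, π k = k₀ →
      ∑ i ∈ Q.erase k, U (π * Equiv.swap i k) = - (q : ℂ) * U π) →
    (∀ I ⊆ Q, I.card = p + 1 → ∀ π : Equiv.Perm R, π⁻¹ k₀ ∈ Q →
      ∑ ρ : Equiv.Perm R, (if ∀ x, x ∉ I → ρ x = x then ((Equiv.Perm.sign ρ : ℤ) : ℂ) * U (π * ρ)
        else 0) = 0) →
    ∀ π : Equiv.Perm R, π⁻¹ k₀ ∈ Q → U π = 0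

open Classical in
/-- **Row ENE**: the energy identity. -/
def ENE : Prop :=
  ∀ (Y : Type) [Fintype Y] (D : LN Y) (T : Y → Prop), (∀ y, T (D.bar y) ↔ ¬ T y) →
    (∀ y, D.S y y → ¬ D.sp y → 0 < D.jj y ∧
      D.jj y ≤ (Finset.univ.filter fun y' => D.S y y' ∧ T y').card + 1 ∧
      D.jj y ≤ (Finset.univ.filter fun y' => D.S y y' ∧ ¬ T y').card + 1) →
    ∀ (P : Type) [Fintype P] (u : (P → Y) → ℂ), D.Kil u →
      (∀ y y', D.S y y' → T y → ¬ T y' → D.rt y y' u = 0) →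
      ∀ t, u t ≠ 0 → ∀ i, D.S (t i) (t i) → T (t i)

/-! ### The letters of `X` -/

section letters

variable {κ : Type} {K : κ → Type} [∀ k, Field (K k)] {n : κ → ℕ} {J : κ → Type}

/-- `D` is the structure of `Stat` on the letters of `X`. -/
structure IsLN (a : ∀ k, Fin (n k) → K k) (s : κ → Bool) (D : LN (Lt K n J)) : Prop where
  ls : IsLS a s D.toLS
  hjj : ∀ y, D.jj y = n y.1.1 / 2 + 1

end letters

/-- **Row LSX**: the structure exists. -/
def LSX : Prop :=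
  ∀ (κ : Type) (K : κ → Type) [∀ k, Field (K k)] (n : κ → ℕ) (J : κ → Type)
    (Φ : Ty K n J) (a : ∀ k, Fin (n k) → K k) (s : κ → Bool), IsDat Φ a s →
    ∃ D : LN (Lt K n J), IsLN a s D

/-- **Row FAC**: the operator `pr` at the two first places factors through contractions. -/
def FAC : Prop :=
  ∀ (κ : Type) [Finite κ] (K : κ → Type) [∀ k, Field (K k)] [∀ k, NumberField (K k)]
    [∀ k, NumberField.IsCMField (K k)] (n : κ → ℕ) (J : κ → Type) [Fintype (Lt K n J)]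
    (Φ : Ty K n J) (a : ∀ k, Fin (n k) → K k) (s : κ → Bool) (D : LN (Lt K n J)),
    IsDat Φ a s → IsLN a s D → ∀ (P : Type) [Fintype P],
    ∃ (N : ℕ) (δ : Fin N → (Fin 2 → Lt K n J) → ℂ)
      (C : Fin N → ((Fin 2 ⊕ P → Lt K n J) → ℂ) →ₗ[ℂ] ((P → Lt K n J) → ℂ)),
      (∀ m, IsH11 Φ a s (δ m)) ∧ (∀ m, IsMor Φ a s 1 2 (C m)) ∧
      ∀ u t, D.pr (Sum.inl 0) (Sum.inl 1) u t =
          ∑ m, δ m (fun i => t (Sum.inl i)) * C m u fun j => t (Sum.inr j)

/-- **Row DET**: `al` for a hermitian block factors through the `K`-determinants. -/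
def DET : Prop :=
  ∀ (κ : Type) [Finite κ] (K : κ → Type) [∀ k, Field (K k)] [∀ k, NumberField (K k)]
    [∀ k, NumberField.IsCMField (K k)] (n : κ → ℕ) (J : κ → Type)
    (Φ : Ty K n J) (a : ∀ k, Fin (n k) → K k) (s : κ → Bool) (D : LN (Lt K n J)),
    IsDat Φ a s → IsLN a s D → ∀ (P : Type) [Fintype P] (k : κ), s k = false →
    ∃ C : ((Fin (n k / 2 + 1) ⊕ P → Lt K n J) → ℂ) →ₗ[ℂ]
        ((Fin (n k / 2 + 1) ⊕ P → Lt K n J) → ℂ), IsMor Φ a s 0 1 C ∧
      ∀ u t, (open Classical in if (t (Sum.inl 0)).1.1 = k then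
        D.al (n k / 2 + 1) Sum.inl u t else 0) = dN a k (C u) t

/-- **Row RTA**: `al` is rational. -/
def RTA : Prop :=
  ∀ (κ : Type) [Finite κ] (K : κ → Type) [∀ k, Field (K k)] [∀ k, NumberField (K k)]
    [∀ k, NumberField.IsCMField (K k)] (n : κ → ℕ) (J : κ → Type)
    (Φ : Ty K n J) (a : ∀ k, Fin (n k) → K k) (s : κ → Bool) (D : LN (Lt K n J)),
    IsDat Φ a s → IsLN a s D → ∀ (P : Type) [Fintype P] (m : ℕ) (f : Fin (m + 1) → P),
    Function.Injective f → ∀ u ∈ TQ K n J P, D.al (m + 1) f u ∈ TQ K n J P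

/-- **Row RTP**: `pr` is rational (as `U21.RTO`). -/
def RTP : Prop :=
  ∀ (κ : Type) [Finite κ] (K : κ → Type) [∀ k, Field (K k)] [∀ k, NumberField (K k)]
    [∀ k, NumberField.IsCMField (K k)] (n : κ → ℕ) (J : κ → Type) [Fintype (Lt K n J)]
    (Φ : Ty K n J) (a : ∀ k, Fin (n k) → K k) (s : κ → Bool) (D : LN (Lt K n J)),
    IsDat Φ a s → IsLN a s D → ∀ (P : Type) [Fintype P] (i j : P), i ≠ j →
    ∀ u ∈ TQ K n J P, D.pr i j u ∈ TQ K n J P

/-- **Row GRD**: the operators preserve the Hodge types and the number of letters of `A`. -/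
def GRD : Prop :=
  ∀ (κ : Type) (K : κ → Type) [∀ k, Field (K k)] (n : κ → ℕ) (J : κ → Type) [Fintype (Lt K n J)]
    (Φ : Ty K n J) (a : ∀ k, Fin (n k) → K k) (s : κ → Bool) (D : LN (Lt K n J)),
    IsDat Φ a s → IsLN a s D → ∀ (P : Type) [Fintype P] (u : (P → Lt K n J) → ℂ),
      (∀ i j, i ≠ j → (∀ p, D.pr i j (part Φ p u) = part Φ p (D.pr i j u)) ∧
        ∀ t, D.pr i j u t ≠ 0 → ∃ t', u t' ≠ 0 ∧ nT Φ t' = nT Φ t ∧ nF Φ t' = nF Φ t ∧
          nA t' = nA t) ∧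
      ∀ (m : ℕ) (f : Fin (m + 1) → P), Function.Injective f →
        (∀ p, D.al (m + 1) f (part Φ p u) = part Φ p (D.al (m + 1) f u)) ∧
        ∀ t, D.al (m + 1) f u t ≠ 0 → ∃ t', u t' ≠ 0 ∧ nT Φ t' = nT Φ t ∧ nF Φ t' = nF Φ t ∧
          nA t' = nA t

/-- **Row SPL**: a rational tensor whose words have `B`-parts of coniveau `c` is generated. -/
def SPL : Prop :=
  ∀ (κ : Type) [Finite κ] (K : κ → Type) [∀ k, Field (K k)] [∀ k, NumberField (K k)]
    [∀ k, NumberField.IsCMField (K k)] (n : κ → ℕ) (J : κ → Type) [∀ k, Finite (J k)]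
    (Φ : Ty K n J) (a : ∀ k, Fin (n k) → K k) (s : κ → Bool), IsDat Φ a s →
    ∀ (P : Type) [Fintype P] (c : ℕ) (u : (P → Lt K n J) → ℂ), u ∈ TQ K n J P →
    (∀ t, u t ≠ 0 → c ≤ {i | isB (t i) ∧ (t i).2 ∈ Φ (t i).1}.ncard ∧
      c ≤ {i | isB (t i) ∧ (t i).2 ∉ Φ (t i).1}.ncard) →
    u ∈ Submodule.span ℚ {f | Gen Φ a s c P f}

/-- **Row SUP**: in a sub-Hodge structure killed by `pr` and `al`, the words have `B`-parts of
coniveau `c`. -/
def SUP : Prop :=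
  ∀ (κ : Type) (K : κ → Type) [∀ k, Field (K k)] (n : κ → ℕ) (J : κ → Type) [Fintype (Lt K n J)]
    (Φ : Ty K n J) (a : ∀ k, Fin (n k) → K k) (s : κ → Bool) (D : LN (Lt K n J)),
    IsDat Φ a s → IsLN a s D → ∀ (P : Type) [Fintype P] (c : ℕ)
    (R : Submodule ℚ ((P → Lt K n J) → ℂ)), IsSub Φ a s c R → (∀ u ∈ R, D.Kil u) →
    ∀ u ∈ R, ∀ t, u t ≠ 0 → c ≤ {i | isB (t i) ∧ (t i).2 ∈ Φ (t i).1}.ncard ∧
      c ≤ {i | isB (t i) ∧ (t i).2 ∉ Φ (t i).1}.ncard

/-- **Row REX**: permutations of the places are morphisms, and compatible with `pr` and `al`. -/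
def REX : Prop :=
  ∀ (κ : Type) (K : κ → Type) [∀ k, Field (K k)] (n : κ → ℕ) (J : κ → Type) [Fintype (Lt K n J)]
    (Φ : Ty K n J) (a : ∀ k, Fin (n k) → K k) (s : κ → Bool) (D : LN (Lt K n J))
    (P P' : Type) [Fintype P] [Fintype P'] (e : P ≃ P'),
    ∃ C : ((P → Lt K n J) → ℂ) →ₗ[ℂ] ((P' → Lt K n J) → ℂ), IsMor Φ a s 0 0 C ∧
      (∀ u t', C u t' = u fun i => t' (e i)) ∧
      (∀ i j u t', D.pr (e i) (e j) (C u) t' = D.pr i j u (fun i => t' (e i))) ∧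
      ∀ (m : ℕ) (f : Fin (m + 1) → P), Function.Injective f → ∀ u t',
        D.al (m + 1) (fun i => e (f i)) (C u) t' = D.al (m + 1) f u (fun i => t' (e i))

/-- **Row OMS**: the decomposition of the saturation of `R`. -/
def OMS : Prop :=
  ∀ (κ : Type) [Finite κ] (K : κ → Type) [∀ k, Field (K k)] [∀ k, NumberField (K k)]
    [∀ k, NumberField.IsCMField (K k)] (n : κ → ℕ) (J : κ → Type) [∀ k, Finite (J k)]
    [Fintype (Lt K n J)]
    (Φ : Ty K n J) (a : ∀ k, Fin (n k) → K k) (s : κ → Bool) (D : LN (Lt K n J)),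
    IsDat Φ a s → IsLN a s D → ∀ (P : Type) [Fintype P] (c r : ℕ)
    (R : Submodule ℚ ((P → Lt K n J) → ℂ)), IsSub Φ a s c R →
    (∀ u ∈ R, ∀ t, u t ≠ 0 → nA t ≤ r) →
    ∃ R₁ R₀ : Submodule ℚ ((P → Lt K n J) → ℂ), IsSub Φ a s c R₁ ∧ IsSub Φ a s c R₀ ∧
      (∀ u ∈ R₁, ∀ t, u t ≠ 0 → nA t ≤ r) ∧ (∀ u ∈ R₀, D.Kil u) ∧
      ∀ u ∈ R, ∃ v ∈ R₀, ∃ w ∈ R₁, u = v + D.om w

end

end Pool.Agent.U2N
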