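import Pool.Agent.Lib.U21.StatB

/-!
# The generalized Hodge conjecture for products of symplectic, nearly balanced unitary and CM factors

The setting of `Pool.Agent.Lib.U21.Stat` with hermitian blocks of any rank: `A k` has multiplication
by the CM field `K k`, `H_1(A k, ℚ) = (K k)^(n k)` with a hermitian form, and at every embedding `τ`
the signature `(p, q)`, `p + q = n k`, is nearly balanced, `|p - q| ≤ 1`.
-/

set_option autoImplicit false

open scoped ComplexConjugate
open Complex Pool.Agent.HCM Pool.Agent.U21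

namespace Pool.Agent.U2N

noncomputable section

section defs

variable {κ : Type} {K : κ → Type} [∀ k, Field (K k)] {n : κ → ℕ} {J : κ → Type}

/-- The conditions on the data: the `Φ i` are CM types; the hermitian blocks are nearly balanced, and
if `n k` is odd, `E k` has the type of the determinant of `H_1(A k)`, up to Tate twist. -/
structure IsDat (Φ : Ty K n J) (a : ∀ k, Fin (n k) → K k) (s : κ → Bool) : Prop where
  cm : ∀ i, IsCMType (Φ i)
  ne : ∀ k g, a k g ≠ 0
  sgn : ∀ k g (τ : K k →+* ℂ), cj τ (a k g) = if s k then - τ (a k g) else τ (a k g)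
  pos : ∀ k, s k = false → 0 < n k
  blk : ∀ k, s k = false → ∀ τ : K k →+* ℂ, 2 * sig Φ k τ = n k ∨
    (2 * sig Φ k τ = n k + 1 ∧ τ ∈ Φ ⟨k, Sum.inr none⟩) ∨
    (2 * sig Φ k τ + 1 = n k ∧ τ ∉ Φ ⟨k, Sum.inr none⟩)

/-- The letters which replace the letters `(σ i, τ)`, `i < n k / 2 + 1`, of `A k`: the letters
`(σ i, conj τ)` of `A k`, `i ≥ n k / 2 + 1`, the letter `τ` of `E k` and, if `n k` is even, the letter
`conj τ` of `E k`. -/
def nw (k : κ) (τ : K k →+* ℂ) (σ : Equiv.Perm (Fin (n k))) (i : Fin (n k / 2 + 1)) : Lt K n J :=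
  if h : n k / 2 + 1 + i < n k then lA k (σ ⟨n k / 2 + 1 + i, h⟩) (cj τ)
  else if n k / 2 + 1 + i = n k then lE k τ else lE k (cj τ)

/-- The sign of `σ` times the product of the `τ (a k (σ i))`, `i ≥ n k / 2 + 1`. -/
def cf (a : ∀ k, Fin (n k) → K k) (k : κ) (τ : K k →+* ℂ) (σ : Equiv.Perm (Fin (n k))) : ℂ :=
  ((Equiv.Perm.sign σ : ℤ) : ℂ) *
    ∏ i : Fin (n k), if (i : ℕ) < n k / 2 + 1 then 1 else τ (a k (σ i))

open Classical in
/-- The `K`-determinant of a hermitian block: `Λ^j V = Λ^(n - j) V' ⊗ det V`, `n = n k`,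
`j = n / 2 + 1`, `V'` the conjugate of `V`, and `det V = H_1(E k)` (up to Tate twist) for odd `n`,
`det V` trivial, that is a direct summand of `H_1(E k) ⊗ H_1(E k)`, for even `n`: the letters of
`Λ^(n - j) V'` and of `E k` at the first `j` places of `u` are replaced by `j` letters of `V`. -/
def dN [∀ k, NumberField (K k)] {P : Type} (a : ∀ k, Fin (n k) → K k) (k : κ)
    (u : (Fin (n k / 2 + 1) ⊕ P → Lt K n J) → ℂ) (t : Fin (n k / 2 + 1) ⊕ P → Lt K n J) : ℂ :=
  ∑ τ : K k →+* ℂ, ∑ σ : Equiv.Perm (Fin (n k)),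
    if ∀ (i : Fin (n k / 2 + 1)) (h : (i : ℕ) < n k), t (Sum.inl i) = lA k (σ ⟨i, h⟩) τ then
      cf a k τ σ * u (Sum.elim (nw k τ σ) fun p => t (Sum.inr p)) else 0

/-- The classes in `H_1(X, ℚ)^{⊗ P}` of coniveau `c` which are built from CM abelian varieties: the
least class which contains the products of loops and of a class `v` as in `IsCMB`, and is closed
under products with classes of type `(1,1)`, under the `K`-determinants `dN` and under permutations of
the factors. If the `dN` are given by algebraic correspondences, they come from algebraic subsets of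
dimension `|P| - c`. -/
inductive Gen [∀ k, NumberField (K k)] (Φ : Ty K n J) (a : ∀ k, Fin (n k) → K k) (s : κ → Bool) :
    ℕ → ∀ P : Type, ((P → Lt K n J) → ℂ) → Prop
  | base (c p l : ℕ) (x : Fin p → Lp K n J) (v : (Fin (2 * c + l) → Lt K n J) → ℂ)
      (hv : IsCMB Φ c l v) : Gen Φ a s c (Fin p ⊕ Fin (2 * c + l)) fun t =>
        (∏ i, lp (x i) (t (Sum.inl i))) * v fun j => t (Sum.inr j)
  | mul (c : ℕ) (P : Type) (δ : (Fin 2 → Lt K n J) → ℂ) (u : (P → Lt K n J) → ℂ)
      (hδ : IsH11 Φ a s δ) (hu : Gen Φ a s c P u) :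
      Gen Φ a s (c + 1) (Fin 2 ⊕ P) fun t => δ (fun i => t (Sum.inl i)) * u fun j => t (Sum.inr j)
  | det (c : ℕ) (P : Type) (k : κ) (u : (Fin (n k / 2 + 1) ⊕ P → Lt K n J) → ℂ)
      (hs : s k = false) (hu : Gen Φ a s c (Fin (n k / 2 + 1) ⊕ P) u) :
      Gen Φ a s c (Fin (n k / 2 + 1) ⊕ P) (dN a k u)
  | perm (c : ℕ) (P P' : Type) (e : P ≃ P') (u : (P → Lt K n J) → ℂ) (hu : Gen Φ a s c P u) :
      Gen Φ a s c P' fun t => u fun i => t (e i)
  | weak (c : ℕ) (P : Type) (u : (P → Lt K n J) → ℂ) (hu : Gen Φ a s (c + 1) P u) :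
      Gen Φ a s c P u

end defs

/-- **The generalized Hodge conjecture for the powers of `X`**, up to the algebraicity of the
`K`-determinants `dN`. -/
def GHN : Prop :=
  ∀ (κ : Type) [Finite κ] (K : κ → Type) [∀ k, Field (K k)] [∀ k, NumberField (K k)]
    [∀ k, NumberField.IsCMField (K k)] (n : κ → ℕ) (J : κ → Type) [∀ k, Finite (J k)]
    (Φ : Ty K n J) (a : ∀ k, Fin (n k) → K k) (s : κ → Bool), IsDat Φ a s →
    ∀ (P : Type) [Fintype P] (c : ℕ) (R : Submodule ℚ ((P → Lt K n J) → ℂ)), IsSub Φ a s c R →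
      ∀ u ∈ R, u ∈ Submodule.span ℚ {f | Gen Φ a s c P f}

end

end Pool.Agent.U2N
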