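import Pool.Agent.Lib.U21.ShortA
import Pool.Agent.Lib.U2N.Stat

/-!
# The generalized Hodge conjecture for products: short form of the statement

`Pool.Agent.U2N.GHN` with the definitions of `Pool.Agent.Lib.U21.ShortA`.
-/

set_option autoImplicit false

open scoped ComplexConjugate
open Complex Pool.Agent.HCM Pool.Agent.U21

namespace Pool.Agent.U2N

noncomputable section

section defs

variable {κ : Type} {K : κ → Type} [∀ k, Field (K k)] {n : κ → ℕ} {J : κ → Type}

/-- The classes in `H_1(X, ℚ)^{⊗ P}` of coniveau `c` which are built from CM abelian varieties: the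
least class which contains the products of loops and of a class `v` as in `IsCMB`, and is closed
under products with classes of type `(1,1)`, under the `K`-determinants `dN` and under permutations of
the factors. If the `dN` are given by algebraic correspondences, they come from algebraic subsets of
dimension `|P| - c`. -/
inductive GenS [∀ k, NumberField (K k)] (Φ : Ty K n J) (a : ∀ k, Fin (n k) → K k) (s : κ → Bool) :
    ℕ → ∀ P : Type, ((P → Lt K n J) → ℂ) → Prop
  | base (c p l : ℕ) (x : Fin p → Lp K n J) (v : (Fin (2 * c + l) → Lt K n J) → ℂ)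
      (hv : IsCMB Φ c l v) : GenS Φ a s c (Fin p ⊕ Fin (2 * c + l)) fun t =>
        (∏ i, lpS (x i) (t (Sum.inl i))) * v fun j => t (Sum.inr j)
  | mul (c : ℕ) (P : Type) (δ : (Fin 2 → Lt K n J) → ℂ) (u : (P → Lt K n J) → ℂ)
      (hδ : IsH11S Φ a s δ) (hu : GenS Φ a s c P u) :
      GenS Φ a s (c + 1) (Fin 2 ⊕ P) fun t => δ (fun i => t (Sum.inl i)) * u fun j => t (Sum.inr j)
  | det (c : ℕ) (P : Type) (k : κ) (u : (Fin (n k / 2 + 1) ⊕ P → Lt K n J) → ℂ)
      (hs : s k = false) (hu : GenS Φ a s c (Fin (n k / 2 + 1) ⊕ P) u) :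
      GenS Φ a s c (Fin (n k / 2 + 1) ⊕ P) (dN a k u)
  | perm (c : ℕ) (P P' : Type) (e : P ≃ P') (u : (P → Lt K n J) → ℂ) (hu : GenS Φ a s c P u) :
      GenS Φ a s c P' fun t => u fun i => t (e i)
  | weak (c : ℕ) (P : Type) (u : (P → Lt K n J) → ℂ) (hu : GenS Φ a s (c + 1) P u) :
      GenS Φ a s c P u

theorem genS_of [∀ k, NumberField (K k)] (Φ : Ty K n J) (a : ∀ k, Fin (n k) → K k) (s : κ → Bool)
    (c : ℕ) (P : Type) (u : (P → Lt K n J) → ℂ) (h : Gen Φ a s c P u) : GenS Φ a s c P u := by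
  induction h with
  | base c p l x v hv => exact GenS.base c p l x v hv
  | mul c P δ u hδ hu ih => exact GenS.mul c P δ u ((isH11S_iff Φ a s δ).2 hδ) ih
  | det c P k u hs hu ih => exact GenS.det c P k u hs ih
  | perm c P P' e u hu ih => exact GenS.perm c P P' e u ih
  | weak c P u hu ih => exact GenS.weak c P u ih

theorem gen_of [∀ k, NumberField (K k)] (Φ : Ty K n J) (a : ∀ k, Fin (n k) → K k) (s : κ → Bool)
    (c : ℕ) (P : Type) (u : (P → Lt K n J) → ℂ) (h : GenS Φ a s c P u) : Gen Φ a s c P u := by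
  induction h with
  | base c p l x v hv => exact Gen.base c p l x v hv
  | mul c P δ u hδ hu ih => exact Gen.mul c P δ u ((isH11S_iff Φ a s δ).1 hδ) ih
  | det c P k u hs hu ih => exact Gen.det c P k u hs ih
  | perm c P P' e u hu ih => exact Gen.perm c P P' e u ih
  | weak c P u hu ih => exact Gen.weak c P u ih

theorem genS_iff [∀ k, NumberField (K k)] (Φ : Ty K n J) (a : ∀ k, Fin (n k) → K k)
    (s : κ → Bool) (c : ℕ) (P : Type) (u : (P → Lt K n J) → ℂ) :
    GenS Φ a s c P u ↔ Gen Φ a s c P u :=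
  ⟨gen_of Φ a s c P u, genS_of Φ a s c P u⟩

end defs

/-- `GHN` in the short form. -/
theorem short (H : GHN) (κ : Type) [Finite κ] (K : κ → Type) [∀ k, Field (K k)]
    [∀ k, NumberField (K k)] [∀ k, NumberField.IsCMField (K k)] (n : κ → ℕ) (J : κ → Type)
    [∀ k, Finite (J k)] (Φ : Ty K n J) (a : ∀ k, Fin (n k) → K k) (s : κ → Bool)
    (hD : U2N.IsDat Φ a s) (P : Type) [Fintype P] (c : ℕ)
    (R : Submodule ℚ ((P → Lt K n J) → ℂ)) (hR : IsSubS Φ a s c R) (u : (P → Lt K n J) → ℂ)
    (hu : u ∈ R) : u ∈ Submodule.span ℚ {f | GenS Φ a s c P f} := by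
  have h := H κ K n J Φ a s hD P c R ((isSubS_iff Φ a s c R).1 hR) u hu
  have e : {f | GenS Φ a s c P f} = {f | U2N.Gen Φ a s c P f} := by
    ext f
    exact genS_iff Φ a s c P f
  rw [e]
  exact h

end

end Pool.Agent.U2N
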